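import Pool.Agent.H76.V.Atlas

/-!
# Random centres of the balls (MP_5ee2d0, Theorem V, step 1)
-/

namespace Pool.Agent.H76.V

open MeasureTheory
open scoped ENNReal

/-- Random centres: the centre of each ball is a random point of a smaller ball. -/
structure Centres (A : Atlas) where
  /-- all choices of centres for all balls -/
  Θ : Type
  [measΘ : MeasurableSpace Θ]
  ν : Measure Θ
  [probΘ : IsProbabilityMeasure ν]
  /-- parameters for the points of a geodesic triangle -/
  X : Type
  [measX : MeasurableSpace X]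
  σ : Measure X
  [probX : IsProbabilityMeasure σ]
  /-- the points of the geodesic triangle whose vertices are the centres of three balls -/
  tri : Fin A.v × Fin A.v × Fin A.v → Θ × X → A.Ω
  meas_tri : ∀ t, Measurable (tri t)
  /-- the points of the geodesic triangle whose vertices are the centres of two balls and a given
  point of both balls -/
  cone : Fin A.v × Fin A.v → (Θ × A.Ω) × X → A.Ω
  meas_cone : ∀ p, Measurable (cone p)
  /-- the points of the geodesic from the centre of a ball to a given point of the ball -/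
  radius : Fin A.v → (Θ × A.Ω) × X → A.Ω
  meas_radius : ∀ a, Measurable (radius a)
  /-- a constant -/
  D : ℝ
  D_nonneg : 0 ≤ D
  /-- These random points have bounded densities, since for given values of the parameters and of the
  other vertices the map from the vertex with the largest weight to the point is a diffeomorphism
  with bounded inverse. -/
  dens_tri : ∀ t ∈ A.tri, (ν.prod σ).map (tri t) ≤ ENNReal.ofReal D • A.μ
  dens_cone : ∀ p ∈ A.adj,
    ((ν.prod (A.μ.restrict (A.B p.1 ∩ A.B p.2))).prod σ).map (cone p) ≤ ENNReal.ofReal D • A.μ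
  dens_radius : ∀ a, ((ν.prod (A.μ.restrict (A.B a))).prod σ).map (radius a) ≤
    ENNReal.ofReal D • A.μ
  /-- the constant of the atlas is large -/
  large : D * ((A.tri.card + A.adj.card + A.v) * (D * D)) ≤ A.C

attribute [instance] Centres.measΘ Centres.probΘ Centres.measX Centres.probX

/-- A holomorphic vector bundle `E` of rank `R` on `S` with a unitary connection whose curvature `F`
is orthogonal to the Kähler form, with a unitary frame at every point; `k` is the dimension of
`H^0(S, E ⊗ K_S)`. -/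
structure Connection (A : Atlas) (Z : Centres A) (R k : ℕ) (e : ℝ) where
  e_nonneg : 0 ≤ e
  /-- an orthonormal basis of `H^0(S, E ⊗ K_S)` -/
  u : Fin k → A.Ω → Fin R → ℂ
  meas_u : ∀ i r, Measurable fun q => u i q r
  bdd_u : ∃ M, ∀ i q r, ‖u i q r‖ ≤ M
  orth : ∀ i i', ∫ q, pair (u i q) (u i' q) ∂A.μ = if i = i' then 1 else 0
  /-- Weitzenböck and Moser: `sup |u|^2 ≤ b ‖u‖^2` for all holomorphic sections, so the Bergman kernel
  is bounded by `b` -/
  bergman : ∀ q w, ∑ i, ‖pair w (u i q)‖ ^ 2 ≤ A.b * ∑ r, ‖w r‖ ^ 2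
  /-- the function `|F|^2` -/
  en : A.Ω → ℝ≥0∞
  meas_en : Measurable en
  /-- the energy -/
  energy : ∫⁻ q, en q ∂A.μ ≤ ENNReal.ofReal (Z.D * e)
  /-- parallel transport from the centre of one ball to that of another ball (the identity if they are
  far apart) -/
  P : Z.Θ → Fin A.v × Fin A.v → Matrix.unitaryGroup (Fin R) ℂ
  /-- parallel transport from the centre of a ball to a point of the ball -/
  Q : Z.Θ → Fin A.v → A.Ω → Matrix.unitaryGroup (Fin R) ℂ
  meas_Q : ∀ θ a r s, Measurable fun q => (Q θ a q : Matrix (Fin R) (Fin R) ℂ) r s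
  /-- the `(1,0)`-part of its covariant derivative -/
  dQ : Z.Θ → Fin A.v → Fin 2 → A.Ω → Matrix (Fin R) (Fin R) ℂ
  meas_dQ : ∀ θ a l r s, Measurable fun q => dQ θ a l q r s
  bdd_dQ : ∀ θ, ∃ M, ∀ a l q r s, ‖dQ θ a l q r s‖ ≤ M
  /-- the holonomy of a geodesic triangle differs from the identity at most by the integral of `|F|`
  over the triangle -/
  hol : ∀ θ, ∀ t ∈ A.tri, ENNReal.ofReal (dist2 ((P θ (t.1, t.2.2))⁻¹ * P θ (t.2.1, t.2.2) *
    P θ (t.1, t.2.1)) 1) ≤ ENNReal.ofReal Z.D * ∫⁻ x, en (Z.tri t (θ, x)) ∂Z.σ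
  holQ : ∀ θ, ∀ p ∈ A.adj, ∀ q ∈ A.B p.1 ∩ A.B p.2,
    ENNReal.ofReal (dist2 (Q θ p.1 q) (Q θ p.2 q * P θ p)) ≤
      ENNReal.ofReal Z.D * ∫⁻ x, en (Z.cone p ((θ, q), x)) ∂Z.σ
  /-- the derivative of the radial parallel transport is an integral of `F` over the radius -/
  deriv : ∀ θ a, ∀ q ∈ A.B a, ENNReal.ofReal (∑ l, hs (dQ θ a l q)) ≤
    ENNReal.ofReal Z.D * ∫⁻ x, en (Z.radius a ((θ, q), x)) ∂Z.σ
  /-- Spectral gap for the sections `f = ⟨T e_s, u_i⟩` of `K_S`. By the Leibniz rule the derivative of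
  `f` is `⟨dT e_s, u_i⟩`, since `u_i` is holomorphic. -/
  gap : ∀ θ (U : Fin A.v → Matrix.unitaryGroup (Fin R) ℂ) (i : Fin k) (s : Fin R),
    ∫ q, ‖pair (fun r => A.T (Q θ) U q r s) (u i q)‖ ^ 2 ∂A.μ ≤
      ∑ j, ‖∫ q, star (A.ω j q) * pair (fun r => A.T (Q θ) U q r s) (u i q) ∂A.μ‖ ^ 2 +
        (∫ q, ∑ l, ‖pair (fun r => A.dT (Q θ) (dQ θ) U l q r s) (u i q)‖ ^ 2 ∂A.μ) / A.lam

end Pool.Agent.H76.V
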