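import Pool.Agent.H76.V.Bundle

/-!
# The Bergman kernel against matrices and the gluing inequality (MP_5ee2d0, Theorem V, step 1)
-/

namespace Pool.Agent.H76.V

open MeasureTheory

/-- (P3) -/
theorem Bundle.bergman_hs {A : Atlas} {R k : ℕ} {e : ℝ} (β : Bundle A R k e) (q : A.Ω)
    (Z : Matrix (Fin R) (Fin R) ℂ) :
    ∑ i, ∑ s, ‖pair (fun r => Z r s) (β.u i q)‖ ^ 2 ≤ A.b * hs Z := by
  rw [Finset.sum_comm]
  calc ∑ s, ∑ i, ‖pair (fun r => Z r s) (β.u i q)‖ ^ 2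
      ≤ ∑ s, A.b * ∑ r, ‖Z r s‖ ^ 2 := Finset.sum_le_sum fun s _ => β.bergman q _
    _ = A.b * hs Z := by rw [← Finset.mul_sum, Finset.sum_comm, hs]

theorem hs_eq {R : ℕ} (A : Matrix (Fin R) (Fin R) ℂ) :
    ((hs A : ℝ) : ℂ) = (A * A.conjTranspose).trace := by
  simp only [hs, Matrix.trace, Matrix.diag_apply, Matrix.mul_apply, Matrix.conjTranspose_apply]
  push_cast
  refine Finset.sum_congr rfl fun i _ => Finset.sum_congr rfl fun j _ => ?_
  rw [Complex.star_def, Complex.mul_conj, Complex.normSq_eq_norm_sq]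
  push_cast
  rfl

theorem hs_mul_unitary {R : ℕ} (A : Matrix (Fin R) (Fin R) ℂ) (U : Matrix.unitaryGroup (Fin R) ℂ) :
    hs (A * (U : Matrix (Fin R) (Fin R) ℂ)) = hs A := by
  have h : ((hs (A * (U : Matrix (Fin R) (Fin R) ℂ)) : ℝ) : ℂ) = ((hs A : ℝ) : ℂ) := by
    rw [hs_eq, hs_eq, Matrix.conjTranspose_mul, Matrix.mul_assoc, ← Matrix.mul_assoc
      (U : Matrix (Fin R) (Fin R) ℂ)]
    have hU : (U : Matrix (Fin R) (Fin R) ℂ) * (U : Matrix (Fin R) (Fin R) ℂ).conjTranspose = 1 :=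
      (Matrix.mem_unitaryGroup_iff).1 U.2
    rw [hU, Matrix.one_mul]
  exact_mod_cast h

theorem hs_unitary_mul {R : ℕ} (A : Matrix (Fin R) (Fin R) ℂ) (U : Matrix.unitaryGroup (Fin R) ℂ) :
    hs ((U : Matrix (Fin R) (Fin R) ℂ) * A) = hs A := by
  have h : ((hs ((U : Matrix (Fin R) (Fin R) ℂ) * A) : ℝ) : ℂ) = ((hs A : ℝ) : ℂ) := by
    rw [hs_eq, hs_eq, Matrix.conjTranspose_mul, Matrix.mul_assoc, Matrix.trace_mul_comm,
      Matrix.mul_assoc, Matrix.mul_assoc]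
    have hU : (U : Matrix (Fin R) (Fin R) ℂ).conjTranspose * (U : Matrix (Fin R) (Fin R) ℂ) = 1 :=
      (Matrix.mem_unitaryGroup_iff').1 U.2
    rw [hU, Matrix.mul_one]
  exact_mod_cast h

theorem hs_add_le {R : ℕ} (A B : Matrix (Fin R) (Fin R) ℂ) :
    hs (A + B) ≤ 2 * hs A + 2 * hs B := by
  simp only [hs, Finset.mul_sum, ← Finset.sum_add_distrib]
  refine Finset.sum_le_sum fun i _ => Finset.sum_le_sum fun j _ => ?_
  rw [Matrix.add_apply]
  have h := norm_add_le (A i j) (B i j)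
  have h0 := norm_nonneg (A i j + B i j)
  nlinarith [sq_nonneg (‖A i j‖ - ‖B i j‖), norm_nonneg (A i j), norm_nonneg (B i j)]

/-- (P5) -/
theorem dist2_glue {R : ℕ} (Q Q' P U U' : Matrix.unitaryGroup (Fin R) ℂ) :
    dist2 (Q * U) (Q' * U') ≤ 2 * dist2 Q (Q' * P) + 2 * dist2 (P * U) U' := by
  have h : ((Q * U : Matrix.unitaryGroup (Fin R) ℂ) : Matrix (Fin R) (Fin R) ℂ) -
      ((Q' * U' : Matrix.unitaryGroup (Fin R) ℂ) : Matrix (Fin R) (Fin R) ℂ) =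
      ((Q : Matrix (Fin R) (Fin R) ℂ) - ((Q' * P : Matrix.unitaryGroup (Fin R) ℂ) :
        Matrix (Fin R) (Fin R) ℂ)) * (U : Matrix (Fin R) (Fin R) ℂ) +
      (Q' : Matrix (Fin R) (Fin R) ℂ) * (((P * U : Matrix.unitaryGroup (Fin R) ℂ) :
        Matrix (Fin R) (Fin R) ℂ) - (U' : Matrix (Fin R) (Fin R) ℂ)) := by
    simp only [Submonoid.coe_mul]
    noncomm_ring
  unfold dist2
  rw [h]
  refine (hs_add_le _ _).trans ?_
  rw [hs_mul_unitary, hs_unitary_mul]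

end Pool.Agent.H76.V
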