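import Pool.Agent.H76.V.Sections

/-!
# Proof of `Atlas.sections_le` (MP_5ee2d0, Theorem V, step 1)
-/

namespace Pool.Agent.H76.V

open MeasureTheory

/-- measurable and bounded -/
private def FinNice {Ω F : Type} [MeasurableSpace Ω] [NormedCommRing F] [MeasurableSpace F]
    (f : Ω → F) : Prop := Measurable f ∧ ∃ M : ℝ, ∀ q, ‖f q‖ ≤ M

section
variable {Ω F : Type} [MeasurableSpace Ω] [NormedCommRing F] [MeasurableSpace F] [BorelSpace F]
  [SecondCountableTopology F]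

private theorem FinNice.int {f : Ω → F} (h : FinNice f) (μ : Measure Ω) [IsFiniteMeasure μ] :
    Integrable f μ := by
  obtain ⟨hm, M, hM⟩ := h
  exact Integrable.of_bound hm.aestronglyMeasurable M (Filter.Eventually.of_forall hM)

omit [BorelSpace F] [SecondCountableTopology F] in
private theorem FinNice.const (c : F) : FinNice (fun _ : Ω => c) :=
  ⟨measurable_const, ‖c‖, fun _ => le_rfl⟩

private theorem FinNice.add {f g : Ω → F} (hf : FinNice f) (hg : FinNice g) :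
    FinNice (fun q => f q + g q) := by
  obtain ⟨hm, M, hM⟩ := hf
  obtain ⟨hm', M', hM'⟩ := hg
  exact ⟨hm.add hm', M + M', fun q => (norm_add_le _ _).trans (add_le_add (hM q) (hM' q))⟩

private theorem FinNice.mul {f g : Ω → F} (hf : FinNice f) (hg : FinNice g) :
    FinNice (fun q => f q * g q) := by
  obtain ⟨hm, M, hM⟩ := hf
  obtain ⟨hm', M', hM'⟩ := hg
  refine ⟨hm.mul hm', M * M', fun q => (norm_mul_le _ _).trans ?_⟩
  exact mul_le_mul (hM q) (hM' q) (norm_nonneg _) ((norm_nonneg _).trans (hM q))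

private theorem FinNice.sum {ι : Type} (s : Finset ι) {f : ι → Ω → F}
    (hf : ∀ i ∈ s, FinNice (f i)) : FinNice (fun q => ∑ i ∈ s, f i q) := by
  classical
  induction s using Finset.induction_on with
  | empty => simpa using FinNice.const (Ω := Ω) (0 : F)
  | insert a s ha ih =>
    have h1 := FinNice.add (hf a (Finset.mem_insert_self _ _))
      (ih fun i hi => hf i (Finset.mem_insert_of_mem hi))
    have h2 : (fun q => ∑ i ∈ insert a s, f i q) = fun q => f a q + ∑ i ∈ s, f i q := by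
      funext q
      exact Finset.sum_insert ha
    rw [h2]
    exact h1

end

section
variable {Ω : Type} [MeasurableSpace Ω]

private theorem FinNice.star {f : Ω → ℂ} (hf : FinNice f) : FinNice (fun q => star (f q)) := by
  obtain ⟨hm, M, hM⟩ := hf
  refine ⟨continuous_star.measurable.comp hm, M, fun q => ?_⟩
  rw [norm_star]
  exact hM q

private theorem FinNice.sq {f : Ω → ℂ} (hf : FinNice f) : FinNice (fun q => ‖f q‖ ^ 2) := by
  obtain ⟨hm, M, hM⟩ := hf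
  refine ⟨hm.norm.pow_const 2, M ^ 2, fun q => ?_⟩
  rw [norm_pow, norm_norm]
  exact pow_le_pow_left₀ (norm_nonneg _) (hM q) 2

private theorem FinNice.ofReal {f : Ω → ℝ} (hf : FinNice f) : FinNice (fun q => (f q : ℂ)) := by
  obtain ⟨hm, M, hM⟩ := hf
  refine ⟨Complex.measurable_ofReal.comp hm, M, fun q => ?_⟩
  rw [Complex.norm_real]
  exact hM q

private theorem FinNice.ind {f : Ω → ℝ} (hf : FinNice f) {s : Set Ω} (hs : MeasurableSet s) :
    FinNice (fun q => s.indicator f q) := by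
  obtain ⟨hm, M, hM⟩ := hf
  refine ⟨hm.indicator hs, M, fun q => ?_⟩
  exact (norm_indicator_le_norm_self _ _).trans (hM q)

private theorem FinNice.unitary {R : ℕ} {V : Ω → Matrix.unitaryGroup (Fin R) ℂ}
    (hV : ∀ r s, Measurable fun q => (V q : Matrix (Fin R) (Fin R) ℂ) r s) (r s : Fin R) :
    FinNice fun q => (V q : Matrix (Fin R) (Fin R) ℂ) r s :=
  ⟨hV r s, 1, fun q => entry_norm_bound_of_unitary (V q).2 r s⟩

private theorem FinNice.umul {R : ℕ} {V W : Ω → Matrix.unitaryGroup (Fin R) ℂ}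
    (hV : ∀ r s, FinNice fun q => (V q : Matrix (Fin R) (Fin R) ℂ) r s)
    (hW : ∀ r s, FinNice fun q => (W q : Matrix (Fin R) (Fin R) ℂ) r s) (r s : Fin R) :
    FinNice fun q => ((V q * W q : Matrix.unitaryGroup (Fin R) ℂ) : Matrix (Fin R) (Fin R) ℂ) r s := by
  have h : (fun q => ((V q * W q : Matrix.unitaryGroup (Fin R) ℂ) : Matrix (Fin R) (Fin R) ℂ) r s) =
      fun q => ∑ t, (V q : Matrix (Fin R) (Fin R) ℂ) r t * (W q : Matrix (Fin R) (Fin R) ℂ) t s := by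
    funext q
    rw [Matrix.UnitaryGroup.mul_val, Matrix.mul_apply]
  rw [h]
  exact FinNice.sum _ fun t _ => (hV r t).mul (hW t s)

private theorem FinNice.uconst {R : ℕ} (W : Matrix.unitaryGroup (Fin R) ℂ) (r s : Fin R) :
    FinNice fun _ : Ω => (W : Matrix (Fin R) (Fin R) ℂ) r s := FinNice.const _

private theorem FinNice.hs {R : ℕ} {Z : Ω → Matrix (Fin R) (Fin R) ℂ}
    (hZ : ∀ r s, FinNice fun q => Z q r s) : FinNice fun q => hs (Z q) := by
  unfold Pool.Agent.H76.V.hs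
  exact FinNice.sum _ fun i _ => FinNice.sum _ fun j _ => (hZ i j).sq

private theorem FinNice.dist2 {R : ℕ} {V W : Ω → Matrix.unitaryGroup (Fin R) ℂ}
    (hV : ∀ r s, FinNice fun q => (V q : Matrix (Fin R) (Fin R) ℂ) r s)
    (hW : ∀ r s, FinNice fun q => (W q : Matrix (Fin R) (Fin R) ℂ) r s) :
    FinNice fun q => dist2 (V q) (W q) := by
  unfold Pool.Agent.H76.V.dist2
  refine FinNice.hs fun r s => ?_
  have h := (hV r s).add ((FinNice.const (-1 : ℂ)).mul (hW r s))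
  have h2 : (fun q => ((V q : Matrix (Fin R) (Fin R) ℂ) - (W q : Matrix (Fin R) (Fin R) ℂ)) r s) =
      fun q => (V q : Matrix (Fin R) (Fin R) ℂ) r s + (-1) * (W q : Matrix (Fin R) (Fin R) ℂ) r s := by
    funext q
    rw [Matrix.sub_apply]
    ring
  rw [h2]
  exact h

private theorem FinNice.pair {R : ℕ} {w u : Ω → Fin R → ℂ} (hw : ∀ r, FinNice fun q => w q r)
    (hu : ∀ r, FinNice fun q => u q r) : FinNice fun q => pair (w q) (u q) := by
  unfold Pool.Agent.H76.V.pair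
  exact FinNice.sum _ fun r _ => (hw r).star.mul (hu r)

end

private theorem fin_hs_nonneg {R : ℕ} (Z : Matrix (Fin R) (Fin R) ℂ) : 0 ≤ hs Z :=
  Finset.sum_nonneg fun _ _ => Finset.sum_nonneg fun _ _ => by positivity

private theorem fin_dist2_nonneg {R : ℕ} (V W : Matrix.unitaryGroup (Fin R) ℂ) : 0 ≤ dist2 V W :=
  fin_hs_nonneg _

private theorem fin_chi {A : Atlas} (a : Fin A.v) : FinNice (A.χ a) := by
  refine ⟨A.meas_χ a, 1, fun q => ?_⟩
  rw [Real.norm_eq_abs, abs_of_nonneg (A.χ_nonneg a q), ← A.χ_sum q]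
  exact Finset.single_le_sum (f := fun a => A.χ a q) (fun a _ => A.χ_nonneg a q)
    (Finset.mem_univ a)

private theorem fin_chi_le {A : Atlas} (a : Fin A.v) (q : A.Ω) : A.χ a q ≤ 1 := by
  rw [← A.χ_sum q]
  exact Finset.single_le_sum (f := fun a => A.χ a q) (fun a _ => A.χ_nonneg a q)
    (Finset.mem_univ a)

private theorem fin_dchi {A : Atlas} (a : Fin A.v) (l : Fin 2) : FinNice (A.dχ a l) :=
  ⟨A.meas_dχ a l, A.C, fun q => A.dχ_le a l q⟩

private theorem fin_omega {A : Atlas} (j : Fin A.pg) : FinNice (A.ω j) := by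
  obtain ⟨M, hM⟩ := A.bdd_ω
  exact ⟨A.meas_ω j, M, fun q => hM j q⟩

section
variable {A : Atlas} {R k : ℕ} {e : ℝ} (β : Bundle A R k e)

private theorem fin_u (i : Fin k) (r : Fin R) : FinNice fun q => β.u i q r := by
  obtain ⟨M, hM⟩ := β.bdd_u
  exact ⟨β.meas_u i r, M, fun q => hM i q r⟩

private theorem fin_Q (a : Fin A.v) (r s : Fin R) :
    FinNice fun q => (β.Q a q : Matrix (Fin R) (Fin R) ℂ) r s :=
  FinNice.unitary (β.meas_Q a) r s

private theorem fin_dQ (a : Fin A.v) (l : Fin 2) (r s : Fin R) :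
    FinNice fun q => β.dQ a l q r s := by
  obtain ⟨M, hM⟩ := β.bdd_dQ
  exact ⟨β.meas_dQ a l r s, M, fun q => hM a l q r s⟩

private theorem fin_QU (U : Fin A.v → Matrix.unitaryGroup (Fin R) ℂ) (a : Fin A.v) (r s : Fin R) :
    FinNice fun q => ((β.Q a q * U a : Matrix.unitaryGroup (Fin R) ℂ) :
      Matrix (Fin R) (Fin R) ℂ) r s :=
  FinNice.umul (fin_Q β a) (FinNice.uconst (U a)) r s

private theorem fin_T (U : Fin A.v → Matrix.unitaryGroup (Fin R) ℂ) (r s : Fin R) :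
    FinNice fun q => A.T β.Q U q r s := by
  have h : (fun q => A.T β.Q U q r s) = fun q => ∑ a, (A.χ a q : ℂ) *
      ((β.Q a q * U a : Matrix.unitaryGroup (Fin R) ℂ) : Matrix (Fin R) (Fin R) ℂ) r s := by
    funext q
    simp only [Atlas.T, Matrix.sum_apply, Matrix.smul_apply, smul_eq_mul]
  rw [h]
  exact FinNice.sum _ fun a _ => (fin_chi a).ofReal.mul (fin_QU β U a r s)

private theorem fin_dT (U : Fin A.v → Matrix.unitaryGroup (Fin R) ℂ) (l : Fin 2) (r s : Fin R) :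
    FinNice fun q => A.dT β.Q β.dQ U l q r s := by
  have h : (fun q => A.dT β.Q β.dQ U l q r s) = fun q => ∑ a, (A.dχ a l q *
      ((β.Q a q * U a : Matrix.unitaryGroup (Fin R) ℂ) : Matrix (Fin R) (Fin R) ℂ) r s +
      (A.χ a q : ℂ) * ∑ t, β.dQ a l q r t * (U a : Matrix (Fin R) (Fin R) ℂ) t s) := by
    funext q
    simp only [Atlas.dT, Matrix.sum_apply, Matrix.smul_apply, smul_eq_mul, Matrix.add_apply,
      Matrix.mul_apply]
  rw [h]
  refine FinNice.sum _ fun a _ => FinNice.add ((fin_dchi a l).mul (fin_QU β U a r s)) ?_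
  exact (fin_chi a).ofReal.mul (FinNice.sum _ fun t _ => (fin_dQ β a l r t).mul (FinNice.const _))


/-- the norm of a section -/
private theorem fin_norm (i : Fin k) : ∫ q, ∑ r, ‖β.u i q r‖ ^ 2 ∂A.μ = 1 := by
  have h := β.orth i i
  rw [if_pos rfl] at h
  have h2 : (fun q => pair (β.u i q) (β.u i q)) = fun q => ((∑ r, ‖β.u i q r‖ ^ 2 : ℝ) : ℂ) := by
    funext q
    unfold pair
    push_cast
    refine Finset.sum_congr rfl fun r _ => ?_
    rw [← Complex.conj_mul']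
    rfl
  rw [h2, integral_complex_ofReal] at h
  exact_mod_cast h

/-- the pointwise inequality -/
private theorem fin_point (U : Fin A.v → Matrix.unitaryGroup (Fin R) ℂ) (q : A.Ω) :
    ∑ i, ∑ r, ‖β.u i q r‖ ^ 2 ≤
      ∑ i, ∑ s, ‖pair (fun r => A.T β.Q U q r s) (β.u i q)‖ ^ 2 +
        A.b / 2 * ∑ p ∈ A.adj, (A.B p.1 ∩ A.B p.2).indicator
          (fun q => dist2 (β.Q p.1 q * U p.1) (β.Q p.2 q * U p.2)) q := by
  set V : Fin A.v → Matrix.unitaryGroup (Fin R) ℂ := fun a => β.Q a q * U a with hV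
  set G : Fin A.v → Fin A.v → ℝ := fun a a' => ∑ i, ∑ s, ‖pair (fun r =>
    ((V a : Matrix (Fin R) (Fin R) ℂ) - (V a' : Matrix (Fin R) (Fin R) ℂ)) r s) (β.u i q)‖ ^ 2
    with hG
  have h1 : ∀ i, 2 * ∑ s, ‖pair (fun r => A.T β.Q U q r s) (β.u i q)‖ ^ 2 +
      ∑ a, ∑ a', A.χ a q * A.χ a' q * ∑ s, ‖pair (fun r => ((V a : Matrix (Fin R) (Fin R) ℂ) -
        (V a' : Matrix (Fin R) (Fin R) ℂ)) r s) (β.u i q)‖ ^ 2 = 2 * ∑ r, ‖β.u i q r‖ ^ 2 :=
    fun i => pair_sum (fun a => A.χ a q) (A.χ_sum q) V (β.u i q)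
  have h2 : 2 * ∑ i, ∑ s, ‖pair (fun r => A.T β.Q U q r s) (β.u i q)‖ ^ 2 +
      ∑ a, ∑ a', A.χ a q * A.χ a' q * G a a' = 2 * ∑ i, ∑ r, ‖β.u i q r‖ ^ 2 := by
    have h0 : ∑ i, (2 * ∑ s, ‖pair (fun r => A.T β.Q U q r s) (β.u i q)‖ ^ 2 +
        ∑ a, ∑ a', A.χ a q * A.χ a' q * ∑ s, ‖pair (fun r => ((V a : Matrix (Fin R) (Fin R) ℂ) -
          (V a' : Matrix (Fin R) (Fin R) ℂ)) r s) (β.u i q)‖ ^ 2) =
        ∑ i, 2 * ∑ r, ‖β.u i q r‖ ^ 2 := Finset.sum_congr rfl fun i _ => h1 i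
    rw [Finset.sum_add_distrib, ← Finset.mul_sum, ← Finset.mul_sum] at h0
    rw [← h0]
    congr 1
    symm
    rw [Finset.sum_comm]
    refine Finset.sum_congr rfl fun a _ => ?_
    rw [Finset.sum_comm]
    refine Finset.sum_congr rfl fun a' _ => ?_
    rw [← Finset.mul_sum]
  have h3 : ∀ a a', G a a' ≤ A.b * dist2 (V a) (V a') := fun a a' => β.bergman_hs q _
  have h4 : ∑ a, ∑ a', A.χ a q * A.χ a' q * G a a' ≤ A.b * ∑ p ∈ A.adj,
      (A.B p.1 ∩ A.B p.2).indicator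
          (fun q => dist2 (β.Q p.1 q * U p.1) (β.Q p.2 q * U p.2)) q := by
    have h5 : ∑ a, ∑ a', A.χ a q * A.χ a' q * G a a' =
        ∑ p : Fin A.v × Fin A.v, A.χ p.1 q * A.χ p.2 q * G p.1 p.2 := by
      rw [Fintype.sum_prod_type]
    have h6 : ∑ p ∈ A.adj, A.χ p.1 q * A.χ p.2 q * G p.1 p.2 =
        ∑ p : Fin A.v × Fin A.v, A.χ p.1 q * A.χ p.2 q * G p.1 p.2 := by
      refine Finset.sum_subset (Finset.subset_univ _) fun p _ hp => ?_
      have h7 := A.disj p.1 p.2 hp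
      by_cases hq : q ∈ A.B p.1
      · have h8 : q ∉ A.B p.2 := fun h => by
          have : q ∈ A.B p.1 ∩ A.B p.2 := ⟨hq, h⟩
          rw [h7] at this
          exact this
        rw [A.χ_supp p.2 q h8]
        ring
      · rw [A.χ_supp p.1 q hq]
        ring
    rw [h5, ← h6, Finset.mul_sum]
    refine Finset.sum_le_sum fun p _ => ?_
    by_cases hq : q ∈ A.B p.1 ∩ A.B p.2
    · rw [Set.indicator_of_mem hq]
      have h9 : A.χ p.1 q * A.χ p.2 q ≤ 1 :=
        mul_le_one₀ (fin_chi_le p.1 q) (A.χ_nonneg p.2 q) (fin_chi_le p.2 q)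
      have h10 : 0 ≤ G p.1 p.2 := by
        rw [hG]
        exact Finset.sum_nonneg fun _ _ => Finset.sum_nonneg fun _ _ => by positivity
      calc A.χ p.1 q * A.χ p.2 q * G p.1 p.2 ≤ 1 * G p.1 p.2 :=
            mul_le_mul_of_nonneg_right h9 h10
        _ = G p.1 p.2 := one_mul _
        _ ≤ _ := h3 p.1 p.2
    · rw [Set.indicator_of_notMem hq, mul_zero]
      have h11 : A.χ p.1 q * A.χ p.2 q = 0 := by
        by_cases hq1 : q ∈ A.B p.1
        · rw [A.χ_supp p.2 q fun h => hq ⟨hq1, h⟩, mul_zero]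
        · rw [A.χ_supp p.1 q hq1, zero_mul]
      rw [h11, zero_mul]
  linarith

/-- Bessel -/
private theorem fin_bessel (U : Fin A.v → Matrix.unitaryGroup (Fin R) ℂ) (s : Fin R)
    (j : Fin A.pg) :
    ∑ i, ‖∫ q, star (A.ω j q) * pair (fun r => A.T β.Q U q r s) (β.u i q) ∂A.μ‖ ^ 2 ≤ 1 := by
  have h0 : ∀ r, FinNice fun q => A.ω j q * A.T β.Q U q r s :=
    fun r => (fin_omega j).mul (fin_T β U r s)
  have h1 : ∃ M : ℝ, ∀ (q : A.Ω) (r : Fin R), ‖A.ω j q * A.T β.Q U q r s‖ ≤ M := by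
    choose M hM using fun r => (h0 r).2
    refine ⟨∑ r, |M r|, fun q r => (hM r q).trans ((le_abs_self _).trans ?_)⟩
    exact Finset.single_le_sum (f := fun r => |M r|) (fun _ _ => abs_nonneg _) (Finset.mem_univ r)
  have h2 := β.bessel (fun q r => A.ω j q * A.T β.Q U q r s) (fun r => (h0 r).1) h1
  have h3 : ∀ i, (fun q => star (A.ω j q) * pair (fun r => A.T β.Q U q r s) (β.u i q)) =
      fun q => pair (fun r => A.ω j q * A.T β.Q U q r s) (β.u i q) := by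
    intro i
    funext q
    unfold pair
    rw [Finset.mul_sum]
    refine Finset.sum_congr rfl fun r _ => ?_
    rw [star_mul]
    ring
  simp only [h3]
  refine h2.trans ?_
  have h4 : ∀ q, ∑ r, ‖A.ω j q * A.T β.Q U q r s‖ ^ 2 ≤ ‖A.ω j q‖ ^ 2 := by
    intro q
    have h5 : ∑ r, ‖A.ω j q * A.T β.Q U q r s‖ ^ 2 =
        ‖A.ω j q‖ ^ 2 * ∑ r, ‖A.T β.Q U q r s‖ ^ 2 := by
      rw [Finset.mul_sum]
      refine Finset.sum_congr rfl fun r _ => ?_
      rw [norm_mul, mul_pow]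
    have h6 : ∑ r, ‖A.T β.Q U q r s‖ ^ 2 ≤ 1 :=
      col_le (fun a => A.χ a q) (fun a => A.χ_nonneg a q) (A.χ_sum q) (fun a => β.Q a q * U a) s
    rw [h5]
    calc ‖A.ω j q‖ ^ 2 * ∑ r, ‖A.T β.Q U q r s‖ ^ 2 ≤ ‖A.ω j q‖ ^ 2 * 1 :=
          mul_le_mul_of_nonneg_left h6 (by positivity)
      _ = _ := mul_one _
  calc ∫ q, ∑ r, ‖A.ω j q * A.T β.Q U q r s‖ ^ 2 ∂A.μ ≤ ∫ q, ‖A.ω j q‖ ^ 2 ∂A.μ :=
        integral_mono ((FinNice.sum _ fun r _ => (h0 r).sq).int A.μ)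
          ((fin_omega j).sq.int A.μ) h4
    _ = 1 := A.norm_ω j

/-- the integral of one distance -/
private theorem fin_pair (U : Fin A.v → Matrix.unitaryGroup (Fin R) ℂ) (p : Fin A.v × Fin A.v)
    (hp : p ∈ A.adj) :
    ∫ q in A.B p.1 ∩ A.B p.2, dist2 (β.Q p.1 q * U p.1) (β.Q p.2 q * U p.2) ∂A.μ ≤
      2 * (A.C * e) + 2 * A.μ.real Set.univ * dist2 (β.P p * U p.1) (U p.2) := by
  have hs : MeasurableSet (A.B p.1 ∩ A.B p.2) := (A.meas_B _).inter (A.meas_B _)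
  have n1 : FinNice fun q => dist2 (β.Q p.1 q * U p.1) (β.Q p.2 q * U p.2) :=
    FinNice.dist2 (fin_QU β U p.1) (fin_QU β U p.2)
  have n2 : FinNice fun q => dist2 (β.Q p.1 q) (β.Q p.2 q * β.P p) :=
    FinNice.dist2 (fin_Q β p.1) (FinNice.umul (fin_Q β p.2) (FinNice.uconst (β.P p)))
  have h1 : ∫ q in A.B p.1 ∩ A.B p.2, dist2 (β.Q p.1 q * U p.1) (β.Q p.2 q * U p.2) ∂A.μ ≤
      ∫ q in A.B p.1 ∩ A.B p.2, (2 * dist2 (β.Q p.1 q) (β.Q p.2 q * β.P p) +
        2 * dist2 (β.P p * U p.1) (U p.2)) ∂A.μ := by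
    refine integral_mono ((n1.int A.μ).restrict) ?_ fun q => dist2_glue _ _ _ _ _
    exact (((n2.int A.μ).restrict).const_mul 2).add (integrable_const _)
  refine h1.trans ?_
  rw [integral_add (((n2.int A.μ).restrict).const_mul 2) (integrable_const _),
    integral_const_mul, integral_const]
  have h2 := β.radial p hp
  have h3 : (A.μ.restrict (A.B p.1 ∩ A.B p.2)).real Set.univ ≤ A.μ.real Set.univ := by
    rw [measureReal_restrict_apply_univ]
    exact measureReal_mono (Set.subset_univ _)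
  have h4 : 0 ≤ 2 * dist2 (β.P p * U p.1) (U p.2) := by
    have := fin_dist2_nonneg (β.P p * U p.1) (U p.2)
    linarith
  have h5 := mul_le_mul_of_nonneg_right h3 h4
  rw [smul_eq_mul]
  nlinarith

/-- the energy of the derivative of `T` -/
private theorem fin_deriv {K : ℝ} (hK : 0 ≤ K) (U : Fin A.v → Matrix.unitaryGroup (Fin R) ℂ)
    (hU : ∀ q, ∑ l, hs (A.dT β.Q β.dQ U l q) ≤
      K * (∑ p ∈ A.adj, (A.B p.1 ∩ A.B p.2).indicator
          (fun q => dist2 (β.Q p.1 q * U p.1) (β.Q p.2 q * U p.2)) q +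
        ∑ a, (A.B a).indicator (fun q => ∑ l, hs (β.dQ a l q)) q)) :
    ∫ q, ∑ l, hs (A.dT β.Q β.dQ U l q) ∂A.μ ≤ K * (∑ p ∈ A.adj,
      ∫ q in A.B p.1 ∩ A.B p.2, dist2 (β.Q p.1 q * U p.1) (β.Q p.2 q * U p.2) ∂A.μ +
        A.v * (A.C * e)) := by
  have n0 : FinNice fun q => ∑ l, hs (A.dT β.Q β.dQ U l q) :=
    FinNice.sum _ fun l _ => FinNice.hs (fin_dT β U l)
  have n1 : ∀ p : Fin A.v × Fin A.v, FinNice fun q => (A.B p.1 ∩ A.B p.2).indicator
      (fun q => dist2 (β.Q p.1 q * U p.1) (β.Q p.2 q * U p.2)) q := fun p =>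
    FinNice.ind (FinNice.dist2 (fin_QU β U p.1) (fin_QU β U p.2))
      ((A.meas_B _).inter (A.meas_B _))
  have n2 : ∀ a : Fin A.v, FinNice fun q => (A.B a).indicator (fun q => ∑ l, hs (β.dQ a l q)) q :=
    fun a => FinNice.ind (FinNice.sum _ fun l _ => FinNice.hs (fin_dQ β a l)) (A.meas_B a)
  have n3 := FinNice.sum A.adj fun p (_ : p ∈ A.adj) => n1 p
  have n4 := FinNice.sum Finset.univ fun a (_ : a ∈ Finset.univ) => n2 a
  refine (integral_mono (n0.int A.μ) (((n3.int A.μ).add (n4.int A.μ)).const_mul K) hU).trans ?_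
  rw [integral_const_mul]
  refine mul_le_mul_of_nonneg_left ?_ hK
  have h1 := integral_add (n3.int A.μ) (n4.int A.μ)
  simp only [Pi.add_apply] at h1 ⊢
  rw [h1, integral_finsetSum _ fun p _ => (n1 p).int A.μ,
    integral_finsetSum _ fun a _ => (n2 a).int A.μ]
  refine add_le_add (Finset.sum_le_sum fun p _ => ?_) ?_
  · exact (integral_indicator ((A.meas_B _).inter (A.meas_B _))).le
  · refine (Finset.sum_le_sum fun a _ =>
      ((integral_indicator (A.meas_B a)).le.trans (β.deriv a))).trans ?_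
    simp

end

/-- the number of sections of `E ⊗ K_S` (final step, from P1 to P6 and `Atlas.loops`) -/
theorem Atlas.sections_le (A : Atlas) :
    ∃ K : ℝ, 0 < K ∧ ∀ (R k : ℕ) (e : ℝ), Bundle A R k e → (k : ℝ) ≤ R * A.pg + K * e := by
  obtain ⟨M, hM, hloops⟩ := A.loops
  obtain ⟨K₄, hK₄, hdT⟩ := A.dT_le
  set m : ℝ := A.μ.real Set.univ with hm
  have hm0 : 0 ≤ m := measureReal_nonneg
  set Y : ℝ := (2 * (A.adj.card : ℝ) + 2 * m * M) * A.C with hY
  have hC := A.C_pos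
  have hb := A.b_pos
  have hl := A.lam_pos
  have hY0 : 0 ≤ Y := by positivity
  refine ⟨A.b * (K₄ * (Y + A.v * A.C)) / A.lam + A.b / 2 * Y + 1, by positivity, ?_⟩
  intro R k e β
  have he : 0 ≤ e := by
    have h1 : 0 ≤ A.C * e := le_trans
      (Finset.sum_nonneg fun t _ => fin_dist2_nonneg _ _) β.hol
    exact nonneg_of_mul_nonneg_right h1 hC
  obtain ⟨U, hU⟩ := hloops R β.P
  -- the distances
  set X : ℝ := ∑ p ∈ A.adj, ∫ q in A.B p.1 ∩ A.B p.2,
    dist2 (β.Q p.1 q * U p.1) (β.Q p.2 q * U p.2) ∂A.μ with hX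
  have hXle : X ≤ Y * e := by
    have h1 : X ≤ ∑ p ∈ A.adj, (2 * (A.C * e) + 2 * m * dist2 (β.P p * U p.1) (U p.2)) :=
      Finset.sum_le_sum fun p hp => fin_pair β U p hp
    rw [Finset.sum_add_distrib, Finset.sum_const, nsmul_eq_mul, ← Finset.mul_sum] at h1
    have h2 : ∑ p ∈ A.adj, dist2 (β.P p * U p.1) (U p.2) ≤ M * (A.C * e) :=
      hU.trans (mul_le_mul_of_nonneg_left β.hol hM)
    have h3 : 2 * m * ∑ p ∈ A.adj, dist2 (β.P p * U p.1) (U p.2) ≤ 2 * m * (M * (A.C * e)) :=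
      mul_le_mul_of_nonneg_left h2 (by positivity)
    rw [hY]
    nlinarith
  have hD := fin_deriv β hK₄ U (fun q => hdT R β.Q β.dQ U q)
  rw [← hX] at hD
  set D : ℝ := ∫ q, ∑ l, hs (A.dT β.Q β.dQ U l q) ∂A.μ with hDdef
  -- niceness
  have nf : ∀ (i : Fin k) (s : Fin R), FinNice fun q =>
      ‖pair (fun r => A.T β.Q U q r s) (β.u i q)‖ ^ 2 := fun i s =>
    (FinNice.pair (fun r => fin_T β U r s) (fin_u β i)).sq
  have ng : ∀ (i : Fin k) (s : Fin R) (l : Fin 2), FinNice fun q =>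
      ‖pair (fun r => A.dT β.Q β.dQ U l q r s) (β.u i q)‖ ^ 2 := fun i s l =>
    (FinNice.pair (fun r => fin_dT β U l r s) (fin_u β i)).sq
  have nu : ∀ i : Fin k, FinNice fun q => ∑ r, ‖β.u i q r‖ ^ 2 := fun i =>
    FinNice.sum _ fun r _ => (fin_u β i r).sq
  have nind : ∀ p : Fin A.v × Fin A.v, FinNice fun q => (A.B p.1 ∩ A.B p.2).indicator
      (fun q => dist2 (β.Q p.1 q * U p.1) (β.Q p.2 q * U p.2)) q := fun p =>
    FinNice.ind (FinNice.dist2 (fin_QU β U p.1) (fin_QU β U p.2))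
      ((A.meas_B _).inter (A.meas_B _))
  -- the integrated inequality
  have h1 : (k : ℝ) = ∫ q, ∑ i, ∑ r, ‖β.u i q r‖ ^ 2 ∂A.μ := by
    rw [integral_finsetSum _ fun i _ => (nu i).int A.μ, Finset.sum_congr rfl fun i _ => fin_norm β i]
    simp
  have n1 : FinNice fun q => ∑ i, ∑ r, ‖β.u i q r‖ ^ 2 := FinNice.sum _ fun i _ => nu i
  have n2 : FinNice fun q => ∑ i, ∑ s, ‖pair (fun r => A.T β.Q U q r s) (β.u i q)‖ ^ 2 :=
    FinNice.sum _ fun i _ => FinNice.sum _ fun s _ => nf i s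
  have n3 : FinNice fun q => ∑ p ∈ A.adj, (A.B p.1 ∩ A.B p.2).indicator
      (fun q => dist2 (β.Q p.1 q * U p.1) (β.Q p.2 q * U p.2)) q :=
    FinNice.sum _ fun p _ => nind p
  have h2 : (k : ℝ) ≤ ∑ i, ∑ s, ∫ q, ‖pair (fun r => A.T β.Q U q r s) (β.u i q)‖ ^ 2 ∂A.μ +
      A.b / 2 * X := by
    rw [h1]
    refine (integral_mono (n1.int A.μ) ((n2.int A.μ).add ((n3.int A.μ).const_mul _))
      fun q => fin_point β U q).trans ?_
    have h3 := integral_add (n2.int A.μ) ((n3.int A.μ).const_mul (A.b / 2))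
    simp only [Pi.add_apply] at h3 ⊢
    rw [h3, integral_const_mul, integral_finsetSum _ fun p _ => (nind p).int A.μ,
      integral_finsetSum _ fun i _ => (FinNice.sum _ fun s _ => nf i s).int A.μ]
    refine add_le_add (le_of_eq (Finset.sum_congr rfl fun i _ =>
      integral_finsetSum _ fun s _ => (nf i s).int A.μ)) ?_
    refine mul_le_mul_of_nonneg_left (le_of_eq (Finset.sum_congr rfl fun p _ => ?_)) (by positivity)
    exact integral_indicator ((A.meas_B _).inter (A.meas_B _))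
  -- the spectral gap
  have h4 : ∑ i, ∑ s, ∫ q, ‖pair (fun r => A.T β.Q U q r s) (β.u i q)‖ ^ 2 ∂A.μ ≤
      ∑ i, ∑ s, ∑ j, ‖∫ q, star (A.ω j q) * pair (fun r => A.T β.Q U q r s) (β.u i q) ∂A.μ‖ ^ 2 +
        (∑ i, ∑ s, ∫ q, ∑ l, ‖pair (fun r => A.dT β.Q β.dQ U l q r s) (β.u i q)‖ ^ 2 ∂A.μ) /
          A.lam := by
    rw [Finset.sum_div, ← Finset.sum_add_distrib]
    refine Finset.sum_le_sum fun i _ => ?_
    rw [Finset.sum_div, ← Finset.sum_add_distrib]
    exact Finset.sum_le_sum fun s _ => β.gap U i s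
  have h5 : ∑ i, ∑ s, ∑ j, ‖∫ q, star (A.ω j q) * pair (fun r => A.T β.Q U q r s)
      (β.u i q) ∂A.μ‖ ^ 2 ≤ R * A.pg := by
    rw [Finset.sum_comm]
    calc _ = ∑ s, ∑ j, ∑ i, ‖∫ q, star (A.ω j q) * pair (fun r => A.T β.Q U q r s)
          (β.u i q) ∂A.μ‖ ^ 2 := Finset.sum_congr rfl fun s _ => Finset.sum_comm
      _ ≤ ∑ s : Fin R, ∑ j : Fin A.pg, (1 : ℝ) :=
          Finset.sum_le_sum fun s _ => Finset.sum_le_sum fun j _ => fin_bessel β U s j
      _ = R * A.pg := by simp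
  have h6 : ∑ i, ∑ s, ∫ q, ∑ l, ‖pair (fun r => A.dT β.Q β.dQ U l q r s) (β.u i q)‖ ^ 2 ∂A.μ ≤
      A.b * D := by
    have h7 : ∑ i, ∑ s, ∫ q, ∑ l, ‖pair (fun r => A.dT β.Q β.dQ U l q r s) (β.u i q)‖ ^ 2 ∂A.μ =
        ∫ q, ∑ l, ∑ i, ∑ s, ‖pair (fun r => A.dT β.Q β.dQ U l q r s) (β.u i q)‖ ^ 2 ∂A.μ := by
      rw [← Finset.sum_congr rfl fun i _ => integral_finsetSum _ fun s _ =>
          (FinNice.sum Finset.univ fun l _ => ng i s l).int A.μ,
        ← integral_finsetSum _ fun i _ => (FinNice.sum Finset.univ fun s _ =>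
          FinNice.sum Finset.univ fun l _ => ng i s l).int A.μ]
      congr 1
      funext q
      calc ∑ i, ∑ s, ∑ l, ‖pair (fun r => A.dT β.Q β.dQ U l q r s) (β.u i q)‖ ^ 2 =
          ∑ i, ∑ l, ∑ s, ‖pair (fun r => A.dT β.Q β.dQ U l q r s) (β.u i q)‖ ^ 2 :=
            Finset.sum_congr rfl fun i _ => Finset.sum_comm
        _ = _ := Finset.sum_comm
    rw [h7, hDdef, ← integral_const_mul]
    refine integral_mono ((FinNice.sum _ fun l _ => FinNice.sum _ fun i _ => FinNice.sum _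
      fun s _ => ng i s l).int A.μ)
      (((FinNice.sum _ fun l _ => FinNice.hs (fin_dT β U l)).int A.μ).const_mul _) fun q => ?_
    simp only
    rw [Finset.mul_sum]
    exact Finset.sum_le_sum fun l _ => β.bergman_hs q _
  have h8 : A.b * D ≤ A.b * (K₄ * (Y * e + A.v * (A.C * e))) := by
    refine mul_le_mul_of_nonneg_left (hD.trans (mul_le_mul_of_nonneg_left ?_ hK₄)) hb.le
    linarith
  have h9 : (∑ i, ∑ s, ∫ q, ∑ l, ‖pair (fun r => A.dT β.Q β.dQ U l q r s)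
      (β.u i q)‖ ^ 2 ∂A.μ) / A.lam ≤ A.b * (K₄ * (Y * e + A.v * (A.C * e))) / A.lam :=
    div_le_div_of_nonneg_right (h6.trans h8) hl.le
  have h10 : A.b / 2 * X ≤ A.b / 2 * (Y * e) := mul_le_mul_of_nonneg_left hXle (by positivity)
  have h11 : A.b * (K₄ * (Y * e + A.v * (A.C * e))) / A.lam =
      A.b * (K₄ * (Y + A.v * A.C)) / A.lam * e := by ring
  rw [h11] at h9
  nlinarith

end Pool.Agent.H76.V
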