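import Pool.Agent.H76.V.Atlas

/-!
# Unitary bundles with chosen centres of the balls (MP_5ee2d0, Theorem V, step 1)
-/

namespace Pool.Agent.H76.V

open MeasureTheory

/-- A holomorphic vector bundle `E` of rank `R` on `S` with a unitary connection whose curvature `F`
is orthogonal to the Kähler form and has energy `∫ |F|^2` at most `e` times a constant, with a
unitary frame at every point; `k` is the dimension of `H^0(S, E ⊗ K_S)`. The centres of the balls are
chosen (for the given bundle) such that the sum of the energies in `hol`, `radial` and `deriv` is at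
most as large as its mean over all choices of centres. -/
structure Bundle (A : Atlas) (R k : ℕ) (e : ℝ) where
  /-- an orthonormal basis of `H^0(S, E ⊗ K_S)` -/
  u : Fin k → A.Ω → Fin R → ℂ
  meas_u : ∀ i r, Measurable fun q => u i q r
  bdd_u : ∃ M, ∀ i q r, ‖u i q r‖ ≤ M
  orth : ∀ i i', ∫ q, pair (u i q) (u i' q) ∂A.μ = if i = i' then 1 else 0
  /-- Weitzenböck and Moser: `sup |u|^2 ≤ b ‖u‖^2` for all holomorphic sections, so the Bergman kernel
  is bounded by `b` -/
  bergman : ∀ q w, ∑ i, ‖pair w (u i q)‖ ^ 2 ≤ A.b * ∑ r, ‖w r‖ ^ 2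
  /-- parallel transport from the centre of one ball to that of another ball (the identity if they are
  far apart) -/
  P : Fin A.v × Fin A.v → Matrix.unitaryGroup (Fin R) ℂ
  /-- parallel transport from the centre of a ball to a point of the ball -/
  Q : Fin A.v → A.Ω → Matrix.unitaryGroup (Fin R) ℂ
  meas_Q : ∀ a r s, Measurable fun q => (Q a q : Matrix (Fin R) (Fin R) ℂ) r s
  /-- the `(1,0)`-part of its covariant derivative -/
  dQ : Fin A.v → Fin 2 → A.Ω → Matrix (Fin R) (Fin R) ℂ
  meas_dQ : ∀ a l r s, Measurable fun q => dQ a l q r s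
  bdd_dQ : ∃ M, ∀ a l q r s, ‖dQ a l q r s‖ ≤ M
  /-- Stokes: the holonomy of a geodesic triangle differs from the identity at most by the integral of
  `|F|` over the triangle; so for random centres the mean of the square is bounded by the energy -/
  hol : ∑ t ∈ A.tri, dist2 ((P (t.1, t.2.2))⁻¹ * P (t.2.1, t.2.2) * P (t.1, t.2.1)) 1 ≤ A.C * e
  radial : ∀ p ∈ A.adj, ∫ q in A.B p.1 ∩ A.B p.2, dist2 (Q p.1 q) (Q p.2 q * P p) ∂A.μ ≤ A.C * e
  /-- the derivative of the radial parallel transport is an integral of `F` over the radius -/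
  deriv : ∀ a, ∫ q in A.B a, ∑ l, hs (dQ a l q) ∂A.μ ≤ A.C * e
  /-- Spectral gap for the sections `f = ⟨T e_s, u_i⟩` of `K_S`. By the Leibniz rule the derivative of
  `f` is `⟨dT e_s, u_i⟩`, since `u_i` is holomorphic. -/
  gap : ∀ (U : Fin A.v → Matrix.unitaryGroup (Fin R) ℂ) (i : Fin k) (s : Fin R),
    ∫ q, ‖pair (fun r => A.T Q U q r s) (u i q)‖ ^ 2 ∂A.μ ≤
      ∑ j, ‖∫ q, star (A.ω j q) * pair (fun r => A.T Q U q r s) (u i q) ∂A.μ‖ ^ 2 +
        (∫ q, ∑ l, ‖pair (fun r => A.dT Q dQ U l q r s) (u i q)‖ ^ 2 ∂A.μ) / A.lam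

end Pool.Agent.H76.V
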