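import Pool.Agent.H76.V.Centres
import Pool.Agent.H76.V.Bundle

/-!
# Choice of the centres (MP_5ee2d0, Theorem V, step 1)
-/

namespace Pool.Agent.H76.V

open MeasureTheory
open scoped ENNReal

/-- from the lower integral to the integral -/
private theorem integral_le_of_lintegral {Ω : Type} [MeasurableSpace Ω] {μ : Measure Ω} {f : Ω → ℝ}
    (hf : ∀ q, 0 ≤ f q) {c : ℝ} (hc : 0 ≤ c)
    (h : ∫⁻ q, ENNReal.ofReal (f q) ∂μ ≤ ENNReal.ofReal c) : ∫ q, f q ∂μ ≤ c := by
  by_cases hm : AEStronglyMeasurable f μ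
  · rw [integral_eq_lintegral_of_nonneg_ae (Filter.Eventually.of_forall hf) hm]
    exact ENNReal.toReal_le_of_le_ofReal hc h
  · rw [integral_non_aestronglyMeasurable hm]
    exact hc

private theorem hs_nonneg' {R : ℕ} (Z : Matrix (Fin R) (Fin R) ℂ) : 0 ≤ hs Z :=
  Finset.sum_nonneg fun _ _ => Finset.sum_nonneg fun _ _ => by positivity

private theorem dist2_nonneg' {R : ℕ} (V W : Matrix.unitaryGroup (Fin R) ℂ) : 0 ≤ dist2 V W :=
  hs_nonneg' _

/-- some choice of the centres is not worse than the mean of all choices -/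
theorem Connection.bundle {A : Atlas} {Z : Centres A} {R k : ℕ} {e : ℝ}
    (c : Connection A Z R k e) : Nonempty (Bundle A R k e) := by
  classical
  -- the three kinds of energies
  let f1 : Fin A.v × Fin A.v × Fin A.v → Z.Θ → ℝ≥0∞ := fun t θ => ∫⁻ x, c.en (Z.tri t (θ, x)) ∂Z.σ
  let f2 : Fin A.v × Fin A.v → Z.Θ → ℝ≥0∞ := fun p θ =>
    ∫⁻ q in A.B p.1 ∩ A.B p.2, ∫⁻ x, c.en (Z.cone p ((θ, q), x)) ∂Z.σ ∂A.μ
  let f3 : Fin A.v → Z.Θ → ℝ≥0∞ := fun a θ =>
    ∫⁻ q in A.B a, ∫⁻ x, c.en (Z.radius a ((θ, q), x)) ∂Z.σ ∂A.μ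
  have g1 : ∀ t, Measurable fun y => c.en (Z.tri t y) := fun t => c.meas_en.comp (Z.meas_tri t)
  have g2 : ∀ p, Measurable fun y => c.en (Z.cone p y) := fun p => c.meas_en.comp (Z.meas_cone p)
  have g3 : ∀ a, Measurable fun y => c.en (Z.radius a y) := fun a =>
    c.meas_en.comp (Z.meas_radius a)
  have m1 : ∀ t, Measurable (f1 t) := fun t => (g1 t).lintegral_prod_right'
  have m2 : ∀ p, Measurable (f2 p) := fun p => (g2 p).lintegral_prod_right'.lintegral_prod_right'
  have m3 : ∀ a, Measurable (f3 a) := fun a => (g3 a).lintegral_prod_right'.lintegral_prod_right'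
  set N : ℝ≥0∞ := ENNReal.ofReal Z.D * ENNReal.ofReal (Z.D * e) with hN
  have key : ∀ {Y : Type} [MeasurableSpace Y] (m : Measure Y) (g : Y → A.Ω), Measurable g →
      m.map g ≤ ENNReal.ofReal Z.D • A.μ → ∫⁻ y, c.en (g y) ∂m ≤ N := by
    intro Y _ m g hg hle
    rw [← lintegral_map c.meas_en hg]
    refine (lintegral_mono' hle le_rfl).trans ?_
    rw [lintegral_smul_measure, smul_eq_mul]
    exact mul_le_mul' le_rfl c.energy
  have i1 : ∀ t ∈ A.tri, ∫⁻ θ, f1 t θ ∂Z.ν ≤ N := by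
    intro t ht
    have h1 := key _ _ (Z.meas_tri t) (Z.dens_tri t ht)
    rwa [lintegral_prod _ (g1 t).aemeasurable] at h1
  have i2 : ∀ p ∈ A.adj, ∫⁻ θ, f2 p θ ∂Z.ν ≤ N := by
    intro p hp
    have h1 := key _ _ (Z.meas_cone p) (Z.dens_cone p hp)
    rwa [lintegral_prod _ (g2 p).aemeasurable,
      lintegral_prod _ (g2 p).lintegral_prod_right'.aemeasurable] at h1
  have i3 : ∀ a, ∫⁻ θ, f3 a θ ∂Z.ν ≤ N := by
    intro a
    have h1 := key _ _ (Z.meas_radius a) (Z.dens_radius a)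
    rwa [lintegral_prod _ (g3 a).aemeasurable,
      lintegral_prod _ (g3 a).lintegral_prod_right'.aemeasurable] at h1
  let Φ : Z.Θ → ℝ≥0∞ := fun θ => ∑ t ∈ A.tri, f1 t θ + ∑ p ∈ A.adj, f2 p θ + ∑ a, f3 a θ
  have hΦ : Measurable Φ :=
    ((Finset.measurable_fun_sum _ fun t _ => m1 t).add
      (Finset.measurable_fun_sum _ fun p _ => m2 p)).add
      (Finset.measurable_fun_sum _ fun a _ => m3 a)
  obtain ⟨θ, hθ⟩ := exists_le_lintegral (μ := Z.ν) hΦ.aemeasurable
  have hΦN : Φ θ ≤ ((A.tri.card + A.adj.card + A.v : ℕ) : ℝ≥0∞) * N := by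
    refine hθ.trans ?_
    have h1 : ∫⁻ θ, Φ θ ∂Z.ν = ∑ t ∈ A.tri, ∫⁻ θ, f1 t θ ∂Z.ν + ∑ p ∈ A.adj, ∫⁻ θ, f2 p θ ∂Z.ν +
        ∑ a, ∫⁻ θ, f3 a θ ∂Z.ν := by
      simp only [Φ]
      rw [lintegral_add_right _ (Finset.measurable_fun_sum _ fun a _ => m3 a),
        lintegral_add_right _ (Finset.measurable_fun_sum _ fun p _ => m2 p),
        lintegral_finsetSum _ fun t _ => m1 t, lintegral_finsetSum _ fun p _ => m2 p,
        lintegral_finsetSum _ fun a _ => m3 a]
    rw [h1]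
    push_cast
    rw [add_mul, add_mul]
    refine add_le_add (add_le_add ?_ ?_) ?_
    · rw [← nsmul_eq_mul]
      exact Finset.sum_le_card_nsmul _ _ _ i1
    · rw [← nsmul_eq_mul]
      exact Finset.sum_le_card_nsmul _ _ _ i2
    · rw [← nsmul_eq_mul]
      refine (Finset.sum_le_card_nsmul _ _ _ fun a _ => i3 a).trans ?_
      rw [Finset.card_univ, Fintype.card_fin]
  have he := c.e_nonneg
  have hD := Z.D_nonneg
  have hCe : 0 ≤ A.C * e := mul_nonneg A.C_pos.le he
  have hfin : ENNReal.ofReal Z.D * Φ θ ≤ ENNReal.ofReal (A.C * e) := by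
    calc ENNReal.ofReal Z.D * Φ θ
        ≤ ENNReal.ofReal Z.D * (((A.tri.card + A.adj.card + A.v : ℕ) : ℝ≥0∞) * N) := by gcongr
      _ = ENNReal.ofReal (Z.D * ((A.tri.card + A.adj.card + A.v) * (Z.D * Z.D)) * e) := by
          rw [hN, ← ENNReal.ofReal_natCast, ← ENNReal.ofReal_mul hD,
            ← ENNReal.ofReal_mul (by positivity), ← ENNReal.ofReal_mul hD]
          congr 1
          push_cast
          ring
      _ ≤ ENNReal.ofReal (A.C * e) :=
          ENNReal.ofReal_le_ofReal (mul_le_mul_of_nonneg_right Z.large he)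
  refine ⟨{
    u := c.u
    meas_u := c.meas_u
    bdd_u := c.bdd_u
    orth := c.orth
    bergman := c.bergman
    P := c.P θ
    Q := c.Q θ
    meas_Q := c.meas_Q θ
    dQ := c.dQ θ
    meas_dQ := c.meas_dQ θ
    bdd_dQ := c.bdd_dQ θ
    hol := ?_
    radial := ?_
    deriv := ?_
    gap := c.gap θ }⟩
  · have h1 : ENNReal.ofReal (∑ t ∈ A.tri, dist2 ((c.P θ (t.1, t.2.2))⁻¹ * c.P θ (t.2.1, t.2.2) *
        c.P θ (t.1, t.2.1)) 1) ≤ ENNReal.ofReal (A.C * e) := by
      rw [ENNReal.ofReal_sum_of_nonneg fun t _ => dist2_nonneg' _ _]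
      refine (Finset.sum_le_sum fun t ht => c.hol θ t ht).trans ?_
      rw [← Finset.mul_sum]
      refine le_trans ?_ hfin
      gcongr
      exact le_add_right (le_add_right le_rfl)
    exact (ENNReal.ofReal_le_ofReal_iff hCe).1 h1
  · intro p hp
    refine integral_le_of_lintegral (fun q => dist2_nonneg' _ _) hCe ?_
    refine (setLIntegral_mono' ((A.meas_B _).inter (A.meas_B _))
      fun q hq => c.holQ θ p hp q hq).trans ?_
    rw [lintegral_const_mul' _ _ ENNReal.ofReal_ne_top]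
    refine le_trans ?_ hfin
    gcongr
    refine le_trans ?_ (le_add_right (le_add_left (le_refl (∑ p ∈ A.adj, f2 p θ))))
    exact Finset.single_le_sum (f := fun p => f2 p θ) (fun _ _ => zero_le) hp
  · intro a
    refine integral_le_of_lintegral
      (fun q => Finset.sum_nonneg fun l _ => hs_nonneg' _) hCe ?_
    refine (setLIntegral_mono' (A.meas_B _) fun q hq => c.deriv θ a q hq).trans ?_
    rw [lintegral_const_mul' _ _ ENNReal.ofReal_ne_top]
    refine le_trans ?_ hfin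
    gcongr
    refine le_trans ?_ (le_add_left (le_refl (∑ a, f3 a θ)))
    exact Finset.single_le_sum (f := fun a => f3 a θ) (fun _ _ => zero_le) (Finset.mem_univ a)

end Pool.Agent.H76.V
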