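import Pool.Agent.H76.V.Defs
import Pool.Agent.H76.V.Mean
import Pool.Agent.H76.V.Final

/-!
# A Bogomolov inequality which grows with the rank (MP_5ee2d0, Theorem V, step 1)
-/

namespace Pool.Agent.H76.V

/-- few integers in far windows -/
def Sparse (Bad : ℤ → Prop) : Prop :=
  ∃ n₀ : ℕ, ∀ w : ℤ, ∃ β : ℤ, ∀ b₀, β ≤ b₀ → ∀ B : Finset ℤ,
    (∀ b ∈ B, Bad b ∧ b₀ ≤ b ∧ b ≤ b₀ + w) → B.card < n₀

/-- the discriminant of a stable sheaf grows with the rank -/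
theorem Surface.bogomolov {G Sf : Type} [AddCommGroup G] (S : Surface G Sf) :
    ∃ c : ℝ, 0 < c ∧ ∀ F, S.Stable F → c * ((S.rk F : ℝ) ^ 2 - 1) ≤
      (S.I (S.c1 F) (S.c1 F) - S.rk F * S.ch F : ℤ) := by
  obtain ⟨K, hK, hB⟩ := S.A.sections_le
  refine ⟨1 / (1 + K), by positivity, fun F hF => ?_⟩
  obtain ⟨k, hk, ⟨b⟩⟩ := S.hermite F hF
  obtain ⟨B⟩ := b.bundle
  have h1 := hB _ _ _ B
  obtain ⟨Δ, hΔ⟩ : ∃ Δ : ℤ, Δ = S.I (S.c1 F) (S.c1 F) - S.rk F * S.ch F := ⟨_, rfl⟩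
  rw [← hΔ] at hk h1 ⊢
  have h2 : ((S.rk F : ℝ)) ^ 2 * (1 + S.A.pg) - Δ - 1 ≤ k := by exact_mod_cast hk
  push_cast at h1
  rw [div_mul_eq_mul_div, one_mul, div_le_iff₀ (by positivity)]
  linarith

/-- `H^1(S, O(k N₀)) = 0` for `k < 0` -/
theorem Surface.l1_neg {G Sf : Type} [AddCommGroup G] (S : Surface G Sf) (k : ℤ) (hk : k < 0) :
    S.l1 k = 0 := by
  by_contra hne
  obtain ⟨j, rfl⟩ : ∃ j, k = -j := ⟨-k, by ring⟩
  have hj : 0 < j := by linarith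
  obtain ⟨c, hc, hS⟩ := S.bogomolov
  rcases S.ext j hj hne with ⟨F, h1, h2, h3, h4⟩ | ⟨Z, h1, h2, h3, h4⟩
  · have h5 := hS F h1
    rw [h2, h3, h4] at h5
    simp only [map_smul, LinearMap.smul_apply, S.sq, smul_zero, mul_zero, sub_zero] at h5
    norm_num at h5
    linarith
  · obtain ⟨p, hp⟩ : ∃ p, p = S.I Z S.N₀ := ⟨_, rfl⟩
    have hp0 : 0 ≤ p := by rw [hp]; exact S.eff_nef Z h1
    have e1 := S.hodge Z
    rw [← hp] at e1
    simp only [map_smul, map_sub, LinearMap.sub_apply, LinearMap.smul_apply, smul_eq_mul] at h3 h4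
    rw [S.symm S.N₀ Z, ← hp] at h4
    have ht := S.pos
    have hh := S.pos_h
    obtain ⟨t, ht'⟩ : ∃ t, t = S.I S.N₀ S.h := ⟨_, rfl⟩
    obtain ⟨q, hq⟩ : ∃ q, q = S.I Z S.h := ⟨_, rfl⟩
    rw [← ht'] at e1 h3 ht
    rw [← hq] at e1 h3
    have e2 : t ^ 2 * (j * p) ≤ t ^ 2 * S.I Z Z :=
      mul_le_mul_of_nonneg_left (by linarith) (sq_nonneg t)
    have e3 : 2 * t * (p * q) ≤ t ^ 2 * (j * p) := by
      have := mul_le_mul_of_nonneg_left h3 (mul_nonneg ht.le hp0)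
      nlinarith
    have e4 : p ^ 2 * S.I S.h S.h ≤ 0 := by linarith
    have e5 : p = 0 := by
      by_contra hcon
      have : 0 < p ^ 2 := by positivity
      nlinarith
    rw [e5] at e1 e2 h4 hp
    have e6 : S.I Z Z = 0 := by
      have a1 : t ^ 2 * S.I Z Z ≤ 0 := by linarith
      have a2 : 0 ≤ S.I Z Z := by linarith
      have a3 : 0 < t ^ 2 := by positivity
      nlinarith
    obtain ⟨k, hk'⟩ := S.prim Z hp.symm e6
    have e7 : k = 0 := by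
      by_contra hcon
      exact S.eff_l0 k (hk' ▸ h1) (S.l0_ne k hcon)
    exact h2 (by rw [hk', e7, zero_smul])

end Pool.Agent.H76.V
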