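import Pool.Agent.H76.V.Defs

/-!
# Subsheaves of degree zero of extensions (MP_5ee2d0, Theorem V, step 2)
-/

namespace Pool.Agent.H76.V

namespace Extension

variable {G Sf : Type} [AddCommGroup G] {S : Surface G Sf} {d : ℤ} {g : ℕ} {c : G} {ch : ℤ}
  {B : Finset ℤ} (X : Extension S d g c ch B)

/-- the sum of the `O(-b N)`, `b` in `B'` -/
def part (B' : Finset ℤ) : Submodule X.K X.E := Submodule.span X.K (X.v '' B')

/-- the degree for `N₀` -/
def deg (W : Submodule X.K X.E) : ℤ := S.I (X.cl W) S.N₀

lemma deg_part {B' : Finset ℤ} (h : B' ⊆ B) : X.deg (X.part B') = 0 := by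
  unfold deg part
  rw [X.cl_sum B' h, map_smul, LinearMap.smul_apply, S.sq, smul_zero]

lemma part_mono {B' B'' : Finset ℤ} (h : B' ⊆ B'') : X.part B' ≤ X.part B'' :=
  Submodule.span_mono (Set.image_mono (by exact_mod_cast h))

lemma part_empty : X.part ∅ = ⊥ := by
  unfold part
  simp

lemma part_union (B' B'' : Finset ℤ) : X.part (B' ∪ B'') = X.part B' ⊔ X.part B'' := by
  unfold part
  rw [Finset.coe_union, Set.image_union, Submodule.span_union]

lemma part_insert (b : ℤ) (B' : Finset ℤ) :
    X.part (insert b B') = Submodule.span X.K {X.v b} ⊔ X.part B' := by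
  unfold part
  rw [Finset.coe_insert, Set.image_insert_eq, Submodule.span_insert]

lemma part_inf {B' B'' : Finset ℤ} (h' : B' ⊆ B) (h'' : B'' ⊆ B) :
    X.part B' ⊓ X.part B'' = X.part (B' ∩ B'') := by
  have key : ∀ C ⊆ B, X.part C = (Finsupp.supported X.K X.K {b : B | b.1 ∈ C}).map
      (Finsupp.linearCombination X.K fun b : B => X.v b) := by
    intro C hC
    rw [← Finsupp.span_image_eq_map_linearCombination]
    unfold part
    congr 1
    ext x
    constructor
    · rintro ⟨b, hb, rfl⟩
      exact ⟨⟨b, hC hb⟩, hb, rfl⟩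
    · rintro ⟨b, hb, rfl⟩
      exact ⟨b.1, hb, rfl⟩
  rw [key B' h', key B'' h'', key (B' ∩ B'') (fun x hx => h' (Finset.mem_inter.1 hx).1),
    ← Submodule.map_inf _ X.indep, ← Finsupp.supported_inter]
  congr 2
  ext b
  simp

lemma finrank_part {B' : Finset ℤ} (h : B' ⊆ B) : Module.finrank X.K (X.part B') = B'.card := by
  have h1 : LinearIndependent X.K fun b : B' => X.v b :=
    X.indep.comp (fun b : B' => (⟨b.1, h b.2⟩ : B)) (fun a b hab =>
      Subtype.ext (congrArg (fun x : B => x.1) hab))
  have h2 := finrank_span_eq_card h1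
  have h3 : Set.range (fun b : B' => X.v b) = X.v '' B' := by
    ext x
    simp
  rw [h3, Fintype.card_coe] at h2
  exact h2

lemma super' (W W' : Submodule X.K X.E) :
    X.deg W + X.deg W' ≤ X.deg (W ⊓ W') + X.deg (W ⊔ W') := X.super W W'

lemma between {b : ℤ} {C : Finset ℤ} (hb : b ∉ C) (h : insert b C ⊆ B)
    (Z : Submodule X.K X.E) (h1 : X.part C ≤ Z) (h2 : Z ≤ X.part (insert b C)) :
    Z = X.part C ∨ Z = X.part (insert b C) := by
  have hC : C ⊆ B := fun x hx => h (Finset.mem_insert_of_mem hx)
  have e1 := X.finrank_part hC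
  have e2 := X.finrank_part h
  rw [Finset.card_insert_of_notMem hb] at e2
  rcases Nat.lt_or_ge C.card (Module.finrank X.K Z) with h3 | h3
  · exact Or.inr (Submodule.eq_of_le_of_finrank_le h2 (by omega))
  · exact Or.inl (Submodule.eq_of_le_of_finrank_le h1 (by omega)).symm

/-- sums of invertible sheaves of degree zero are semistable -/
lemma deg_le_part {B' : Finset ℤ} (h : B' ⊆ B) : ∀ W ≤ X.part B', X.deg W ≤ 0 := by
  classical
  induction B' using Finset.induction_on with
  | empty =>
    intro W hW
    rw [part_empty, le_bot_iff] at hW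
    rw [hW, ← X.part_empty, X.deg_part h]
  | insert b C hb ih =>
    intro W hW
    have hC : C ⊆ B := fun x hx => h (Finset.mem_insert_of_mem hx)
    have h1 := X.super' W (X.part C)
    rw [X.deg_part hC] at h1
    have h2 := ih hC (W ⊓ X.part C) inf_le_right
    have h3 : X.deg (W ⊔ X.part C) ≤ 0 := by
      rcases X.between hb h _ le_sup_right
        (sup_le hW (X.part_mono (Finset.subset_insert _ _))) with h4 | h4
      · rw [h4, X.deg_part hC]
      · rw [h4, X.deg_part h]
    linarith

/-- `E` is semistable for `N` -/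
lemma deg_le (hc : S.I c S.N₀ = 0) (W : Submodule X.K X.E) : X.deg W ≤ 0 := by
  have h1 := X.super' W (X.part B)
  rw [X.deg_part subset_rfl] at h1
  have h2 := X.deg_le_part subset_rfl (W ⊓ X.part B) inf_le_right
  have h3 : X.deg (W ⊔ X.part B) ≤ 0 := by
    have h4 : X.part B ≤ W ⊔ X.part B := le_sup_right
    rcases h4.eq_or_lt with h5 | h5
    · rw [← h5, X.deg_part subset_rfl]
    · rcases (le_top : W ⊔ X.part B ≤ ⊤).eq_or_lt with h6 | h6
      · rw [h6, deg, X.cl_top, map_sub, map_smul, LinearMap.sub_apply, LinearMap.smul_apply, hc,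
          S.sq, smul_zero, sub_zero]
      · exact (X.stable _ h5 h6).le
  linarith

/-- an invertible subsheaf of degree zero of `⊕ O(-b N)` is one of the summands -/
lemma line_part (hd : 0 < d)
    (R : Submodule X.K X.E) (hR : Module.finrank X.K R = 1) (hRB : R ≤ X.part B)
    (h0 : X.deg R = 0) (b b' : ℤ) (hb : b ∈ B) (hb' : b' ∈ B) (h1 : ¬ R ≤ X.part (B.erase b))
    (h2 : ¬ R ≤ X.part (B.erase b')) : b = b' := by
  have e1 := X.proj R hR hRB b hb h1
  have e2 := X.proj R hR hRB b' hb' h2
  have key : ∀ z : ℤ, S.I (-(z * d) • S.N₀ - X.cl R) S.N₀ = 0 := by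
    intro z
    have h0' : S.I (X.cl R) S.N₀ = 0 := h0
    rw [map_sub, map_smul, LinearMap.sub_apply, LinearMap.smul_apply, S.sq, smul_zero, h0',
      sub_zero]
  have h3 := S.eff_neg _ _ ((b' - b) * d) e1 e2 (key b) (key b') (by
    rw [sub_sub_sub_cancel_right, ← sub_smul]
    congr 1
    ring)
  rcases mul_eq_zero.1 h3 with h4 | h4
  · omega
  · omega

/-- subsheaves of degree zero of `⊕ O(-b N)` are partial sums -/
lemma eq_part (hd : 0 < d)
    {B' : Finset ℤ} (h : B' ⊆ B) :
    ∀ W ≤ X.part B', X.deg W = 0 → ∃ C ⊆ B', W = X.part C := by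
  classical
  induction B' using Finset.induction_on with
  | empty =>
    intro W hW _
    rw [part_empty, le_bot_iff] at hW
    exact ⟨∅, subset_rfl, by rw [hW, part_empty]⟩
  | insert b C hb ih =>
    intro W hW h0
    have hC : C ⊆ B := fun x hx => h (Finset.mem_insert_of_mem hx)
    have hbB : b ∈ B := h (Finset.mem_insert_self _ _)
    by_cases hWC : W ≤ X.part C
    · obtain ⟨C', h1, h2⟩ := ih hC W hWC h0
      exact ⟨C', h1.trans (Finset.subset_insert _ _), h2⟩
    · -- the intersection with the smaller sum
      have h1 : X.deg (W ⊓ X.part C) = 0 := by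
        have e1 := X.super' W (X.part C)
        have e2 := X.deg_le_part hC (W ⊓ X.part C) inf_le_right
        have e3 := X.deg_le_part h (W ⊔ X.part C)
          (sup_le hW (X.part_mono (Finset.subset_insert _ _)))
        rw [X.deg_part hC] at e1
        linarith
      obtain ⟨C₁, hC₁, hW₁⟩ := ih hC (W ⊓ X.part C) inf_le_right h1
      -- the complement
      let C₂ := insert b (C \ C₁)
      have hC₂ : C₂ ⊆ insert b C := Finset.insert_subset_insert _ Finset.sdiff_subset
      have hunion : C₁ ∪ C₂ = insert b C := by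
        ext x
        simp only [C₂, Finset.mem_union, Finset.mem_insert, Finset.mem_sdiff]
        constructor
        · rintro (h | h | h)
          · exact Or.inr (hC₁ h)
          · exact Or.inl h
          · exact Or.inr h.1
        · rintro (h | h)
          · exact Or.inr (Or.inl h)
          · by_cases hx : x ∈ C₁
            · exact Or.inl hx
            · exact Or.inr (Or.inr ⟨h, hx⟩)
      have hle : X.part C₁ ≤ W := by
        rw [← hW₁]
        exact inf_le_left
      have hWR : W = X.part C₁ ⊔ W ⊓ X.part C₂ := by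
        rw [inf_comm W, ← sup_inf_assoc_of_le _ hle, ← X.part_union, hunion, inf_eq_right.2 hW]
      set R := W ⊓ X.part C₂ with hRdef
      have hRC : R ⊓ X.part C = ⊥ := by
        have e1 : R ⊓ X.part C ≤ X.part C₁ ⊓ X.part C₂ := by
          rw [← hW₁, hRdef]
          exact le_inf (inf_le_inf_right _ inf_le_left) (inf_le_left.trans inf_le_right)
        rw [X.part_inf (hC₁.trans hC) (hC₂.trans h)] at e1
        have e2 : C₁ ∩ C₂ = ∅ := by
          ext x
          simp only [C₂, Finset.mem_inter, Finset.mem_insert, Finset.mem_sdiff, Finset.notMem_empty,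
            iff_false, not_and, not_or]
          intro hx
          exact ⟨fun h => hb (h ▸ hC₁ hx), fun _ => not_not.2 hx⟩
        rw [e2, part_empty] at e1
        exact le_bot_iff.1 e1
      have hRne : R ≠ ⊥ := by
        intro h
        rw [h, sup_bot_eq] at hWR
        exact hWC (hWR ▸ X.part_mono hC₁)
      have hR1 : Module.finrank X.K R = 1 := by
        have e1 := Submodule.finrank_sup_add_finrank_inf_eq R (X.part C)
        rw [hRC, finrank_bot, add_zero, X.finrank_part hC] at e1
        have e2 : R ⊔ X.part C ≤ X.part (insert b C) :=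
          sup_le (inf_le_left.trans hW) (X.part_mono (Finset.subset_insert _ _))
        have e3 := Submodule.finrank_mono e2
        rw [X.finrank_part h, Finset.card_insert_of_notMem hb] at e3
        have e4 : Module.finrank X.K R ≠ 0 := fun h => hRne (Submodule.finrank_eq_zero.1 h)
        omega
      have hR0 : X.deg R = 0 := by
        have e1 := X.super' W (X.part C₂)
        have e2 := X.deg_le_part h (W ⊓ X.part C₂) (inf_le_left.trans hW)
        have e3 := X.deg_le_part h (W ⊔ X.part C₂) (sup_le hW (X.part_mono hC₂))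
        rw [X.deg_part (hC₂.trans h)] at e1
        rw [hRdef]
        linarith
      have hRB : R ≤ X.part B := (inf_le_left.trans hW).trans (X.part_mono h)
      have hnot : ¬ R ≤ X.part (B.erase b) := by
        intro h1
        have e1 : R ≤ X.part (insert b C) ⊓ X.part (B.erase b) := le_inf (inf_le_left.trans hW) h1
        rw [X.part_inf h (Finset.erase_subset _ _)] at e1
        have e2 : insert b C ∩ B.erase b ⊆ C := by
          intro x hx
          simp only [Finset.mem_inter, Finset.mem_insert, Finset.mem_erase] at hx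
          rcases hx with ⟨rfl | h, h', _⟩
          · exact absurd rfl h'
          · exact h
        have e3 : R ≤ ⊥ := by
          rw [← hRC]
          exact le_inf le_rfl (e1.trans (X.part_mono e2))
        exact hRne (le_bot_iff.1 e3)
      -- the line is contained in all the other coordinate subspaces
      have hone : ∀ D ⊆ B, b ∈ D → (∀ x ∈ D, x ≠ b → R ≤ X.part (B.erase x)) := by
        intro D hD _ x hx hxb
        by_contra hcon
        exact hxb (X.line_part hd R hR1 hRB hR0 x b (hD hx) hbB hcon hnot)
      have hRb : R ≤ X.part {b} := by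
        have key : ∀ D : Finset ℤ, D ⊆ B.erase b → R ≤ X.part (B \ D) := by
          intro D
          induction D using Finset.induction_on with
          | empty => intro _; simpa using hRB
          | insert x D hx ih' =>
            intro hD
            have e1 := ih' ((Finset.subset_insert _ _).trans hD)
            have hxB := hD (Finset.mem_insert_self x D)
            rw [Finset.mem_erase] at hxB
            have e2 := hone B subset_rfl hbB x hxB.2 hxB.1
            have e3 := le_inf e1 e2
            rw [X.part_inf Finset.sdiff_subset (Finset.erase_subset _ _)] at e3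
            refine e3.trans (X.part_mono ?_)
            intro y hy
            simp only [Finset.mem_inter, Finset.mem_sdiff, Finset.mem_erase, Finset.mem_insert,
              not_or] at hy ⊢
            exact ⟨hy.1.1, hy.2.1, hy.1.2⟩
        have e1 := key (B.erase b) subset_rfl
        refine e1.trans (X.part_mono ?_)
        intro y hy
        simp only [Finset.mem_sdiff, Finset.mem_erase, Finset.mem_singleton, not_and] at hy ⊢
        by_contra hne
        exact hy.2 hne hy.1
      have hRb' : R = X.part {b} := by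
        refine Submodule.eq_of_le_of_finrank_le hRb ?_
        rw [hR1, X.finrank_part (by simpa using hbB)]
        simp
      refine ⟨C₁ ∪ {b}, ?_, ?_⟩
      · intro x hx
        simp only [Finset.mem_union, Finset.mem_singleton] at hx
        rcases hx with hx | rfl
        · exact Finset.mem_insert_of_mem (hC₁ hx)
        · exact Finset.mem_insert_self _ _
      · rw [X.part_union, ← hRb', ← hWR]

/-- a saturated subsheaf of degree zero is `E` or a sum of some `O(-b N)` -/
theorem eq_top_or_part (hd : 0 < d) (hc : S.I c S.N₀ = 0)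
    (W : Submodule X.K X.E) (h0 : X.deg W = 0) : W = ⊤ ∨ ∃ C ⊆ B, W = X.part C := by
  classical
  have h1 := X.super' W (X.part B)
  rw [X.deg_part subset_rfl, h0] at h1
  have h2 := X.deg_le hc (W ⊓ X.part B)
  have h3 := X.deg_le hc (W ⊔ X.part B)
  obtain ⟨C, hC, hWC⟩ := X.eq_part hd subset_rfl (W ⊓ X.part B) inf_le_right (by linarith)
  rcases (le_sup_right : X.part B ≤ W ⊔ X.part B).eq_or_lt with h4 | h4
  · -- `W` is contained in the sum
    refine Or.inr ⟨C, hC, ?_⟩
    rw [← hWC, inf_eq_left.2]
    rw [h4]
    exact le_sup_left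
  · rcases (le_top : W ⊔ X.part B ≤ ⊤).eq_or_lt with h5 | h5
    · -- `W` is mapped onto a subsheaf of full rank
      have hCB : C = B := by
        refine Finset.Subset.antisymm hC fun b hb => ?_
        by_contra hbC
        refine X.split W h0 h5 b hb ?_
        change W ⊓ X.part B ≤ X.part (B.erase b)
        rw [hWC]
        refine X.part_mono fun x hx => ?_
        rw [Finset.mem_erase]
        exact ⟨fun h => hbC (h ▸ hx), hC hx⟩
      rw [hCB] at hWC
      have h6 : X.part B ≤ W := by
        rw [← hWC]
        exact inf_le_left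
      exact Or.inl (by rw [← h5, sup_eq_left.2 h6])
    · exact absurd (X.stable _ h4 h5) (by
        have : X.deg (W ⊔ X.part B) = 0 := by linarith
        exact not_lt.2 this.ge)

end Extension

/-- the filtration of the extension -/
theorem Test.ext {G Sf : Type} [AddCommGroup G] {S : Surface G Sf} {Bad : ℤ → Prop}
    (T : Test G Sf S Bad) (B : Finset ℤ) (hB : B.Nonempty) (hbad : ∀ b ∈ B, Bad b) :
    ∃ (m : ℕ) (F : Fin m → Sf) (hE : ℤ → ℕ),
      (∀ i, S.Stable (F i)) ∧ ∑ i, S.rk (F i) = T.g + B.card ∧
      ∑ i, S.c1 (F i) = T.c - ((∑ b ∈ B, b) * T.d) • S.N₀ ∧ ∑ i, S.ch (F i) = T.ch ∧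
      (∀ i j, i ≤ j → S.I (S.c1 (F j)) S.h * S.rk (F i) ≤ S.I (S.c1 (F i)) S.h * S.rk (F j)) ∧
      (∀ i, S.I (∑ j ∈ Finset.Iic i, S.c1 (F j)) S.N₀ < 0 ∨
        ∑ j ∈ Finset.Iic i, S.rk (F j) = T.g + B.card ∨
        ∃ B' ⊆ B, ∑ j ∈ Finset.Iic i, S.rk (F j) = B'.card ∧
          ∑ j ∈ Finset.Iic i, S.c1 (F j) = -((∑ b ∈ B', b) * T.d) • S.N₀) ∧
      (∀ k, ∑ i, ((S.h0 (F i) k : ℤ) - S.h1 (F i) k) ≤ hE k) ∧
      ∀ k, hE k ≠ 0 → ∃ b ∈ B, S.l0 (k - b * T.d) ≠ 0 := by
  obtain ⟨X⟩ := T.exten B hB hbad
  refine ⟨X.m, X.F, X.hE, X.fil_stable, X.sum_rk, X.sum_cl, X.sum_ch, X.slope, fun i => ?_,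
    X.hE_sum, fun k hk => ?_⟩
  · have h1 := X.deg_le T.c_N (X.fil i)
    rcases h1.lt_or_eq with h2 | h2
    · left
      rw [← X.fil_cl i]
      exact h2
    · right
      rcases X.eq_top_or_part T.d_pos T.c_N (X.fil i) h2 with h3 | ⟨C, hC, h3⟩
      · left
        rw [← X.fil_rk i, h3, finrank_top, X.finrank_E]
      · right
        refine ⟨C, hC, ?_, ?_⟩
        · rw [← X.fil_rk i, h3, X.finrank_part hC]
        · rw [← X.fil_cl i, h3]
          exact X.cl_sum C hC
  · obtain ⟨R, hR, hE⟩ := X.hE_sec k hk
    have h1 := S.eff_nef _ hE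
    rw [map_add, map_smul, LinearMap.add_apply, LinearMap.smul_apply, S.sq, smul_zero, add_zero]
      at h1
    have h2 : X.deg R = 0 := le_antisymm (X.deg_le T.c_N R) h1
    rcases X.eq_top_or_part T.d_pos T.c_N R h2 with h3 | ⟨C, hC, h3⟩
    · exfalso
      rw [h3, finrank_top, X.finrank_E] at hR
      have h4 := T.g_pos
      have h5 := hB.card_pos
      omega
    · rw [h3, X.finrank_part hC, Finset.card_eq_one] at hR
      obtain ⟨b, rfl⟩ := hR
      have hb : b ∈ B := hC (Finset.mem_singleton_self b)
      refine ⟨b, hb, S.eff_l0 _ ?_⟩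
      have h4 : X.cl R = -(b * T.d) • S.N₀ := by
        have h5 := X.cl_sum {b} hC
        rw [Finset.sum_singleton] at h5
        rw [h3]
        exact h5
      rw [h4, ← add_smul] at hE
      have h5 : -(b * T.d) + k = k - b * T.d := by ring
      rwa [h5] at hE

end Pool.Agent.H76.V
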