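import Mathlib
import Pool.Agent.H76.V.Growth
import Pool.Agent.H76.V.Sub

/-!
# Few integers in far windows (MP_5ee2d0, Theorem V, step 2)
-/

namespace Pool.Agent.H76.V

/-- Abel summation -/
private theorem sp_abel (m : ℕ) : ∀ (x μ : Fin (m + 1) → ℝ), Antitone μ →
    (∀ i, i ≠ Fin.last m → ∑ j ∈ Finset.Iic i, x j ≤ -1) →
    ∑ i, x i * μ i ≤ (∑ i, x i) * μ (Fin.last m) - (μ 0 - μ (Fin.last m)) := by
  induction m with
  | zero =>
    intro x μ _ _
    simp
  | succ m ih =>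
    intro x μ hμ hx
    have h1 := ih (fun i => x i.castSucc) (fun i => μ i.castSucc)
      (fun i j h => hμ (Fin.castSucc_le_castSucc_iff.2 h)) (by
        intro i hi
        have := hx i.castSucc (Fin.castSucc_lt_last i).ne
        rwa [Fin.sum_Iic_castSucc] at this)
    have h2 : ∑ i : Fin (m + 1), x i.castSucc ≤ -1 := by
      have := hx (Fin.last m).castSucc (Fin.castSucc_lt_last _).ne
      rw [Fin.sum_Iic_castSucc] at this
      have h3 : Finset.Iic (Fin.last m) = Finset.univ := by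
        ext i; simp [Fin.le_last]
      rwa [h3] at this
    rw [Fin.sum_univ_castSucc, Fin.sum_univ_castSucc (f := x)]
    have h4 : μ (Fin.last (m + 1)) ≤ μ (Fin.last m).castSucc := hμ (Fin.le_last _)
    simp only [Fin.castSucc_zero] at h1
    nlinarith [mul_nonneg (sub_nonneg.2 h4)
      (show (0 : ℝ) ≤ -1 - ∑ i : Fin (m + 1), x i.castSucc by linarith)]

private theorem sp_gap {m : ℕ} (x μ : Fin m → ℝ) (hμ : Antitone μ)
    (hx : ∀ i, ∑ j ∈ Finset.Iic i, x j ≤ -1 ∨ ∀ j, j ≤ i) (h0 : ∑ i, x i = 0) (i j : Fin m) :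
    μ i - μ j ≤ -∑ i, x i * μ i := by
  obtain _ | m := m
  · exact i.elim0
  have h := sp_abel m x μ hμ (by
    intro k hk
    rcases hx k with h | h
    · exact h
    · exact absurd (le_antisymm (Fin.le_last k) (h _)) hk)
  rw [h0] at h
  have h1 : μ i ≤ μ 0 := hμ (Fin.zero_le i)
  have h2 : μ (Fin.last m) ≤ μ j := hμ (Fin.le_last j)
  linarith

private theorem sp_part {m : ℕ} (r y : Fin m → ℤ) (hs : ∀ i j, i ≤ j → y j * r i ≤ y i * r j)
    (i : Fin m) :
    (∑ j, y j) * ∑ j ∈ Finset.Iic i, r j ≤ (∑ j ∈ Finset.Iic i, y j) * ∑ j, r j := by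
  have h1 : ∀ f : Fin m → ℤ, ∑ j, f j = ∑ j ∈ Finset.Iic i, f j + ∑ j ∈ Finset.Ioi i, f j := by
    intro f
    rw [← Finset.sum_union]
    · congr 1
      ext j
      simp only [Finset.mem_univ, Finset.mem_union, Finset.mem_Iic, Finset.mem_Ioi, true_iff]
      exact le_or_gt j i
    · rw [Finset.disjoint_left]
      intro j
      simp
  rw [h1 y, h1 r]
  have h2 : (∑ j ∈ Finset.Ioi i, y j) * ∑ j ∈ Finset.Iic i, r j ≤
      (∑ j ∈ Finset.Iic i, y j) * ∑ j ∈ Finset.Ioi i, r j := by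
    rw [Finset.sum_mul_sum, Finset.sum_mul_sum, Finset.sum_comm]
    apply Finset.sum_le_sum
    intro j hj
    apply Finset.sum_le_sum
    intro k hk
    exact hs j k ((Finset.mem_Iic.1 hj).trans (Finset.mem_Ioi.1 hk).le)
  linarith

/-- one factor -/
private theorem sp_id (t q r x y z e : ℤ) (hr : 0 < r) :
    (r : ℝ) * (-(t : ℝ) ^ 2 * e + 2 * t * (x * (y / r))) =
      t ^ 2 * (z - r * e) + (2 * t * (x * y) - x ^ 2 * q - t ^ 2 * z) + q * x ^ 2 := by
  have : (r : ℝ) ≠ 0 := by exact_mod_cast hr.ne'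
  field_simp
  ring

private theorem sp_nonneg (t q r x y z e : ℤ) (c : ℝ) (hq : 0 < q) (hr : 0 < r)
    (hc : 0 < c) (hH : t ^ 2 * z ≤ 2 * t * (x * y) - x ^ 2 * q)
    (hD : c * ((r : ℝ) ^ 2 - 1) ≤ ((z - r * e : ℤ) : ℝ)) :
    0 ≤ -(t : ℝ) ^ 2 * e + 2 * t * (x * (y / r)) := by
  have h := sp_id t q r x y z e hr
  have hr' : (1 : ℝ) ≤ r := by exact_mod_cast hr
  have hH' : (t : ℝ) ^ 2 * z ≤ 2 * t * (x * y) - x ^ 2 * q := by exact_mod_cast hH
  have hq' : (0 : ℝ) < q := by exact_mod_cast hq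
  push_cast at hD
  have h1 : (0 : ℝ) ≤ z - r * e := le_trans (mul_nonneg hc.le (by nlinarith)) hD
  have h2 : (0 : ℝ) ≤ (r : ℝ) * (-(t : ℝ) ^ 2 * e + 2 * t * (x * (y / r))) := by
    rw [h]
    have := mul_nonneg (sq_nonneg (t : ℝ)) h1
    have := mul_nonneg hq'.le (sq_nonneg (x : ℝ))
    linarith
  exact nonneg_of_mul_nonneg_right h2 (by linarith)

private theorem sp_exc (t q r x y z e : ℤ) (c : ℝ) (ht : 0 < t) (hq : 0 < q) (hr : 0 < r)
    (hc : 0 < c) (hH : t ^ 2 * z ≤ 2 * t * (x * y) - x ^ 2 * q)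
    (hD : c * ((r : ℝ) ^ 2 - 1) ≤ ((z - r * e : ℤ) : ℝ))
    (hn : ¬ (r = 1 ∧ z = e ∧ x = 0 ∧ z = 0)) :
    (r : ℝ) ≤ (4 / (3 * c) + 1) * (-(t : ℝ) ^ 2 * e + 2 * t * (x * (y / r))) := by
  have h0 := sp_nonneg t q r x y z e c hq hr hc hH hD
  have h := sp_id t q r x y z e hr
  set E : ℝ := -(t : ℝ) ^ 2 * e + 2 * t * (x * (y / r)) with hE
  have hc4 : 0 < 4 / (3 * c) := by positivity
  have ht1 : (1 : ℝ) ≤ (t : ℝ) ^ 2 := by
    have : (1 : ℤ) ≤ t ^ 2 := by nlinarith
    exact_mod_cast this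
  by_cases h2 : 2 ≤ r
  · have hr2 : (2 : ℝ) ≤ r := by exact_mod_cast h2
    have hH' : (t : ℝ) ^ 2 * z ≤ 2 * t * (x * y) - x ^ 2 * q := by exact_mod_cast hH
    have hq' : (0 : ℝ) < q := by exact_mod_cast hq
    push_cast at hD
    have h1 : c * (3 / 4 * (r : ℝ) ^ 2) ≤ z - r * e := by
      refine le_trans ?_ hD
      apply mul_le_mul_of_nonneg_left _ hc.le
      nlinarith
    have h3 : c * (3 / 4 * (r : ℝ) ^ 2) ≤ r * E := by
      rw [h]
      have h4 : (z - r * e : ℝ) ≤ t ^ 2 * (z - r * e) :=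
        le_mul_of_one_le_left (le_trans (by positivity) h1) ht1
      have := mul_nonneg hq'.le (sq_nonneg (x : ℝ))
      linarith
    have h5 : c * (3 / 4) * r ≤ E := by
      have : (r : ℝ) * (c * (3 / 4) * r) ≤ r * E := by
        calc (r : ℝ) * (c * (3 / 4) * r) = c * (3 / 4 * (r : ℝ) ^ 2) := by ring
          _ ≤ _ := h3
      exact le_of_mul_le_mul_left this (by linarith)
    calc (r : ℝ) = 4 / (3 * c) * (c * (3 / 4) * r) := by field_simp
      _ ≤ 4 / (3 * c) * E := mul_le_mul_of_nonneg_left h5 hc4.le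
      _ ≤ (4 / (3 * c) + 1) * E := by linarith
  · have hr1 : r = 1 := by omega
    subst hr1
    have hD' : (0 : ℝ) ≤ ((z - 1 * e : ℤ) : ℝ) := le_trans (by norm_num) hD
    have hze : 0 ≤ z - e := by
      have : 0 ≤ z - 1 * e := by exact_mod_cast hD'
      linarith
    have key : 1 ≤ t ^ 2 * (z - e) + (2 * t * (x * y) - x ^ 2 * q - t ^ 2 * z) + q * x ^ 2 := by
      have ht2 : 1 ≤ t ^ 2 := by nlinarith
      have a1 : 0 ≤ t ^ 2 * (z - e) := by positivity
      have a3 : 0 ≤ q * x ^ 2 := by positivity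
      by_cases hx : x = 0
      · subst hx
        by_cases hz : z = 0
        · subst hz
          have : (0 : ℤ) ≠ e := fun h => hn ⟨rfl, h, rfl, rfl⟩
          have h6 : 1 ≤ 0 - e := by omega
          nlinarith
        · have h7 : z ≤ 0 := by
            by_contra hcon
            push Not at hcon
            nlinarith
          have h8 : z ≤ -1 := by omega
          nlinarith
      · have hx2 : 1 ≤ x ^ 2 := by
          have := sq_nonneg x
          have h9 : x ^ 2 ≠ 0 := pow_ne_zero 2 hx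
          omega
        nlinarith
    have key' : (1 : ℝ) ≤ E := by
      have hk : ((1 : ℤ) : ℝ) ≤ ((t ^ 2 * (z - e) + (2 * t * (x * y) - x ^ 2 * q - t ^ 2 * z) +
        q * x ^ 2 : ℤ) : ℝ) := by exact_mod_cast key
      push_cast at hk
      push_cast at h
      rw [one_mul, one_mul] at h
      rw [h]
      exact hk
    push_cast
    nlinarith

private theorem sp_bd (t q r x y z e k : ℤ) (c D₀ R : ℝ) (ht : 0 < t) (hq : 0 < q) (hr : 0 < r)
    (hc : 0 < c) (hH : t ^ 2 * z ≤ 2 * t * (x * y) - x ^ 2 * q)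
    (hD : c * ((r : ℝ) ^ 2 - 1) ≤ ((z - r * e : ℤ) : ℝ)) (hD₀ : 0 ≤ D₀)
    (hE : -(t : ℝ) ^ 2 * e + 2 * t * (x * (y / r)) ≤ t ^ 2 * D₀) (hR : (r : ℝ) ≤ R)
    (hk : |(y : ℝ) / r + k * t| ≤ t * D₀) (D : ℤ)
    (h1 : R ≤ D) (h2 : t ^ 2 * D₀ * R ≤ D) (h3 : R * (t * D₀) ≤ D)
    (h4 : 2 * t * (t ^ 2 * D₀ * R) * (R * (t * D₀)) + 2 * (t ^ 2 * D₀ * R) ≤ D) :
    r ≤ D ∧ z - r * e ≤ D ∧ |x| ≤ D ∧ |y + r * k * t| ≤ D ∧ -D ≤ z + 2 * (r * k) * x := by
  have h := sp_id t q r x y z e hr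
  have h0 := sp_nonneg t q r x y z e c hq hr hc hH hD
  set E : ℝ := -(t : ℝ) ^ 2 * e + 2 * t * (x * (y / r)) with hE'
  have hr' : (1 : ℝ) ≤ r := by exact_mod_cast hr
  have hH' : (t : ℝ) ^ 2 * z ≤ 2 * t * (x * y) - x ^ 2 * q := by exact_mod_cast hH
  have hq' : (1 : ℝ) ≤ q := by exact_mod_cast hq
  have ht' : (1 : ℝ) ≤ t := by exact_mod_cast ht
  have ht1 : (1 : ℝ) ≤ (t : ℝ) ^ 2 := by nlinarith
  push_cast at hD
  have hΔ : (0 : ℝ) ≤ z - r * e := le_trans (mul_nonneg hc.le (by nlinarith)) hD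
  have ha : (r : ℝ) * E ≤ t ^ 2 * D₀ * R := by
    calc (r : ℝ) * E ≤ r * (t ^ 2 * D₀) := mul_le_mul_of_nonneg_left hE (by linarith)
      _ ≤ R * (t ^ 2 * D₀) := mul_le_mul_of_nonneg_right hR (by positivity)
      _ = _ := by ring
  set a : ℝ := t ^ 2 * D₀ * R with ha'
  set b : ℝ := R * (t * D₀) with hb'
  have hR0 : 0 ≤ R := by linarith
  have ha0 : 0 ≤ a := by positivity
  have hb0 : 0 ≤ b := by positivity
  rw [h] at ha
  have p1 : 0 ≤ (t : ℝ) ^ 2 * (z - r * e) := by positivity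
  have p3 : 0 ≤ (q : ℝ) * x ^ 2 := by positivity
  have hΔa : (z - r * e : ℝ) ≤ a := by
    have h4 : (z - r * e : ℝ) ≤ t ^ 2 * (z - r * e) := le_mul_of_one_le_left hΔ ht1
    linarith
  have hxa : |(x : ℝ)| ≤ a := by
    have i1 : |x| ≤ x ^ 2 := by
      rw [← sq_abs x]
      have := abs_nonneg x
      rcases this.eq_or_lt with h | h
      · rw [← h]; norm_num
      · nlinarith
    have i2 : |(x : ℝ)| ≤ (x : ℝ) ^ 2 := by exact_mod_cast i1
    have i3 : (x : ℝ) ^ 2 ≤ q * x ^ 2 := le_mul_of_one_le_left (sq_nonneg _) hq'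
    linarith
  have hyb : |(y : ℝ) + r * k * t| ≤ b := by
    have i1 : (y : ℝ) + r * k * t = r * (y / r + k * t) := by
      field_simp
    rw [i1, abs_mul, abs_of_pos (by linarith : (0 : ℝ) < r)]
    exact mul_le_mul hR hk (abs_nonneg _) hR0
  refine ⟨?_, ?_, ?_, ?_, ?_⟩
  · exact_mod_cast hR.trans h1
  · have : ((z - r * e : ℤ) : ℝ) ≤ D := by
      push_cast
      exact hΔa.trans h2
    exact_mod_cast this
  · have : ((|x| : ℤ) : ℝ) ≤ D := by
      push_cast
      exact hxa.trans h2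
    exact_mod_cast this
  · have : ((|y + r * k * t| : ℤ) : ℝ) ≤ D := by
      push_cast
      exact hyb.trans h3
    exact_mod_cast this
  · have i1 : (t : ℝ) ^ 2 * (z + 2 * (r * k) * x) = 2 * t * (x * (y + r * k * t)) - x ^ 2 * q -
      (2 * t * (x * y) - x ^ 2 * q - t ^ 2 * z) := by ring
    have i2 : |(x : ℝ) * (y + r * k * t)| ≤ a * b := by
      rw [abs_mul]
      exact mul_le_mul hxa hyb (abs_nonneg _) ha0
    have i3 : -(2 * t * a * b + 2 * a) ≤ (t : ℝ) ^ 2 * (z + 2 * (r * k) * x) := by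
      rw [i1]
      have i4 := (abs_le.1 i2).1
      have i5 : 2 * (t : ℝ) * -(a * b) ≤ 2 * t * (x * (y + r * k * t)) :=
        mul_le_mul_of_nonneg_left i4 (by positivity)
      nlinarith
    have i6 : -(D : ℝ) ≤ (z + 2 * (r * k) * x : ℝ) := by
      by_contra hcon
      push Not at hcon
      have hDpos : 0 ≤ (D : ℝ) := le_trans (by positivity) h2
      have i7 : (t : ℝ) ^ 2 * (z + 2 * (r * k) * x) ≤ (z + 2 * (r * k) * x) := by
        nlinarith
      nlinarith
    exact_mod_cast i6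

private theorem sp_count {ι : Type} (A : Finset ι) (κ : ι → ℤ) (K : ℤ) (D a M : ℕ)
    (h1 : ∀ i ∈ A, K ≤ κ i ∧ κ i ≤ K + D)
    (h2 : ∀ k : ℤ, (A.filter fun i => κ i = k).card ≤ M * (A.filter fun i => k < κ i).card + a) :
    A.card ≤ a * (D + 1) * (1 + M) ^ (D + 1) := by
  classical
  have key : ∀ s : ℕ, (A.filter fun i => K + D < κ i + s).card ≤ a * s * (1 + M) ^ s := by
    intro s
    induction s with
    | zero =>
      rw [Finset.filter_false_of_mem]
      · simp
      · intro i hi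
        have := (h1 i hi).2
        push_cast
        omega
    | succ s ih =>
      have e1 : (A.filter fun i => K + D < κ i + ((s + 1 : ℕ) : ℤ)) ⊆
          (A.filter fun i => K + D < κ i + s) ∪ (A.filter fun i => κ i = K + D - s) := by
        intro i hi
        rw [Finset.mem_filter] at hi
        rw [Finset.mem_union, Finset.mem_filter, Finset.mem_filter]
        push_cast at hi
        by_cases h : κ i = K + D - s
        · exact Or.inr ⟨hi.1, h⟩
        · exact Or.inl ⟨hi.1, by omega⟩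
      have e2 := h2 (K + D - s)
      have e3 : (A.filter fun i => K + D - s < κ i) = (A.filter fun i => K + D < κ i + s) := by
        apply Finset.filter_congr
        intro i _
        constructor <;> intro h <;> omega
      rw [e3] at e2
      have e4 := (Finset.card_le_card e1).trans (Finset.card_union_le _ _)
      have e5 : 1 ≤ (1 + M) ^ (s + 1) := Nat.one_le_pow _ _ (by omega)
      calc _ ≤ _ := e4
        _ ≤ a * s * (1 + M) ^ s + (M * (a * s * (1 + M) ^ s) + a) :=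
          Nat.add_le_add ih (e2.trans (Nat.add_le_add_right (Nat.mul_le_mul_left _ ih) _))
        _ = a * s * (1 + M) ^ (s + 1) + a * 1 := by ring
        _ ≤ a * s * (1 + M) ^ (s + 1) + a * (1 + M) ^ (s + 1) :=
          Nat.add_le_add_left (Nat.mul_le_mul_left _ e5) _
        _ = _ := by ring
  have e6 := key (D + 1)
  rw [Finset.filter_true_of_mem] at e6
  · exact e6
  · intro i hi
    have := (h1 i hi).1
    push_cast
    omega

/-- Theorem S -/
theorem Test.sparse {G Sf : Type} [AddCommGroup G] {S : Surface G Sf} {Bad : ℤ → Prop}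
    (T : Test G Sf S Bad) (c : ℝ) (hc : 0 < c)
    (hS : ∀ F, S.Stable F → c * ((S.rk F : ℝ) ^ 2 - 1) ≤
      (S.I (S.c1 F) (S.c1 F) - S.rk F * S.ch F : ℤ)) : Sparse Bad := by
  classical
  obtain ⟨t, ht⟩ : ∃ t : ℤ, t = S.I S.N₀ S.h := ⟨_, rfl⟩
  obtain ⟨q, hq⟩ : ∃ q : ℤ, q = S.I S.h S.h := ⟨_, rfl⟩
  have ht0 : 0 < t := ht ▸ S.pos
  have hq0 : 0 < q := hq ▸ S.pos_h
  have htR : (1 : ℝ) ≤ t := by exact_mod_cast ht0
  have hqR : (1 : ℝ) ≤ q := by exact_mod_cast hq0
  -- the constants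
  obtain ⟨D₀, hD₀⟩ : ∃ D₀ : ℕ, D₀ = T.ch.natAbs := ⟨_, rfl⟩
  have hchD : -(T.ch : ℝ) ≤ D₀ := by
    have : -T.ch ≤ (D₀ : ℤ) := by omega
    exact_mod_cast this
  obtain ⟨R, hR⟩ : ∃ R : ℝ, R = (4 / (3 * c) + 1) * ((t : ℝ) ^ 2 * D₀) := ⟨_, rfl⟩
  have hR0 : 0 ≤ R := by rw [hR]; positivity
  obtain ⟨R₁, hR₁⟩ : ∃ R₁ : ℕ, R₁ = ⌈R⌉₊ := ⟨_, rfl⟩
  have hRR₁ : R ≤ R₁ := hR₁ ▸ Nat.le_ceil R
  obtain ⟨D, hDdef⟩ : ∃ D : ℤ, D = ⌈R + t ^ 2 * D₀ * R + R * (t * D₀) +
    (2 * t * (t ^ 2 * D₀ * R) * (R * (t * D₀)) + 2 * (t ^ 2 * D₀ * R))⌉ := ⟨_, rfl⟩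
  have hD : R + t ^ 2 * D₀ * R + R * (t * D₀) +
    (2 * t * (t ^ 2 * D₀ * R) * (R * (t * D₀)) + 2 * (t ^ 2 * D₀ * R)) ≤ D := hDdef ▸ Int.le_ceil _
  have n1 : 0 ≤ (t : ℝ) ^ 2 * D₀ * R := by positivity
  have n2 : 0 ≤ R * ((t : ℝ) * D₀) := by positivity
  have n3 : 0 ≤ 2 * (t : ℝ) * (t ^ 2 * D₀ * R) * (R * (t * D₀)) := by positivity
  obtain ⟨M, hM⟩ := S.bounded D
  obtain ⟨M', hM'⟩ : ∃ M' : ℕ, ∀ k : ℤ, k ≤ D₀ → S.l1 k ≤ M' := by
    refine ⟨∑ k ∈ Finset.Icc (0 : ℤ) D₀, S.l1 k, fun k hk => ?_⟩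
    by_cases h : 0 ≤ k
    · exact Finset.single_le_sum (f := S.l1) (fun _ _ => Nat.zero_le _) (Finset.mem_Icc.2 ⟨h, hk⟩)
    · rw [S.l1_neg k (by omega)]
      exact Nat.zero_le _
  refine ⟨R₁ + (M * R₁) * (2 * D₀ + 1) * (1 + M') ^ (2 * D₀ + 1) + 1, fun w => ?_⟩
  refine ⟨|S.I T.c S.h| + (|w| + 1) * |w| * T.d * t + (T.g + |w| + 1) * t * D₀ + 1, ?_⟩
  intro b₀ hb₀ B hB
  rcases B.eq_empty_or_nonempty with rfl | hne
  · simp
  obtain ⟨m, F, hE, hst, hrk, hc1, hch, hsl, hpart, hcoh, hE0⟩ :=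
    T.ext B hne (fun b hb => (hB b hb).1)
  obtain ⟨n, hn⟩ : ∃ n : ℕ, n = B.card := ⟨_, rfl⟩
  rw [← hn] at hrk hpart ⊢
  have hnpos : 0 < n := hn ▸ Finset.card_pos.2 hne
  have hd := T.d_pos
  have hg := T.g_pos
  -- windows
  have hw0 : 0 ≤ w := by
    obtain ⟨b, hb⟩ := hne
    have := hB b hb
    omega
  rw [abs_of_nonneg hw0] at hb₀
  have hnw : (n : ℤ) ≤ w + 1 := by
    have h1 : B ⊆ Finset.Icc b₀ (b₀ + w) := fun b hb =>
      Finset.mem_Icc.2 ⟨(hB b hb).2.1, (hB b hb).2.2⟩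
    have h2 := Finset.card_le_card h1
    rw [Int.card_Icc, ← hn] at h2
    omega
  obtain ⟨sB, hsB⟩ : ∃ sB : ℤ, sB = ∑ b ∈ B, b := ⟨_, rfl⟩
  have hsBle : sB ≤ n * (b₀ + w) := by
    rw [hsB, hn]
    have := Finset.sum_le_card_nsmul B (fun b => b) (b₀ + w) (fun b hb => (hB b hb).2.2)
    simpa using this
  -- numbers of the factors
  obtain ⟨r, hr⟩ : ∃ r : Fin m → ℤ, ∀ i, r i = S.rk (F i) := ⟨fun i => S.rk (F i), fun _ => rfl⟩
  obtain ⟨x, hx⟩ : ∃ x : Fin m → ℤ, ∀ i, x i = S.I (S.c1 (F i)) S.N₀ :=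
    ⟨fun i => S.I (S.c1 (F i)) S.N₀, fun _ => rfl⟩
  obtain ⟨y, hy⟩ : ∃ y : Fin m → ℤ, ∀ i, y i = S.I (S.c1 (F i)) S.h :=
    ⟨fun i => S.I (S.c1 (F i)) S.h, fun _ => rfl⟩
  obtain ⟨z, hz⟩ : ∃ z : Fin m → ℤ, ∀ i, z i = S.I (S.c1 (F i)) (S.c1 (F i)) :=
    ⟨fun i => S.I (S.c1 (F i)) (S.c1 (F i)), fun _ => rfl⟩
  obtain ⟨e, he⟩ : ∃ e : Fin m → ℤ, ∀ i, e i = S.ch (F i) := ⟨fun i => S.ch (F i), fun _ => rfl⟩
  have hrpos : ∀ i, 0 < r i := fun i => by
    rw [hr]
    exact_mod_cast S.rk_pos (F i)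
  have hsumr : ∑ i, r i = T.g + n := by
    simp only [hr]
    exact_mod_cast hrk
  have hsumx : ∑ i, x i = 0 := by
    have h1 : ∑ i, x i = S.I (∑ i, S.c1 (F i)) S.N₀ := by
      simp only [hx, map_sum, LinearMap.sum_apply]
    rw [h1, hc1]
    simp [T.c_N, S.sq]
  have hsumy : ∑ i, y i = S.I T.c S.h - sB * T.d * t := by
    have h1 : ∑ i, y i = S.I (∑ i, S.c1 (F i)) S.h := by
      simp only [hy, map_sum, LinearMap.sum_apply]
    rw [h1, hc1, hsB]
    simp [ht]
  have hsume : ∑ i, e i = T.ch := by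
    simp only [he]
    exact hch
  have hH : ∀ i, t ^ 2 * z i ≤ 2 * t * (x i * y i) - x i ^ 2 * q := fun i => by
    rw [hz, hx, hy, ht, hq]
    exact S.hodge _
  have hΔ : ∀ i, c * ((r i : ℝ) ^ 2 - 1) ≤ ((z i - r i * e i : ℤ) : ℝ) := fun i => by
    rw [hr, hz, he]
    exact hS (F i) (hst i)
  have hslope : ∀ i j, i ≤ j → y j * r i ≤ y i * r j := fun i j hij => by
    rw [hy, hy, hr, hr]
    exact hsl i j hij
  -- the key inequality for the beginning of the window
  have hdt : 1 ≤ T.d * t * T.g := by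
    have h1 : 0 < T.d * t * (T.g : ℤ) := mul_pos (mul_pos hd ht0) (by exact_mod_cast hg)
    omega
  have hkey : n * w * T.d * t - S.I T.c S.h + (T.g + n) * t * D₀ < b₀ * (T.d * t * T.g) := by
    have a1 : -S.I T.c S.h ≤ |S.I T.c S.h| := neg_le_abs _
    have a2 : (n : ℤ) * w * T.d * t ≤ (w + 1) * w * T.d * t := by
      have : (n : ℤ) * (w * T.d * t) ≤ (w + 1) * (w * T.d * t) :=
        mul_le_mul_of_nonneg_right hnw (by positivity)
      linarith
    have a3 : ((T.g : ℤ) + n) * t * D₀ ≤ (T.g + w + 1) * t * D₀ := by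
      have : ((T.g : ℤ) + n) * (t * D₀) ≤ (T.g + w + 1) * (t * D₀) :=
        mul_le_mul_of_nonneg_right (by omega) (by positivity)
      linarith
    have a4 : 0 ≤ b₀ := by
      refine le_trans ?_ hb₀
      positivity
    have a5 : b₀ ≤ b₀ * (T.d * t * T.g) := le_mul_of_one_le_right a4 hdt
    linarith
  have hpart' : ∀ i, ∑ j ∈ Finset.Iic i, (x j : ℝ) ≤ -1 ∨ ∀ j, j ≤ i := by
    intro i
    rcases hpart i with h | h | ⟨B', hB', h1, h2⟩
    · left
      have h3 : ∑ j ∈ Finset.Iic i, x j < 0 := by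
        have : ∑ j ∈ Finset.Iic i, x j = S.I (∑ j ∈ Finset.Iic i, S.c1 (F j)) S.N₀ := by
          simp only [hx, map_sum, LinearMap.sum_apply]
        rw [this]
        exact h
      have h4 : ∑ j ∈ Finset.Iic i, x j ≤ -1 := by omega
      exact_mod_cast h4
    · right
      intro j
      by_contra hcon
      have hji : i < j := not_le.1 hcon
      have h3 : ∑ j ∈ Finset.Iic i, S.rk (F j) < ∑ j, S.rk (F j) :=
        Finset.sum_lt_sum_of_subset (Finset.subset_univ _) (Finset.mem_univ j)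
          (by simpa using hji) (S.rk_pos _) (fun _ _ _ => Nat.zero_le _)
      omega
    · exfalso
      have h3 := sp_part r y hslope i
      have h4 : ∑ j ∈ Finset.Iic i, r j = B'.card := by
        simp only [hr]
        exact_mod_cast h1
      have h5 : ∑ j ∈ Finset.Iic i, y j = -((∑ b ∈ B', b) * T.d) * t := by
        have : ∑ j ∈ Finset.Iic i, y j = S.I (∑ j ∈ Finset.Iic i, S.c1 (F j)) S.h := by
          simp only [hy, map_sum, LinearMap.sum_apply]
        rw [this, h2]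
        simp [ht]
      have h6 : 0 < (B'.card : ℤ) := by
        have h8 : r i ≤ ∑ j ∈ Finset.Iic i, r j :=
          Finset.single_le_sum (fun j _ => (hrpos j).le) (Finset.mem_Iic.2 le_rfl)
        have := hrpos i
        omega
      have h7 : (B'.card : ℤ) * b₀ ≤ ∑ b ∈ B', b := by
        have := Finset.card_nsmul_le_sum B' (fun b => b) b₀ (fun b hb => (hB b (hB' hb)).2.1)
        simpa using this
      rw [hsumr, hsumy, h4, h5] at h3
      have h8 : (S.I T.c S.h - sB * T.d * t) * B'.card ≤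
          (-(b₀ * T.d) * t * (T.g + n)) * B'.card := by
        refine h3.trans ?_
        have h9 : (B'.card : ℤ) * b₀ * (T.d * t * (T.g + n)) ≤
            (∑ b ∈ B', b) * (T.d * t * (T.g + n)) :=
          mul_le_mul_of_nonneg_right h7 (by positivity)
        linarith
      have h9 := le_of_mul_le_mul_right h8 h6
      have h10 : sB * (T.d * t) ≤ n * (b₀ + w) * (T.d * t) :=
        mul_le_mul_of_nonneg_right hsBle (by positivity)
      have h11 : 0 ≤ ((T.g : ℤ) + n) * t * D₀ := by positivity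
      linarith
  -- slopes
  obtain ⟨μ, hμ⟩ : ∃ μ : Fin m → ℝ, ∀ i, μ i = y i / r i := ⟨fun i => y i / r i, fun _ => rfl⟩
  have hμanti : Antitone μ := by
    intro i j hij
    rw [hμ, hμ, div_le_div_iff₀ (by exact_mod_cast hrpos j) (by exact_mod_cast hrpos i)]
    exact_mod_cast hslope i j hij
  have hsx : ∑ i, (x i : ℝ) = 0 := by exact_mod_cast hsumx
  have hgap := sp_gap (fun i => (x i : ℝ)) μ hμanti hpart' hsx
  obtain ⟨E, hEdef⟩ : ∃ E : Fin m → ℝ, ∀ i, E i = -(t : ℝ) ^ 2 * e i +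
    2 * t * (x i * (y i / r i)) := ⟨fun i => -(t : ℝ) ^ 2 * e i +
    2 * t * (x i * (y i / r i)), fun _ => rfl⟩
  have hEpos : ∀ i, 0 ≤ E i := fun i => by
    rw [hEdef]
    exact sp_nonneg t q (r i) (x i) (y i) (z i) (e i) c hq0 (hrpos i) hc (hH i) (hΔ i)
  have hEsum : ∑ i, E i = -(t : ℝ) ^ 2 * T.ch + 2 * t * ∑ i, x i * μ i := by
    simp only [hEdef, hμ]
    rw [Finset.sum_add_distrib, ← Finset.mul_sum, ← Finset.mul_sum, ← hsume]
    push_cast
    rfl
  obtain ⟨i₀⟩ : Nonempty (Fin m) := by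
    by_contra hcon
    rw [not_nonempty_iff] at hcon
    rw [Finset.univ_eq_empty, Finset.sum_empty] at hsumr
    omega
  have hsumneg : ∑ i, x i * μ i ≤ 0 := by
    have := hgap i₀ i₀
    linarith
  have ht2ch : -(t : ℝ) ^ 2 * T.ch ≤ t ^ 2 * D₀ := by
    have := mul_le_mul_of_nonneg_left hchD (sq_nonneg (t : ℝ))
    linarith
  have hEtot : ∑ i, E i ≤ t ^ 2 * D₀ := by
    rw [hEsum]
    have : 2 * (t : ℝ) * ∑ i, x i * μ i ≤ 0 :=
      mul_nonpos_of_nonneg_of_nonpos (by positivity) hsumneg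
    linarith
  have hEi : ∀ i, E i ≤ t ^ 2 * D₀ := fun i =>
    (Finset.single_le_sum (fun j _ => hEpos j) (Finset.mem_univ i)).trans hEtot
  have hμgap : ∀ i j, μ i - μ j ≤ t * D₀ := by
    intro i j
    have h1 : 0 ≤ ∑ i, E i := Finset.sum_nonneg fun i _ => hEpos i
    rw [hEsum] at h1
    have h2 := mul_le_mul_of_nonneg_left (hgap i j) (by positivity : (0 : ℝ) ≤ 2 * t)
    have h3 : (t : ℝ) * (2 * (μ i - μ j)) ≤ t * (t * D₀) := by linarith
    have h4 := le_of_mul_le_mul_left h3 (by linarith)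
    have h5 : 0 ≤ (t : ℝ) * D₀ := by positivity
    linarith
  -- exceptional factors
  obtain ⟨good, hgood⟩ : ∃ good : Fin m → Prop, ∀ i, good i ↔
      (r i = 1 ∧ z i = e i ∧ x i = 0 ∧ z i = 0) :=
    ⟨fun i => r i = 1 ∧ z i = e i ∧ x i = 0 ∧ z i = 0, fun _ => Iff.rfl⟩
  have hexc : ∀ i, ¬ good i → (r i : ℝ) ≤ (4 / (3 * c) + 1) * E i := by
    intro i hi
    rw [hgood] at hi
    rw [hEdef]
    exact sp_exc t q (r i) (x i) (y i) (z i) (e i) c ht0 hq0 (hrpos i) hc (hH i) (hΔ i) hi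
  have hc41 : 0 < 4 / (3 * c) + 1 := by positivity
  have hXr : ∀ i, ¬ good i → (r i : ℝ) ≤ R := by
    intro i hi
    rw [hR]
    exact (hexc i hi).trans (mul_le_mul_of_nonneg_left (hEi i) hc41.le)
  have hXsum : ∑ i with ¬ good i, (r i : ℝ) ≤ R := by
    calc ∑ i with ¬ good i, (r i : ℝ) ≤ ∑ i with ¬ good i, (4 / (3 * c) + 1) * E i :=
          Finset.sum_le_sum fun i hi => hexc i (Finset.mem_filter.1 hi).2
      _ = (4 / (3 * c) + 1) * ∑ i with ¬ good i, E i := (Finset.mul_sum _ _ _).symm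
      _ ≤ (4 / (3 * c) + 1) * ∑ i, E i := by
          apply mul_le_mul_of_nonneg_left _ hc41.le
          exact Finset.sum_le_sum_of_subset_of_nonneg (Finset.filter_subset _ _)
            fun i _ _ => hEpos i
      _ ≤ R := by
          rw [hR]
          exact mul_le_mul_of_nonneg_left hEtot hc41.le
  have hXcard : (Finset.univ.filter fun i => ¬ good i).card ≤ R₁ := by
    have h1 : ((Finset.univ.filter fun i => ¬ good i).card : ℝ) ≤
        ∑ i with ¬ good i, (r i : ℝ) := by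
      rw [Finset.card_eq_sum_ones]
      push_cast
      apply Finset.sum_le_sum
      intro i _
      exact_mod_cast hrpos i
    have h2 : ((Finset.univ.filter fun i => ¬ good i).card : ℝ) ≤ R₁ :=
      (h1.trans hXsum).trans hRR₁
    exact_mod_cast h2
  have htotal : (T.g : ℤ) + n ≤ (Finset.univ.filter good).card + R₁ := by
    have h1 : ∑ i, r i = ∑ i with good i, r i + ∑ i with ¬ good i, r i :=
      (Finset.sum_filter_add_sum_filter_not _ _ _).symm
    have h2 : ∑ i with good i, r i = (Finset.univ.filter good).card := by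
      rw [Finset.card_eq_sum_ones]
      push_cast
      apply Finset.sum_congr rfl
      intro i hi
      exact ((hgood i).1 (Finset.mem_filter.1 hi).2).1
    have h3 : ∑ i with ¬ good i, r i ≤ R₁ := by
      have := hXsum.trans hRR₁
      exact_mod_cast this
    rw [hsumr, h2] at h1
    omega
  -- the multiples of N₀
  have hκex : ∀ i, ∃ k : ℤ, good i → S.c1 (F i) = k • S.N₀ := by
    intro i
    by_cases h : good i
    · have h' := (hgood i).1 h
      obtain ⟨k, hk⟩ := S.prim (S.c1 (F i)) (by rw [← hx]; exact h'.2.2.1)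
        (by rw [← hz]; exact h'.2.2.2)
      exact ⟨k, fun _ => hk⟩
    · exact ⟨0, fun h' => absurd h' h⟩
  choose κ hκ using hκex
  have hgμ : ∀ i, good i → μ i = κ i * t := by
    intro i h
    have h1 : y i = κ i * t := by
      rw [hy, hκ i h]
      simp [ht]
    rw [hμ, h1, ((hgood i).1 h).1]
    push_cast
    ring
  have hκgap : ∀ i j, good i → good j → κ i - κ j ≤ D₀ := by
    intro i j hi hj
    have h1 := hμgap i j
    rw [hgμ i hi, hgμ j hj] at h1
    have h2 : (κ i - κ j) * t ≤ D₀ * t := by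
      have : ((κ i - κ j) * t : ℝ) ≤ D₀ * t := by linarith
      exact_mod_cast this
    exact le_of_mul_le_mul_right h2 ht0
  have hcount : ∀ k : ℤ, ((Finset.univ.filter good).filter fun i => κ i = k).card ≤
      M' * ((Finset.univ.filter good).filter fun i => k < κ i).card + M * R₁ := by
    intro k
    by_cases hk : ∃ j, good j ∧ κ j = k
    swap
    · rw [Finset.filter_false_of_mem (s := Finset.univ.filter good)
        (p := fun i => κ i = k)]
      · simp
      · intro i hi hik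
        exact hk ⟨i, (Finset.mem_filter.1 hi).2, hik⟩
    obtain ⟨j, hj, rfl⟩ := hk
    have hzero : hE (-κ j) = 0 := by
      by_contra hcon
      obtain ⟨b, hb, hl⟩ := hE0 _ hcon
      have h1 : -κ j - b * T.d = 0 := by
        by_contra h
        exact hl (S.l0_ne _ h)
      have h2 : κ j = -(b * T.d) := by linarith
      have h3 : b₀ ≤ b := (hB b hb).2.1
      have h4 : ∀ i, (y i : ℝ) ≤ r i * (κ j * t + t * D₀) := by
        intro i
        have h5 := hμgap i j
        rw [hgμ j hj, hμ i] at h5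
        have h6 : (0 : ℝ) < r i := by exact_mod_cast hrpos i
        have h7 : (y i : ℝ) / r i ≤ κ j * t + t * D₀ := by linarith
        rw [div_le_iff₀ h6] at h7
        linarith
      have h5 : ((∑ i, y i : ℤ) : ℝ) ≤ ((∑ i, r i : ℤ) : ℝ) * (κ j * t + t * D₀) := by
        push_cast
        rw [Finset.sum_mul]
        exact Finset.sum_le_sum fun i _ => h4 i
      have h6 : ∑ i, y i ≤ (∑ i, r i) * (κ j * t + t * D₀) := by exact_mod_cast h5
      rw [hsumy, hsumr, h2] at h6
      have h7 : b₀ * (T.d * t * (T.g + n)) ≤ b * (T.d * t * (T.g + n)) :=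
        mul_le_mul_of_nonneg_right h3 (by positivity)
      have h8 : sB * (T.d * t) ≤ n * (b₀ + w) * (T.d * t) :=
        mul_le_mul_of_nonneg_right hsBle (by positivity)
      linarith
    have h2 := hcoh (-κ j)
    rw [hzero, ← Finset.sum_filter_add_sum_filter_not Finset.univ good] at h2
    have h4 : (((Finset.univ.filter good).filter fun i => κ i = κ j).card : ℤ) -
        M' * ((Finset.univ.filter good).filter fun i => κ j < κ i).card ≤
        ∑ i with good i, ((S.h0 (F i) (-κ j) : ℤ) - S.h1 (F i) (-κ j)) := by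
      rw [Finset.card_filter, Finset.card_filter]
      push_cast
      rw [Finset.mul_sum, ← Finset.sum_sub_distrib]
      apply Finset.sum_le_sum
      intro i hi
      have hi' : good i := (Finset.mem_filter.1 hi).2
      have hi'' := (hgood i).1 hi'
      obtain ⟨hl0, hl1⟩ := S.line (F i) (κ i) (by
          have := hr i
          rw [hi''.1] at this
          exact_mod_cast this.symm) (by
          rw [← hz, ← he]
          exact hi''.2.1) (hκ i hi') (-κ j)
      rw [hl0, hl1]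
      rcases lt_trichotomy (κ i) (κ j) with h | h | h
      · rw [if_neg h.ne, if_neg h.not_gt, S.l0_ne _ (by omega), S.l1_neg _ (by omega)]
        simp
      · rw [if_pos h, if_neg (by omega), h, add_neg_cancel, S.l0_zero, S.l1_zero]
        simp
      · rw [if_neg h.ne', if_pos h, S.l0_ne _ (by omega)]
        have := hM' (κ i + -κ j) (by
          have := hκgap i j hi' hj
          omega)
        push_cast
        have h9 : (S.l1 (κ i + -κ j) : ℤ) ≤ M' := by exact_mod_cast this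
        linarith
    have h5 : -((M : ℤ) * R₁) ≤
        ∑ i with ¬ good i, ((S.h0 (F i) (-κ j) : ℤ) - S.h1 (F i) (-κ j)) := by
      have h6 : ∀ i ∈ Finset.univ.filter (fun i => ¬ good i),
          -(M : ℤ) ≤ (S.h0 (F i) (-κ j) : ℤ) - S.h1 (F i) (-κ j) := by
        intro i hi
        have hi' : ¬ good i := (Finset.mem_filter.1 hi).2
        obtain ⟨b1, b2, b3, b4, b5⟩ := sp_bd t q (r i) (x i) (y i) (z i) (e i) (-κ j) c D₀ R
          ht0 hq0 (hrpos i) hc (hH i) (hΔ i) (by positivity) (by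
            rw [← hEdef]
            exact hEi i) (hXr i hi') (by
            rw [← hμ]
            have e1 := hμgap i j
            have e2 := hμgap j i
            rw [hgμ j hj] at e1 e2
            rw [abs_le]
            push_cast
            constructor <;> linarith) D (by linarith) (by linarith) (by linarith) (by linarith)
        rw [hr] at b1 b2 b4 b5
        rw [hz, he] at b2
        rw [hx] at b3 b5
        rw [hy] at b4
        rw [hz] at b5
        have h7 := hM (F i) (-κ j) (hst i) b1 b2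
          (by
            simp only [map_add, LinearMap.add_apply, map_zsmul, LinearMap.smul_apply, S.sq,
              smul_zero, add_zero]
            exact b3)
          (by
            simp only [map_add, LinearMap.add_apply, map_zsmul, LinearMap.smul_apply, ← ht,
              smul_eq_mul]
            exact b4)
          (by
            simp only [map_add, LinearMap.add_apply, map_zsmul, LinearMap.smul_apply, S.sq,
              smul_eq_mul, S.symm S.N₀]
            linarith)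
        have h8 : (S.h1 (F i) (-κ j) : ℤ) ≤ M := by exact_mod_cast h7
        have h9 : 0 ≤ (S.h0 (F i) (-κ j) : ℤ) := by positivity
        linarith
      have h7 := Finset.card_nsmul_le_sum _ _ _ h6
      refine le_trans ?_ h7
      rw [nsmul_eq_mul]
      have h8 : ((Finset.univ.filter fun i => ¬ good i).card : ℤ) ≤ R₁ := by
        exact_mod_cast hXcard
      have h9 : (M : ℤ) * ((Finset.univ.filter fun i => ¬ good i).card : ℤ) ≤ M * R₁ :=
        mul_le_mul_of_nonneg_left h8 (by positivity)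
      linarith
    have h6 : (((Finset.univ.filter good).filter fun i => κ i = κ j).card : ℤ) ≤
        M' * ((Finset.univ.filter good).filter fun i => κ j < κ i).card + M * R₁ := by
      have h2' := h2
      push_cast at h2'
      linarith
    exact_mod_cast h6
  have hAcard : (Finset.univ.filter good).card ≤
      (M * R₁) * (2 * D₀ + 1) * (1 + M') ^ (2 * D₀ + 1) := by
    rcases (Finset.univ.filter good).eq_empty_or_nonempty with h | ⟨j, hj⟩
    · rw [h]
      simp
    · have hj' : good j := (Finset.mem_filter.1 hj).2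
      refine sp_count _ κ (κ j - D₀) (2 * D₀) (M * R₁) M' ?_ hcount
      intro i hi
      have hi' : good i := (Finset.mem_filter.1 hi).2
      have h1 := hκgap i j hi' hj'
      have h2 := hκgap j i hj' hi'
      push_cast
      constructor <;> omega
  have : n ≤ (Finset.univ.filter good).card + R₁ := by
    have : (n : ℤ) ≤ ((Finset.univ.filter good).card : ℤ) + R₁ := by omega
    exact_mod_cast this
  omega

/-- Theorem S, with the discriminant bound from `Surface.bogomolov` -/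
theorem Test.sparse_bad {G Sf : Type} [AddCommGroup G] {S : Surface G Sf} {Bad : ℤ → Prop}
    (T : Test G Sf S Bad) : Sparse Bad := by
  obtain ⟨c, hc, hS⟩ := S.bogomolov
  exact T.sparse c hc hS

end Pool.Agent.H76.V
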