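import Mathlib

/-!
# Sections of unitary bundles on a simply connected surface (MP_5ee2d0, Theorem V, step 1)
-/

namespace Pool.Agent.H76.V

open MeasureTheory

/-- the square of the Hilbert-Schmidt norm -/
noncomputable def hs {R : ℕ} (A : Matrix (Fin R) (Fin R) ℂ) : ℝ := ∑ i, ∑ j, ‖A i j‖ ^ 2

/-- the square of the Hilbert-Schmidt distance -/
noncomputable def dist2 {R : ℕ} (U U' : Matrix.unitaryGroup (Fin R) ℂ) : ℝ :=
  hs ((U : Matrix (Fin R) (Fin R) ℂ) - (U' : Matrix (Fin R) (Fin R) ℂ))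

/-- the pointwise hermitian product of sections of `E` and of `E ⊗ K_S` -/
noncomputable def pair {R : ℕ} (w u : Fin R → ℂ) : ℂ := ∑ r, star (w r) * u r

/-- A smooth projective simply connected surface `S` with a Kähler metric and a covering by finitely
many small convex balls. Unitary frames of the bundles of forms are chosen at all points, depending
on the point in a measurable way. -/
structure Atlas where
  /-- the points of `S` -/
  Ω : Type
  [meas : MeasurableSpace Ω]
  /-- the Riemannian volume -/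
  μ : Measure Ω
  [fin : IsFiniteMeasure μ]
  /-- the number of balls -/
  v : ℕ
  B : Fin v → Set Ω
  meas_B : ∀ a, MeasurableSet (B a)
  /-- pairs of balls (not necessarily distinct) which meet -/
  adj : Finset (Fin v × Fin v)
  disj : ∀ a a', (a, a') ∉ adj → B a ∩ B a' = ∅
  /-- triples of balls (not necessarily distinct) which are contained in a convex ball -/
  tri : Finset (Fin v × Fin v × Fin v)
  /-- a path in the nerve from a fixed ball to the given ball -/
  path : Fin v → FreeGroup (Fin v × Fin v)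
  /-- `S` is simply connected, so closed paths are products of conjugates of triangles (degenerate
  triangles give backtracks) -/
  simply : ∀ e ∈ adj, (path e.2)⁻¹ * FreeGroup.of e * path e.1 ∈
    Subgroup.normalClosure {w | ∃ t ∈ tri, w = (FreeGroup.of (t.1, t.2.2))⁻¹ *
      FreeGroup.of (t.2.1, t.2.2) * FreeGroup.of (t.1, t.2.1)}
  /-- a constant -/
  C : ℝ
  C_pos : 0 < C
  /-- a partition of unity -/
  χ : Fin v → Ω → ℝ
  meas_χ : ∀ a, Measurable (χ a)
  χ_nonneg : ∀ a q, 0 ≤ χ a q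
  χ_sum : ∀ q, ∑ a, χ a q = 1
  χ_supp : ∀ a, ∀ q ∉ B a, χ a q = 0
  /-- the `(1,0)`-parts of the differentials of the `χ a` -/
  dχ : Fin v → Fin 2 → Ω → ℂ
  meas_dχ : ∀ a l, Measurable (dχ a l)
  dχ_le : ∀ a l q, ‖dχ a l q‖ ≤ C
  dχ_sum : ∀ l q, ∑ a, dχ a l q = 0
  dχ_supp : ∀ a l, ∀ q ∉ B a, dχ a l q = 0
  /-- the geometric genus -/
  pg : ℕ
  /-- an orthonormal basis of `H^0(S, K_S)` -/
  ω : Fin pg → Ω → ℂ
  meas_ω : ∀ j, Measurable (ω j)
  bdd_ω : ∃ M, ∀ j q, ‖ω j q‖ ≤ M
  norm_ω : ∀ j, ∫ q, ‖ω j q‖ ^ 2 ∂μ = 1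
  /-- the constant for the Bergman kernels -/
  b : ℝ
  b_pos : 0 < b
  /-- the spectral gap of the Dolbeault operator on sections of `K_S` -/
  lam : ℝ
  lam_pos : 0 < lam

attribute [instance] Atlas.meas Atlas.fin

/-- Unitary maps `U_a` from the fibre over the first centre to the fibres over the other centres and
the radial parallel transports `Q a` in the balls give the map `T = Σ χ_a Q_a U_a` -/
noncomputable def Atlas.T (A : Atlas) {R : ℕ}
    (Q : Fin A.v → A.Ω → Matrix.unitaryGroup (Fin R) ℂ)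
    (U : Fin A.v → Matrix.unitaryGroup (Fin R) ℂ) (q : A.Ω) : Matrix (Fin R) (Fin R) ℂ :=
  ∑ a, (A.χ a q : ℂ) • ((Q a q * U a : Matrix.unitaryGroup (Fin R) ℂ) : Matrix (Fin R) (Fin R) ℂ)

/-- the `(1,0)`-part of the covariant derivative of `T`, if `dQ` is that of `Q` -/
noncomputable def Atlas.dT (A : Atlas) {R : ℕ}
    (Q : Fin A.v → A.Ω → Matrix.unitaryGroup (Fin R) ℂ)
    (dQ : Fin A.v → Fin 2 → A.Ω → Matrix (Fin R) (Fin R) ℂ)
    (U : Fin A.v → Matrix.unitaryGroup (Fin R) ℂ) (l : Fin 2) (q : A.Ω) :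
    Matrix (Fin R) (Fin R) ℂ :=
  ∑ a, (A.dχ a l q • ((Q a q * U a : Matrix.unitaryGroup (Fin R) ℂ) : Matrix (Fin R) (Fin R) ℂ) +
    (A.χ a q : ℂ) • (dQ a l q * (U a : Matrix (Fin R) (Fin R) ℂ)))

end Pool.Agent.H76.V
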