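import Mathlib

/-!
# Peeling (MP_5ee2d0, Theorem V, step 3): negative definite matrices with entries `≥ 0` off the diagonal
-/

namespace Pool.Agent.H76.V

/-- peeling -/
theorem exists_peel {ι : Type} [Fintype ι] [DecidableEq ι] (M : ι → ι → ℤ)
    (hs : ∀ i j, M i j = M j i) (hoff : ∀ i j, i ≠ j → 0 ≤ M i j)
    (hneg : ∀ n : ι → ℤ, n ≠ 0 → ∑ i, ∑ j, n i * n j * M i j < 0) (μ : ι → ℤ) (E₁ : ι → ℕ) :
    ∃ E' : ι → ℕ, E₁ ≤ E' ∧ ∀ E : ι → ℕ, E' ≤ E → E ≠ E' →
      ∃ j, E' j < E j ∧ ∑ i, (E i : ℤ) * M i j < μ j := by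
  classical
  set B : Matrix ι ι ℤ := Matrix.of fun i j => -M i j with hB
  have hmv : ∀ (y : ι → ℤ) i, B.mulVec y i = -∑ j, M i j * y j := by
    intro y i
    simp [Matrix.mulVec, dotProduct, hB]
  have hdet : B.det ≠ 0 := by
    intro h
    obtain ⟨v, hv, hv0⟩ := Matrix.exists_mulVec_eq_zero_iff.mpr h
    have h1 := hneg v hv
    have h2 : ∑ i, ∑ j, v i * v j * M i j = 0 := by
      refine Finset.sum_eq_zero fun i _ => ?_
      have h3 := congrFun hv0 i
      rw [hmv, Pi.zero_apply, neg_eq_zero] at h3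
      calc ∑ j, v i * v j * M i j = v i * ∑ j, M i j * v j := by
            rw [Finset.mul_sum]
            exact Finset.sum_congr rfl fun j _ => by ring
        _ = 0 := by rw [h3, mul_zero]
    rw [h2] at h1
    exact lt_irrefl _ h1
  have key : ∀ y : ι → ℤ, (∀ i, 0 ≤ B.mulVec y i) → ∀ i, 0 ≤ y i := by
    intro y hy
    by_contra hcon
    push Not at hcon
    obtain ⟨i₀, hi₀⟩ := hcon
    set n : ι → ℤ := fun i => max (-(y i)) 0 with hn
    have hn0 : n ≠ 0 := by
      intro h
      have h4 := congrFun h i₀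
      simp only [hn, Pi.zero_apply] at h4
      have h5 : -(y i₀) ≤ 0 := h4 ▸ le_max_left _ _
      linarith
    have h1 := hneg n hn0
    have hnn : ∀ i, 0 ≤ n i := fun i => le_max_right _ _
    have hny : ∀ i, -(y i) ≤ n i := fun i => le_max_left _ _
    have hnz : ∀ i, n i * (n i + y i) = 0 := by
      intro i
      rcases le_total (-(y i)) 0 with h | h
      · have : n i = 0 := max_eq_right h
        rw [this, zero_mul]
      · have : n i = -(y i) := max_eq_left h
        rw [this]
        ring
    have h2 : ∑ i, n i * B.mulVec y i ≤ ∑ i, ∑ j, n i * n j * M i j := by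
      refine Finset.sum_le_sum fun i _ => ?_
      rw [hmv, mul_neg, Finset.mul_sum, ← Finset.sum_neg_distrib]
      refine Finset.sum_le_sum fun j _ => ?_
      have e : n i * n j * M i j - -(n i * (M i j * y j)) = n i * (n j + y j) * M i j := by ring
      have h6 : 0 ≤ n i * (n j + y j) * M i j := by
        rcases eq_or_ne i j with rfl | hij
        · rw [hnz, zero_mul]
        · exact mul_nonneg (mul_nonneg (hnn i) (by linarith [hny j])) (hoff i j hij)
      linarith
    have h3 : 0 ≤ ∑ i, n i * B.mulVec y i :=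
      Finset.sum_nonneg fun i _ => mul_nonneg (hnn i) (hy i)
    linarith
  set w : ι → ℤ := fun j => |μ j| + |B.mulVec (fun i => (E₁ i : ℤ)) j| with hw
  set v : ι → ℤ := B.det.sign • B.adjugate.mulVec w with hv
  have hBv : ∀ j, B.mulVec v j = |B.det| * w j := by
    intro j
    rw [hv, Matrix.mulVec_smul, Matrix.mulVec_mulVec, Matrix.mul_adjugate, Matrix.smul_mulVec,
      Matrix.one_mulVec]
    simp only [Pi.smul_apply, smul_eq_mul]
    rw [← mul_assoc, Int.sign_mul_self_eq_abs]
  have hd1 : 1 ≤ |B.det| := Int.one_le_abs hdet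
  have hwn : ∀ j, 0 ≤ w j := fun j => add_nonneg (abs_nonneg _) (abs_nonneg _)
  have hge : ∀ j, w j ≤ B.mulVec v j := fun j => by
    rw [hBv]
    exact le_mul_of_one_le_left (hwn j) hd1
  have hvE : ∀ j, (E₁ j : ℤ) ≤ v j := by
    intro j
    have h1 := key (fun i => v i - E₁ i) (fun i => by
      have h2 : B.mulVec (fun i => v i - (E₁ i : ℤ)) i =
          B.mulVec v i - B.mulVec (fun i => (E₁ i : ℤ)) i := by
        rw [hmv, hmv, hmv]
        simp only [mul_sub, Finset.sum_sub_distrib]
        ring
      rw [h2]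
      have h3 := hge i
      have h4 := le_abs_self (B.mulVec (fun i => (E₁ i : ℤ)) i)
      have h5 := abs_nonneg (μ i)
      simp only [hw] at h3
      linarith) j
    linarith
  refine ⟨fun j => (v j).toNat, fun j => ?_, fun E hE hne => ?_⟩
  · have := hvE j
    show E₁ j ≤ (v j).toNat
    omega
  · have hcast : ∀ j, ((v j).toNat : ℤ) = v j := fun j =>
      Int.toNat_of_nonneg (le_trans (Int.natCast_nonneg _) (hvE j))
    have hZ0 : ∀ j, v j ≤ E j := fun j => by
      have := hE j
      rw [← hcast j]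
      exact_mod_cast this
    have hZne : (fun j => (E j : ℤ) - v j) ≠ 0 := by
      intro h
      apply hne
      funext j
      have := congrFun h j
      simp only [Pi.zero_apply] at this
      have h7 := hcast j
      show E j = (v j).toNat
      omega
    have h1 := hneg _ hZne
    have h2 : ∃ j, ((E j : ℤ) - v j) * ∑ i, ((E i : ℤ) - v i) * M i j < 0 := by
      by_contra hcon
      push Not at hcon
      have h3 : 0 ≤ ∑ j, ((E j : ℤ) - v j) * ∑ i, ((E i : ℤ) - v i) * M i j :=
        Finset.sum_nonneg fun j _ => hcon j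
      have h4 : ∑ j, ((E j : ℤ) - v j) * ∑ i, ((E i : ℤ) - v i) * M i j =
          ∑ i, ∑ j, ((E i : ℤ) - v i) * ((E j : ℤ) - v j) * M i j := by
        rw [Finset.sum_comm]
        refine Finset.sum_congr rfl fun j _ => ?_
        rw [Finset.mul_sum]
        exact Finset.sum_congr rfl fun i _ => by ring
      rw [h4] at h3
      linarith
    obtain ⟨j, hj⟩ := h2
    have hZj : 0 ≤ (E j : ℤ) - v j := by linarith [hZ0 j]
    have hpos : 0 < (E j : ℤ) - v j := by
      rcases hZj.eq_or_lt with h | h
      · rw [← h, zero_mul] at hj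
        exact absurd hj (lt_irrefl _)
      · exact h
    have hMZ : ∑ i, ((E i : ℤ) - v i) * M i j < 0 := by
      by_contra hcon
      push Not at hcon
      exact absurd hj (not_lt.mpr (mul_nonneg hZj hcon))
    refine ⟨j, ?_, ?_⟩
    · have h7 := hcast j
      show (v j).toNat < E j
      omega
    · have h8 : ∑ i, (E i : ℤ) * M i j =
          ∑ i, ((E i : ℤ) - v i) * M i j - B.mulVec v j := by
        rw [hmv, sub_neg_eq_add, ← Finset.sum_add_distrib]
        refine Finset.sum_congr rfl fun i _ => ?_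
        rw [hs j i]
        ring
      have h9 := hge j
      have h10 := neg_abs_le (μ j)
      have h11 := abs_nonneg (B.mulVec (fun i => (E₁ i : ℤ)) j)
      simp only [hw] at h9
      rw [h8]
      linarith

end Pool.Agent.H76.V
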