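import Pool.Agent.H76.V.Sheaves
import Pool.Agent.H76.V.Sparse
import Pool.Agent.H76.V.Peel

/-!
# From threefolds to surfaces (MP_5ee2d0, Theorem V, step 3)
-/

open CategoryTheory CategoryTheory.Limits CategoryTheory.Abelian

namespace Pool.Agent.H76.V

section Cal

lemma Sparse.mono {A B : ℤ → Prop} (h : Sparse B) (b1 : ℤ) (hAB : ∀ b, b1 ≤ b → A b → B b) :
    Sparse A := by
  obtain ⟨n₀, hn⟩ := h
  refine ⟨n₀, fun w => ?_⟩
  obtain ⟨β, hβ⟩ := hn w
  refine ⟨max β b1, fun b₀ hb₀ B' hB' => hβ b₀ ((le_max_left _ _).trans hb₀) B' ?_⟩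
  intro b hb
  obtain ⟨h1, h2, h3⟩ := hB' b hb
  exact ⟨hAB b (((le_max_right _ _).trans hb₀).trans h2) h1, h2, h3⟩

lemma Sparse.union {A B : ℤ → Prop} (hA : Sparse A) (hB : Sparse B) :
    Sparse fun b => A b ∨ B b := by
  classical
  obtain ⟨n₀, hn⟩ := hA
  obtain ⟨m₀, hm⟩ := hB
  refine ⟨n₀ + m₀, fun w => ?_⟩
  obtain ⟨β, hβ⟩ := hn w
  obtain ⟨γ, hγ⟩ := hm w
  refine ⟨max β γ, fun b₀ hb₀ B' hB' => ?_⟩
  have h1 := hβ b₀ ((le_max_left _ _).trans hb₀) (B'.filter A) (by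
    intro b hb
    obtain ⟨h1, h2⟩ := Finset.mem_filter.1 hb
    exact ⟨h2, (hB' b h1).2⟩)
  have h2 := hγ b₀ ((le_max_right _ _).trans hb₀) (B'.filter fun b => ¬ A b) (by
    intro b hb
    obtain ⟨h1, h2⟩ := Finset.mem_filter.1 hb
    exact ⟨(hB' b h1).1.resolve_left h2, (hB' b h1).2⟩)
  have h3 := Finset.card_filter_add_card_filter_not (s := B') A
  omega

end Cal

namespace Sheaves

variable {C P ι : Type} [Category.{0} C] [Abelian C] [HasExt.{0} C] [AddCommGroup P]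
    [Fintype ι] [DecidableEq ι] (X : Sheaves C P ι)

lemma up_up {F : C} {E E' E'' : ι → ℕ} (h1 : E ≤ E') (h2 : E' ≤ E'') {b : ℤ}
    (e : Ext F (X.L E b) 1) : X.up h2 (X.up h1 e) = X.up (h1.trans h2) e := by
  unfold up
  rw [Ext.comp_assoc_of_third_deg_zero, Ext.mk₀_comp_mk₀, X.s_comp]

lemma upS_upS {F : C} {m : ℕ} {E E' E'' : ι → ℕ} (h1 : E ≤ E') (h2 : E' ≤ E'') {b : ℤ}
    (e : Ext F (X.LS F m E b) 1) : X.upS h2 (X.upS h1 e) = X.upS (h1.trans h2) e := by
  unfold upS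
  rw [Ext.comp_assoc_of_third_deg_zero, Ext.mk₀_comp_mk₀, X.sS_comp]

lemma res_up {F : C} (m : ℕ) {E E' : ι → ℕ} (h1 : E ≤ E') {b : ℤ}
    (e : Ext F (X.L E b) 1) : X.res m (X.up h1 e) = X.upS h1 (X.res m e) := by
  unfold res up upS
  rw [Ext.comp_assoc_of_third_deg_zero, Ext.comp_assoc_of_third_deg_zero, Ext.mk₀_comp_mk₀,
    Ext.mk₀_comp_mk₀, X.r_comp]

/-- semistable of slope zero, `c_1 x = 0` and `ch_2 x = 0` -/
def Flat (F : C) : Prop := X.Semi F ∧ (∀ z, X.T X.x z (X.c1 F) = 0) ∧ X.ch F = 0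

/-- peeling: multiplication with sections is injective above `E'` -/
lemma peeling {F : C} {m : ℕ} {E' : ι → ℕ} {b : ℤ}
    (hstep : ∀ E : ι → ℕ, E' ≤ E → E ≠ E' → ∃ (j : ι) (E₀ : ι → ℕ) (h0 : E₀ ≤ E), E' ≤ E₀ ∧
      E = E₀ + Pi.single j 1 ∧ ∀ f : Ext F (X.LS F m E₀ b) 1, X.upS h0 f = 0 → f = 0) :
    ∀ (n : ℕ) (E : ι → ℕ) (hE : E' ≤ E), ∑ i, E i = ∑ i, E' i + n →
      ∀ f : Ext F (X.LS F m E' b) 1, X.upS hE f = 0 → f = 0 := by
  intro n
  induction n with
  | zero =>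
    intro E hE hn f hf
    have h1 : E = E' := by
      by_contra hne
      obtain ⟨j, hj⟩ : ∃ j, E' j < E j := by
        by_contra hcon
        push Not at hcon
        exact hne (le_antisymm hcon hE)
      have := Finset.sum_lt_sum (s := Finset.univ) (fun i _ => hE i) ⟨j, Finset.mem_univ j, hj⟩
      omega
    subst h1
    have h2 : X.upS (le_refl E) f = f := by
      unfold upS
      rw [X.sS_id, Ext.comp_mk₀_id]
    rw [← h2]
    exact hf
  | succ n ih =>
    intro E hE hn f hf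
    have hne : E ≠ E' := by
      intro h
      rw [h] at hn
      omega
    obtain ⟨j, E₀, h0, h1, h2, h3⟩ := hstep E hE hne
    refine ih E₀ h1 ?_ f ?_
    · have h4 : ∑ i, E i = ∑ i, E₀ i + 1 := by
        rw [h2]
        simp [Finset.sum_add_distrib]
      omega
    · apply h3
      rw [X.upS_upS]
      exact hf

/-- the numbers of the elementary transformation exclude a destabilising quotient on `S` -/
lemma restriction (F : C) (hc : ∀ z, X.T X.x z (X.c1 F) = 0) (hch : X.ch F = 0) (m : ℤ)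
    (s : ℤ) (n : ℕ) (A : Fin n → C) (hA : ∀ i, X.Semi (A i))
    (hr : 0 < ∑ i, X.rk (A i)) (h1 : ∑ i, X.c1 (A i) = X.c1 F - (s * m) • X.h)
    (h2 : X.ch F + s * m ^ 2 * X.T X.x X.h X.h ≤ ∑ i, X.ch (A i))
    (h3 : ∀ i, -(m * X.T X.x X.h X.h * X.rk (A i)) < X.T X.x X.h (X.c1 (A i)))
    (h4 : ∀ i, X.T X.x X.h (X.c1 (A i)) < 0) : False := by
  obtain ⟨d, hd⟩ : ∃ d, d = X.T X.x X.h X.h := ⟨_, rfl⟩
  have hd0 : 0 < d := by rw [hd]; exact X.pos
  have key : ∀ i, X.ch (A i) < -(m * X.T X.x X.h (X.c1 (A i))) := by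
    intro i
    obtain ⟨l, hl⟩ : ∃ l, l = X.T X.x X.h (X.c1 (A i)) := ⟨_, rfl⟩
    obtain ⟨r, hr⟩ : ∃ r, r = X.rk (A i) := ⟨_, rfl⟩
    have k1 := X.bogomolov _ (hA i)
    have k2 := X.hodge (X.c1 (A i))
    have k3 := X.rk_pos _ (hA i)
    have k4 := h3 i
    have k5 := h4 i
    rw [← hd, ← hl, ← hr] at *
    have k6 : d * (r * X.ch (A i)) ≤ l ^ 2 := by nlinarith
    have k7 : l ^ 2 < m * d * r * (-l) := by nlinarith
    have k8 : d * r * X.ch (A i) < d * r * (-(m * l)) := by nlinarith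
    exact lt_of_mul_lt_mul_left k8 (by positivity)
  have hne : (Finset.univ : Finset (Fin n)).Nonempty := by
    by_contra hcon
    rw [Finset.not_nonempty_iff_eq_empty] at hcon
    rw [hcon, Finset.sum_empty] at hr
    exact lt_irrefl _ hr
  have k1 : ∑ i, X.ch (A i) < ∑ i, -(m * X.T X.x X.h (X.c1 (A i))) :=
    Finset.sum_lt_sum_of_nonempty hne fun i _ => key i
  have k2 : ∑ i, -(m * X.T X.x X.h (X.c1 (A i))) = -(m * X.T X.x X.h (∑ i, X.c1 (A i))) := by
    rw [map_sum, Finset.mul_sum, Finset.sum_neg_distrib]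
  rw [k2, h1, map_sub, map_smul, hc, smul_eq_mul, ← hd] at k1
  rw [hch, ← hd] at h2
  nlinarith

end Sheaves

namespace Sheaves

variable {C P ι : Type} [Category.{0} C] [Abelian C] [HasExt.{0} C] [AddCommGroup P]
    [Fintype ι] [DecidableEq ι] (X : Sheaves C P ι)

/-- for few `b` there is a class in `Ext^1(F, O(E₁ - b x))` which is not killed in
`Ext^1(F, O(E₂ - b x))` -/
def Few (F : C) (E₁ E₂ : ι → ℕ) (hE : E₁ ≤ E₂) : Prop :=
  Sparse fun b => ∃ e : Ext F (X.L E₁ b) 1, X.up hE e ≠ 0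

lemma stable_case (R : Surfaces X) (F : C) (hF : X.Flat F) (hst : X.Stable F) (E₁ : ι → ℕ) :
    ∃ (E₂ : ι → ℕ) (hE : E₁ ≤ E₂), X.Few F E₁ E₂ hE := by
  obtain ⟨hse, hc, hch⟩ := hF
  obtain ⟨a, ha⟩ := X.deg_ge F hse
  obtain ⟨E', h1, h2⟩ := exists_peel (fun i j => X.T X.h (X.cl i) (X.cl j)) (fun _ _ => X.symm _ _ _) X.off X.neg
    (fun j => -(a * X.T X.h X.h (X.cl j))) E₁
  obtain ⟨m₀, hm₀⟩ := X.fujita F hse E'
  obtain ⟨m, hm⟩ : ∃ m, m = max m₀ 1 := ⟨_, rfl⟩
  have hm1 : 0 < m := by rw [hm]; exact lt_of_lt_of_le one_pos (le_max_right _ _)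
  have hm2 : m₀ ≤ m := by rw [hm]; exact le_max_left _ _
  refine ⟨E', h1, ?_⟩
  -- peeling on the surface
  have hpeel : ∀ (b : ℤ) (E : ι → ℕ) (hE : E' ≤ E) (f : Ext F (X.LS F m E' b) 1),
      X.upS hE f = 0 → f = 0 := by
    intro b E hE f hf
    obtain ⟨n, hn⟩ : ∃ n, ∑ i, E i = ∑ i, E' i + n :=
      ⟨∑ i, E i - ∑ i, E' i, by
        have := Finset.sum_le_sum (s := Finset.univ) fun i _ => hE i
        omega⟩
    refine X.peeling ?_ n E hE hn f hf
    intro D hD hne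
    obtain ⟨j, hj1, hj2⟩ := h2 D hD hne
    obtain ⟨E₀, hE₀⟩ : ∃ E₀, E₀ = D - Pi.single j 1 := ⟨_, rfl⟩
    have hj3 : (Pi.single j 1 : ι → ℕ) ≤ D := by
      intro i
      by_cases hij : i = j
      · subst hij
        have : 1 ≤ D i := by omega
        simpa using this
      · rw [Pi.single_eq_of_ne hij]
        exact Nat.zero_le _
    have hD1 : D = E₀ + Pi.single j 1 := by
      rw [hE₀, tsub_add_cancel_of_le hj3]
    have hD2 : E₀ ≤ D := by
      rw [hE₀]
      exact tsub_le_self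
    have hD3 : E' ≤ E₀ := by
      intro i
      have h3 : E' i ≤ D i := hD i
      have h4 : D i = E₀ i + (Pi.single j 1 : ι → ℕ) i := congrFun hD1 i
      by_cases hij : i = j
      · subst hij
        rw [Pi.single_eq_same] at h4
        have : E' i ≤ E₀ i := by omega
        exact this
      · rw [Pi.single_eq_of_ne hij] at h4
        have : E' i ≤ E₀ i := by omega
        exact this
    refine ⟨j, E₀, hD2, hD3, hD1, fun g hg => ?_⟩
    obtain ⟨w, hse'⟩ := X.exact F m E₀ D j hD2 b hm1 hD1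
    obtain ⟨y, hy⟩ := Ext.covariant_sequence_exact₁ F hse' g hg (n₀ := 0) (by norm_num)
    obtain ⟨φ, rfl⟩ := (Ext.mk₀_bijective F _).2 y
    have hφ : φ = 0 := by
      by_contra hφ
      have hZ : ¬ IsZero (Limits.image φ) := by
        intro hZ
        apply hφ
        rw [← Limits.image.fac φ, hZ.eq_of_tgt (factorThruImage φ) 0, zero_comp]
      have hd1 := ha m D j b (Limits.image φ) (factorThruImage φ) (Limits.image.ι φ) inferInstance
        inferInstance hZ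
      have hd2 := X.deg_le F m D j b (Limits.image φ) (Limits.image.ι φ) inferInstance hZ
      have h3 : (m : ℤ) * ∑ i, (D i : ℤ) * X.T X.h (X.cl i) (X.cl j) <
          m * (-(a * X.T X.h X.h (X.cl j))) :=
        mul_lt_mul_of_pos_left hj2 (by exact_mod_cast hm1)
      have h4 : -(a * ((m : ℤ) * X.T X.h X.h (X.cl j))) = m * (-(a * X.T X.h X.h (X.cl j))) := by
        ring
      rw [h4] at hd1
      linarith
    rw [← hy, hφ, Ext.mk₀_zero, Ext.zero_comp]
  rcases R.restr F hse hst hc m hm1 E₁ with ⟨G, Sf, _, S, ⟨t⟩⟩ | ⟨s, n, A, -, hs, hA, k1, k2, k3, k4, k5⟩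
  · obtain ⟨c, hc0, hc1⟩ := S.bogomolov
    refine Sparse.mono (t.sparse c hc0 hc1) 0 fun b hb he => ?_
    obtain ⟨e, he⟩ := he
    refine ⟨X.res m e, fun D hD hD0 => he ?_⟩
    have h3 : X.upS h1 (X.res m e) = 0 := by
      apply hpeel b (D ⊔ E') le_sup_right
      rw [X.upS_upS]
      have h4 : X.upS (hD.trans (le_sup_left : D ≤ D ⊔ E')) (X.res m e) = 0 := by
        rw [← X.upS_upS hD le_sup_left, hD0]
        unfold upS
        rw [Ext.zero_comp]
      exact h4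
    rw [← X.res_up] at h3
    obtain ⟨i, w, hse'⟩ := X.ker F m E' b hm1
    obtain ⟨k, hk⟩ := Ext.covariant_sequence_exact₂ F hse' (X.up h1 e) h3
    rw [← hk, hm₀ m hm2 b hb k, Ext.zero_comp]
  · exfalso
    exact X.restriction F hc hch m s n A hA (by rw [k1]; exact X.rk_pos F hse) k2 k3 k4 k5

/-- the factors of a flat sheaf are flat -/
lemma flat_factors (S : ShortComplex C) (hS : S.ShortExact) (h2 : X.Flat S.X₂)
    (h1 : X.Semi S.X₁) (h3 : X.Semi S.X₃) (h0 : X.T X.x X.h (X.c1 S.X₁) = 0) :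
    X.Flat S.X₁ ∧ X.Flat S.X₃ := by
  obtain ⟨-, hc, hch⟩ := h2
  obtain ⟨-, a2, a3⟩ := X.add S hS
  have h0' : X.T X.x X.h (X.c1 S.X₃) = 0 := by
    have := hc X.h
    rw [a2, map_add, h0, zero_add] at this
    exact this
  have key : ∀ F, X.Semi F → X.T X.x X.h (X.c1 F) = 0 → X.ch F ≤ 0 ∧
      (X.ch F = 0 → X.T X.x (X.c1 F) (X.c1 F) = 0) := by
    intro F hF hF0
    have b1 := X.bogomolov F hF
    have b2 := X.hodge (X.c1 F)
    rw [hF0] at b2
    have b3 := X.rk_pos F hF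
    have b4 := X.pos
    have b5 : X.T X.x (X.c1 F) (X.c1 F) ≤ 0 := by nlinarith
    refine ⟨by nlinarith, fun h => ?_⟩
    rw [h, mul_zero] at b1
    exact le_antisymm b5 b1
  obtain ⟨u1, u2⟩ := key _ h1 h0
  obtain ⟨v1, v2⟩ := key _ h3 h0'
  have e1 : X.ch S.X₁ = 0 := by linarith
  have e3 : X.ch S.X₃ = 0 := by linarith
  have num : ∀ v, X.T X.x X.h v = 0 → X.T X.x v v = 0 → ∀ z, X.T X.x z v = 0 := by
    intro v hv hvv z
    obtain ⟨d, hd⟩ : ∃ d, d = X.T X.x X.h X.h := ⟨_, rfl⟩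
    have hd0 : 0 < d := by rw [hd]; exact X.pos
    -- `w = d z - (x h z) h` is orthogonal to `h`
    obtain ⟨w, hw⟩ : ∃ w, w = d • z - X.T X.x X.h z • X.h := ⟨_, rfl⟩
    have hwv : X.T X.x w v = d * X.T X.x z v := by
      rw [hw, map_sub, map_smul, map_smul]
      simp only [LinearMap.sub_apply, LinearMap.smul_apply, smul_eq_mul, hv]
      ring
    have hwh : X.T X.x X.h w = 0 := by
      rw [hw, map_sub, map_smul, map_smul, smul_eq_mul, smul_eq_mul, ← hd]
      ring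
    have hq : ∀ N : ℤ, X.T X.x w w + 2 * N * X.T X.x w v ≤ 0 := by
      intro N
      have g1 := X.hodge (w + N • v)
      have g2 : X.T X.x X.h (w + N • v) = 0 := by
        rw [map_add, map_smul, hwh, hv, smul_zero, add_zero]
      have g3 : X.T X.x (w + N • v) (w + N • v) = X.T X.x w w + 2 * N * X.T X.x w v := by
        simp only [map_add, map_smul, LinearMap.add_apply, LinearMap.smul_apply, smul_eq_mul, hvv]
        rw [X.symm X.x v w]
        ring
      rw [g2, g3, ← hd] at g1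
      nlinarith
    have hz : X.T X.x w v = 0 := by
      by_contra hne
      obtain ⟨t, ht⟩ : ∃ t, t = X.T X.x w v := ⟨_, rfl⟩
      obtain ⟨u, hu⟩ : ∃ u, u = X.T X.x w w := ⟨_, rfl⟩
      rw [← ht, ← hu] at hq
      rw [← ht] at hne
      have g1 := hq ((|u| + 1) * t)
      have g2 : 1 ≤ t * t := by
        rcases lt_or_gt_of_ne hne with h | h <;> nlinarith
      have g3 := neg_abs_le u
      have g4 := abs_nonneg u
      nlinarith
    rw [hwv] at hz
    exact (mul_eq_zero.1 hz).resolve_left hd0.ne'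
  exact ⟨⟨h1, num _ h0 (u2 e1), e1⟩, ⟨h3, num _ h0' (v2 e3), e3⟩⟩

/-- (A): classes in `Ext^1(F, O(E₁ - b x))` are killed by a section of `O(E₂ - E₁)`, except for a
sparse set of `b` -/
theorem few (R : Surfaces X) : ∀ (n : ℕ) (F : C), X.rk F ≤ n → X.Flat F → ∀ E₁ : ι → ℕ,
    ∃ (E₂ : ι → ℕ) (hE : E₁ ≤ E₂), X.Few F E₁ E₂ hE := by
  intro n
  induction n with
  | zero =>
    intro F hr hF
    have := X.rk_pos F hF.1
    exfalso
    push_cast at hr
    linarith
  | succ n ih =>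
    intro F hr hF E₁
    rcases X.jordan F hF.1 (hF.2.1 X.h) with hst | ⟨S, hS, rfl, h1, h3, h0⟩
    · exact X.stable_case R F hF hst E₁
    · obtain ⟨f1, f3⟩ := X.flat_factors S hS hF h1 h3 h0
      obtain ⟨a1, -, -⟩ := X.add S hS
      have r1 := X.rk_pos _ h1
      have r3 := X.rk_pos _ h3
      push_cast at hr
      obtain ⟨E₂, hE₂, g1⟩ := ih S.X₁ (by linarith) f1 E₁
      obtain ⟨E₃, hE₃, g3⟩ := ih S.X₃ (by linarith) f3 E₂
      refine ⟨E₃, hE₂.trans hE₃, Sparse.mono (Sparse.union g1 g3) 0 fun b _ he => ?_⟩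
      obtain ⟨e, he⟩ := he
      by_contra hcon
      push Not at hcon
      obtain ⟨c1, c3⟩ := hcon
      have k1 : (Ext.mk₀ S.f).comp (X.up hE₂ e) (zero_add 1) = 0 := by
        have := c1 ((Ext.mk₀ S.f).comp e (zero_add 1))
        unfold up at this ⊢
        rw [Ext.comp_assoc_of_third_deg_zero] at this
        exact this
      obtain ⟨y, hy⟩ := Ext.contravariant_sequence_exact₂ hS _ (X.up hE₂ e) k1
      apply he
      rw [← X.up_up hE₂ hE₃, ← hy]
      have := c3 y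
      unfold up at this ⊢
      rw [Ext.comp_assoc_of_third_deg_zero, this, Ext.comp_zero]

end Sheaves

end Pool.Agent.H76.V
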