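import Pool.Agent.H76.V.Threefold
import Pool.Agent.H76.V.Step3

/-!
# Nef classes on Calabi-Yau threefolds (MP_5ee2d0): proofs
-/

open CategoryTheory CategoryTheory.Limits CategoryTheory.Abelian

namespace Pool.Agent.H76.CY

open Pool.Agent.H76.V

section

open Matrix

lemma act_one (v : Fin 3 → ℂ) : act 1 v = v := by simp [act]

lemma act_mul (g h : SU3) (v : Fin 3 → ℂ) : act (g * h) v = act g (act h v) := by
  simp [act, Matrix.mulVec_mulVec]

lemma act_smul (g : SU3) (c : ℂ) (v : Fin 3 → ℂ) : act g (c • v) = c • act g v := by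
  simp [act, Matrix.mulVec_smul]

/-- an element of `SU_3` with real trace has the eigenvalue one -/
lemma exists_axis (g : SU3) (h : (tr g).im = 0) : ∃ v, v ≠ 0 ∧ act g v = v := by
  obtain ⟨A, hA⟩ := g
  obtain ⟨hU, hdet⟩ := Matrix.mem_specialUnitaryGroup_iff.1 hA
  have h1 : star A * A = 1 := Matrix.mem_unitaryGroup_iff'.1 hU
  have h2 : A.adjugate = star A := by
    have h3 : A * A.adjugate = 1 := by rw [Matrix.mul_adjugate, hdet, one_smul]
    calc A.adjugate = (star A * A) * A.adjugate := by rw [h1, one_mul]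
      _ = star A := by rw [mul_assoc, h3, mul_one]
  have h3 : Matrix.det (1 - A) = 0 := by
    have h4 : Matrix.det (1 - A) = Matrix.trace (A.adjugate) - Matrix.trace A := by
      have h5 : Matrix.det (1 - A) = 1 - Matrix.trace A + Matrix.trace (A.adjugate) - A.det := by
        rw [Matrix.adjugate_fin_three, Matrix.det_fin_three, Matrix.det_fin_three]
        simp [Matrix.trace, Fin.sum_univ_three, Matrix.sub_apply]
        ring
      rw [h5, hdet]
      ring
    rw [h4, h2]
    have h5 : Matrix.trace (star A) = star (Matrix.trace A) := by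
      rw [Matrix.star_eq_conjTranspose, Matrix.trace_conjTranspose]
    rw [h5]
    have h6 : star (Matrix.trace A) = Matrix.trace A := Complex.conj_eq_iff_im.2 h
    rw [h6, sub_self]
  obtain ⟨v, hv, hv'⟩ := Matrix.exists_mulVec_eq_zero_iff.2 h3
  refine ⟨v, hv, ?_⟩
  rw [Matrix.sub_mulVec, Matrix.one_mulVec, sub_eq_zero] at hv'
  exact hv'.symm

/-- a finite group in which every element is conjugate to an element of the subgroup `K` is `K` -/
lemma eq_top_of_conj {G : Type*} [Group G] [Finite G] (K : Subgroup G)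
    (h : ∀ g : G, ∃ γ : G, γ * g * γ⁻¹ ∈ K) : K = ⊤ := by
  classical
  have := Fintype.ofFinite G
  have : Fintype (G ⧸ K) := Fintype.ofFinite _
  have : ∀ g : G, Fintype (MulAction.fixedBy (G ⧸ K) g) := fun g => Fintype.ofFinite _
  have : Fintype (Quotient (MulAction.orbitRel G (G ⧸ K))) := Fintype.ofFinite _
  have hb := MulAction.sum_card_fixedBy_eq_card_orbits_mul_card_group G (G ⧸ K)
  have ho : Fintype.card (Quotient (MulAction.orbitRel G (G ⧸ K))) = 1 := by
    rw [Fintype.card_eq_one_iff]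
    refine ⟨Quotient.mk'' ((1 : G) : G ⧸ K), fun y => ?_⟩
    induction y using Quotient.inductionOn' with
    | h y =>
      refine Quotient.sound' ?_
      exact MulAction.exists_smul_eq G ((1 : G) : G ⧸ K) y
  rw [ho, one_mul] at hb
  have h1 : ∀ g : G, 1 ≤ Fintype.card (MulAction.fixedBy (G ⧸ K) g) := by
    intro g
    obtain ⟨γ, hγ⟩ := h g
    refine Fintype.card_pos_iff.2 ⟨⟨((γ⁻¹ : G) : G ⧸ K), ?_⟩⟩
    rw [MulAction.mem_fixedBy]
    change ((g * γ⁻¹ : G) : G ⧸ K) = ((γ⁻¹ : G) : G ⧸ K)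
    rw [eq_comm, QuotientGroup.eq]
    simpa [mul_assoc] using hγ
  have h2 : Fintype.card (MulAction.fixedBy (G ⧸ K) (1 : G)) = Fintype.card (G ⧸ K) := by
    refine Fintype.card_congr ⟨fun x => x.1, fun x => ⟨x, by simp⟩,
      fun x => rfl, fun x => rfl⟩
  have h3 : Fintype.card (G ⧸ K) ≤ 1 := by
    have h4 := Finset.sum_erase_add (Finset.univ : Finset G)
      (fun g => Fintype.card (MulAction.fixedBy (G ⧸ K) g)) (Finset.mem_univ 1)
    have h5 : (Finset.univ.erase (1 : G)).card ≤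
        ∑ g ∈ Finset.univ.erase (1 : G), Fintype.card (MulAction.fixedBy (G ⧸ K) g) := by
      have := Finset.sum_le_sum (s := Finset.univ.erase (1 : G)) (fun g _ => h1 g)
      simpa using this
    rw [Finset.card_erase_of_mem (Finset.mem_univ 1), Finset.card_univ] at h5
    rw [hb, h2] at h4
    have h6 : 0 < Fintype.card G := Fintype.card_pos
    omega
  have h7 : K.index = 1 := by
    have h8 : K.index = Fintype.card (G ⧸ K) := by
      rw [Subgroup.index, Nat.card_eq_fintype_card]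
    have h9 : 0 < Fintype.card (G ⧸ K) := Fintype.card_pos
    omega
  exact Subgroup.index_eq_one.1 h7

/-- a finite subgroup of `SU_3` whose elements have real trace fixes a nonzero vector if the axes of
its nontrivial elements are conjugate -/
lemma exists_fixed (G : Subgroup SU3) [Finite G] (h1 : ∀ g ∈ G, (tr g).im = 0)
    (h2 : ∀ g ∈ G, ∀ g' ∈ G, g ≠ 1 → g' ≠ 1 → ∀ v v', v ≠ 0 → v' ≠ 0 → act g v = v →
      act g' v' = v' → ∃ γ ∈ G, ∃ c : ℂ, act γ v = c • v') :
    ∃ v, v ≠ 0 ∧ ∀ g ∈ G, act g v = v := by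
  by_cases hG : ∀ g ∈ G, g = 1
  · refine ⟨fun _ => 1, ?_, fun g hg => by rw [hG g hg, act_one]⟩
    intro h
    exact one_ne_zero (congrFun h 0)
  · push Not at hG
    obtain ⟨g0, hg0, hne⟩ := hG
    obtain ⟨v0, hv0, hv1⟩ := exists_axis g0 (h1 g0 hg0)
    let K : Subgroup G :=
      { carrier := {g | act g.1 v0 = v0}
        mul_mem' := by
          intro a b ha hb
          change act (a.1 * b.1) v0 = v0
          rw [act_mul, hb, ha]
        one_mem' := act_one v0
        inv_mem' := by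
          intro a ha
          change act (a.1)⁻¹ v0 = v0
          have h3 : act a.1 v0 = v0 := ha
          calc act (a.1)⁻¹ v0 = act (a.1)⁻¹ (act a.1 v0) := by rw [h3]
            _ = v0 := by rw [← act_mul, inv_mul_cancel, act_one] }
    have hK : K = ⊤ := by
      refine eq_top_of_conj K fun g => ?_
      by_cases h3 : g = 1
      · exact ⟨1, by rw [h3]; simp [K.one_mem]⟩
      · obtain ⟨v, hv, hv'⟩ := exists_axis g.1 (h1 g.1 g.2)
        have h4 : g.1 ≠ 1 := fun h => h3 (Subtype.ext h)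
        obtain ⟨γ, hγ, c, hc⟩ := h2 g.1 g.2 g0 hg0 h4 hne v v0 hv hv0 hv' hv1
        have hc0 : c ≠ 0 := by
          rintro rfl
          rw [zero_smul] at hc
          apply hv
          calc v = act γ⁻¹ (act γ v) := by rw [← act_mul, inv_mul_cancel, act_one]
            _ = 0 := by rw [hc]; simp [act]
        refine ⟨⟨γ, hγ⟩, ?_⟩
        change act (γ * g.1 * γ⁻¹) v0 = v0
        have h5 : v0 = c⁻¹ • act γ v := by rw [hc, smul_smul, inv_mul_cancel₀ hc0, one_smul]
        have h6 : act γ⁻¹ v0 = c⁻¹ • v := by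
          rw [h5, act_smul, ← act_mul, inv_mul_cancel, act_one]
        rw [act_mul, act_mul, h6, act_smul, act_smul, hv', ← h5]
    refine ⟨v0, hv0, fun g hg => ?_⟩
    have : (⟨g, hg⟩ : G) ∈ K := by rw [hK]; exact Subgroup.mem_top _
    exact this

end

lemma Sparse.or {A B : ℤ → Prop} (hA : Sparse A) (hB : Sparse B) : Sparse fun b => A b ∨ B b := by
  classical
  obtain ⟨n, hn⟩ := hA
  obtain ⟨k, hk⟩ := hB
  refine ⟨n + k, fun w => ?_⟩
  obtain ⟨β, hβ⟩ := hn w
  obtain ⟨γ, hγ⟩ := hk w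
  refine ⟨max β γ, fun b₀ hb S hS => ?_⟩
  have h1 := hβ b₀ ((le_max_left _ _).trans hb) (S.filter A) fun b hb' => by
    rw [Finset.mem_filter] at hb'
    exact ⟨hb'.2, (hS b hb'.1).2⟩
  have h2 := hγ b₀ ((le_max_right _ _).trans hb) (S.filter B) fun b hb' => by
    rw [Finset.mem_filter] at hb'
    exact ⟨hb'.2, (hS b hb'.1).2⟩
  have h3 : S ⊆ S.filter A ∪ S.filter B := by
    intro b hb'
    rw [Finset.mem_union, Finset.mem_filter, Finset.mem_filter]
    rcases (hS b hb').1 with h | h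
    · exact Or.inl ⟨hb', h⟩
    · exact Or.inr ⟨hb', h⟩
  have h4 := (Finset.card_le_card h3).trans (Finset.card_union_le _ _)
  omega

lemma Sparse.false : Sparse fun _ => False :=
  ⟨1, fun _ => ⟨0, fun _ _ B hB => by
    have : B = ∅ := Finset.eq_empty_of_forall_notMem fun b hb => (hB b hb).1
    rw [this]
    simp⟩⟩

/-- a sparse set does not contain all multiples of an integer -/
lemma Sparse.exists_dvd {A : ℤ → Prop} (hA : Sparse A) (d m₀ : ℤ) (hd : 0 < d) :
    ∃ m, m₀ ≤ m ∧ 0 < m ∧ d ∣ m ∧ ¬ A m := by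
  classical
  obtain ⟨n, hn⟩ := hA
  obtain ⟨β, hβ⟩ := hn (n * d)
  by_contra hcon
  push Not at hcon
  obtain ⟨t, ht⟩ : ∃ t : ℤ, t = |β| + |m₀| + 1 := ⟨_, rfl⟩
  have ht1 : β ≤ t := by rw [ht]; linarith [le_abs_self β, abs_nonneg m₀]
  have ht2 : m₀ ≤ t := by rw [ht]; linarith [le_abs_self m₀, abs_nonneg β]
  have ht3 : 1 ≤ t := by rw [ht]; linarith [abs_nonneg β, abs_nonneg m₀]
  have ht4 : t ≤ t * d := by nlinarith
  have h1 := hβ (t * d) (ht1.trans ht4)
    ((Finset.range n).image fun j : ℕ => t * d + j * d) fun b hb => by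
      rw [Finset.mem_image] at hb
      obtain ⟨j, hj, rfl⟩ := hb
      rw [Finset.mem_range] at hj
      have h2 : (0 : ℤ) ≤ (j : ℤ) * d := by positivity
      have h3 : (j : ℤ) * d ≤ n * d := by
        have : (j : ℤ) ≤ n := by exact_mod_cast hj.le
        exact mul_le_mul_of_nonneg_right this hd.le
      exact ⟨hcon _ (by linarith) (by linarith) ⟨t + j, by ring⟩, by linarith, by linarith⟩
  rw [Finset.card_image_of_injective, Finset.card_range] at h1
  · exact lt_irrefl _ h1
  · intro i j hij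
    simp only [add_right_inj, mul_eq_mul_right_iff, Nat.cast_inj] at hij
    rcases hij with h | h
    · exact h
    · exact absurd h hd.ne'

namespace Threefold

variable {P Sh Dv Cu : Type*} [AddCommGroup P] (X : Threefold P Sh Dv Cu)

/-- `H^2(X, F(b x))` and `H^3(X, F(b x))` vanish for all large `b` outside a sparse set -/
def Far (x : P) : Prop := ∀ F, X.Fam x F → ∃ Bad : ℤ → Prop, Sparse Bad ∧ ∃ b₀ : ℤ, ∀ b, b₀ ≤ b →
  X.h F 3 (b • x) = 0 ∧ (¬ Bad b → X.h F 2 (b • x) = 0)

lemma nef_nat (x : P) (hx : X.Nef x) (j : ℕ) : X.Nef ((j : ℤ) • x) := by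
  induction j with
  | zero => simpa using X.nef_zero
  | succ j ih =>
    have : ((j + 1 : ℕ) : ℤ) • x = (j : ℤ) • x + x := by
      push_cast
      rw [add_smul, one_smul]
    rw [this]
    exact X.nef_add _ _ ih hx

lemma nef_smul (x : P) (hx : X.Nef x) (k : ℤ) (hk : 0 ≤ k) : X.Nef (k • x) := by
  obtain ⟨j, rfl⟩ := Int.eq_ofNat_of_zero_le hk
  exact X.nef_nat x hx j

/-- vanishing of `H^i(X, F(m x + z))`, `i ≥ 2`, for large `m` -/
lemma vanish (x : P) (ha : X.AmpS x) (F : Sh) (z : P) :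
    ∃ m0 : ℤ, ∀ m, m0 ≤ m → ∀ i, 2 ≤ i → X.h F i (m • x + z) = 0 := by
  obtain ⟨k0, hk0⟩ := X.fujita x ha F (z + X.H)
  refine ⟨k0, fun m hm i hi => ?_⟩
  obtain ⟨i', rfl⟩ : ∃ i', i = i' + 1 := ⟨i - 1, by omega⟩
  have hi' : 1 ≤ i' := by omega
  have key : ∀ j : ℕ, X.h F (i' + 1) (m • x + z) ≤
      X.h F (i' + 1) (m • x + z + (j : ℤ) • X.H) := by
    intro j
    induction j with
    | zero => simp
    | succ j ih =>
      have h1 := X.restr F i' (m • x + z + (j : ℤ) • X.H)
      have h2 := hk0 m hm _ (X.nef_nat X.H X.nef_H j) i' hi'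
      have e1 : m • x + z + (j : ℤ) • X.H + X.H = z + X.H + m • x + (j : ℤ) • X.H := by abel
      have e2 : m • x + z + ((j + 1 : ℕ) : ℤ) • X.H = m • x + z + (j : ℤ) • X.H + X.H := by
        push_cast
        rw [add_smul, one_smul, ← add_assoc]
      rw [e2]
      rw [e1] at h1
      rw [h2, add_zero, ← e1] at h1
      exact ih.trans h1
  obtain ⟨j0, hj0⟩ := X.serre F (m • x + z)
  have h3 := hj0 (max j0 0).toNat (by
    rw [Int.toNat_of_nonneg (le_max_right _ _)]
    exact le_max_left _ _) (i' + 1) (by omega)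
  have h4 := key (max j0 0).toNat
  rw [h3] at h4
  exact Nat.le_zero.1 h4

lemma far (x : P) (ha : X.AmpS x) : X.Far x := by
  intro F _
  obtain ⟨m0, h⟩ := X.vanish x ha F 0
  exact ⟨fun _ => False, Sparse.false, m0, fun m hm =>
    ⟨by simpa using h m hm 3 (by norm_num), fun _ => by simpa using h m hm 2 le_rfl⟩⟩

lemma gap (x : P) (hF : X.Far x) (l : List Sh) (hl : ∀ F ∈ l, X.Fam x F) (d m₀ : ℤ)
    (hd : 0 < d) :
    ∃ m, m₀ ≤ m ∧ 0 < m ∧ d ∣ m ∧ ∀ F ∈ l, X.h F 2 (m • x) = 0 ∧ X.h F 3 (m • x) = 0 := by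
  have key : ∀ l : List Sh, (∀ F ∈ l, X.Fam x F) → ∃ Bad : ℤ → Prop, Sparse Bad ∧
      ∃ b₀ : ℤ, ∀ b, b₀ ≤ b → ¬ Bad b → ∀ F ∈ l, X.h F 2 (b • x) = 0 ∧ X.h F 3 (b • x) = 0 := by
    intro l
    induction l with
    | nil => exact fun _ => ⟨fun _ => False, Sparse.false, 0, fun _ _ _ F hF => by simp at hF⟩
    | cons F l ih =>
      intro hl
      obtain ⟨A, hA, a, ha⟩ := ih fun G hG => hl G (List.mem_cons_of_mem _ hG)
      obtain ⟨B, hB, b, hb⟩ := hF F (hl F (List.mem_cons_self ..))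
      refine ⟨fun n => A n ∨ B n, Sparse.or hA hB, max a b, fun n hn hn' G hG => ?_⟩
      push Not at hn'
      rcases List.mem_cons.1 hG with rfl | h
      · exact ⟨(hb n ((le_max_right _ _).trans hn)).2 hn'.2,
          (hb n ((le_max_right _ _).trans hn)).1⟩
      · exact ha n ((le_max_left _ _).trans hn) hn'.1 G h
  obtain ⟨Bad, hB, b₀, hb⟩ := key l hl
  obtain ⟨m, h1, h2, h3, h4⟩ := Sparse.exists_dvd hB d (max m₀ b₀) hd
  exact ⟨m, (le_max_left _ _).trans h1, h2, h3, hb m ((le_max_right _ _).trans h1) h4⟩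

lemma fam_O (x : P) : X.Fam x X.O := Or.inl rfl

lemma fam_W (x : P) (hc : X.c x = 0) (a b : ℕ) : X.Fam x (X.W a b) :=
  Or.inr ⟨hc, Or.inl ⟨a, b, rfl⟩⟩

lemma fam_I (x : P) (hc : X.c x = 0) (C : Cu) (hC : X.deg C x = 0) : X.Fam x (X.I C) :=
  Or.inr ⟨hc, Or.inr (Or.inl ⟨C, hC, Or.inl rfl⟩)⟩

lemma fam_K (x : P) (hc : X.c x = 0) (C : Cu) (hC : X.deg C x = 0) (hp : X.pg C = 0) :
    X.Fam x (X.K C) := Or.inr ⟨hc, Or.inr (Or.inl ⟨C, hC, Or.inr ⟨hp, rfl⟩⟩)⟩

lemma fam_J (x : P) (hc : X.c x = 0) (C D : Cu) (hne : C ≠ D) (hC : X.deg C x = 0)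
    (hD : X.deg D x = 0) : X.Fam x (X.J C D) :=
  Or.inr ⟨hc, Or.inr (Or.inr ⟨C, D, hne, hC, hD, rfl⟩)⟩

/-- a nef class with sections is semiample -/
lemma not_eff (x : P) (hx : X.Nef x) (hs : ¬ X.SA x) (m : ℤ) (hm : 0 < m) :
    X.h X.O 0 (m • x) = 0 := by
  by_contra h
  exact hs (X.sa_mul m x hm (X.kmm _ ((X.nef_mul m x hm).2 hx) ((X.eff_iff _).2 h)))

lemma cube_smul (m : ℤ) (x : P) : X.T (m • x) (m • x) (m • x) = m ^ 3 * X.T x x x := by
  simp only [map_smul, LinearMap.smul_apply, smul_eq_mul]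
  ring

/-- if `x` is not semiample then `x^3 = 0` and `c x = 0` -/
lemma flat (x : P) (hx : X.Nef x) (ha : X.Far x) (hs : ¬ X.SA x) :
    X.T x x x = 0 ∧ X.c x = 0 := by
  obtain ⟨m, -, h2, -, hm⟩ := X.gap x ha [X.O] (by simpa using X.fam_O x) 1 0 one_pos
  obtain ⟨v2, v3⟩ := hm X.O (by simp)
  have hr := X.rr X.O (m • x)
  rw [X.not_eff x hx hs m h2, v2, v3,
    X.cube_smul, map_smul, smul_eq_mul, X.rk_O, X.c1_O, X.ch_O, X.chi_O] at hr
  simp only [map_zero, LinearMap.zero_apply] at hr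
  have h3 := X.nonneg x x x hx hx hx
  have h4 := X.miyaoka x hx
  have h5 : (0 : ℤ) ≤ X.h X.O 1 (m • x) := Int.natCast_nonneg _
  have h6 : 0 ≤ m ^ 3 * X.T x x x := mul_nonneg (by positivity) h3
  have h7 : 0 ≤ m * X.c x := mul_nonneg (by linarith) h4
  push_cast at hr
  have h8 : m ^ 3 * X.T x x x = 0 := by linarith
  have h9 : m * X.c x = 0 := by linarith
  constructor
  · exact (mul_eq_zero.1 h8).resolve_left (by positivity)
  · exact (mul_eq_zero.1 h9).resolve_left (by linarith)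

/-- Riemann-Roch for `F(m x)` -/
lemma rr_mul (x : P) (hT : X.T x x x = 0) (hc : X.c x = 0) (F : Sh) (m : ℤ) :
    12 * ((X.h F 0 (m • x) : ℤ) - X.h F 1 (m • x) + X.h F 2 (m • x) - X.h F 3 (m • x)) =
      6 * (m ^ 2 * X.T x x (X.c1 F)) + m * X.ch F x + 12 * X.chi F := by
  have h1 : X.T (X.c1 F) x x = X.T x x (X.c1 F) := by
    rw [X.symm12 (X.c1 F) x x]; exact X.symm23 x (X.c1 F) x
  rw [X.rr F (m • x), X.cube_smul, hT]
  simp only [map_smul, LinearMap.smul_apply, smul_eq_mul, hc, h1]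
  ring

/-- if `x` is not semiample then `H^1(W 0 1(m x)) = 0` for many `m` -/
lemma forms (x : P) (hx : X.Nef x) (ha : X.Far x) (hs : ¬ X.SA x) (l : List Sh)
    (hl : ∀ F ∈ l, X.Fam x F) :
    ∃ m : ℤ, 0 < m ∧ X.h (X.W 0 1) 1 (m • x) = 0 ∧
      ∀ F ∈ l, X.h F 2 (m • x) = 0 ∧ X.h F 3 (m • x) = 0 := by
  obtain ⟨hT, hc⟩ := X.flat x hx ha hs
  obtain ⟨n, hn⟩ : ∃ n : ℤ, ∀ m, n ≤ m →
      X.h (X.W 0 1) 0 (m • x) = 0 ∧ X.h (X.W 1 0) 0 (m • x) = 0 := by
    by_contra hcon
    push Not at hcon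
    refine hs (X.lp x hx fun n => ?_)
    obtain ⟨m, hm, h⟩ := hcon n
    refine ⟨m, hm, ?_⟩
    by_cases h0 : X.h (X.W 0 1) 0 (m • x) = 0
    · exact Or.inr (h h0)
    · exact Or.inl h0
  obtain ⟨c1, -⟩ := X.ch_W x hx hc
  obtain ⟨m, hm, hm0, -, hv⟩ := X.gap x ha (X.W 0 1 :: X.W 1 0 :: l) (by
    intro F hF
    rcases List.mem_cons.1 hF with rfl | hF
    · exact X.fam_W x hc 0 1
    · rcases List.mem_cons.1 hF with rfl | hF
      · exact X.fam_W x hc 1 0
      · exact hl F hF) 1 n one_pos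
  obtain ⟨a2, a3⟩ := hv (X.W 0 1) (by simp)
  obtain ⟨b2, b3⟩ := hv (X.W 1 0) (by simp)
  refine ⟨m, hm0, ?_, fun F hF => hv F (by simp [hF])⟩
  obtain ⟨ha0, hb0⟩ := hn m hm
  have r1 := X.rr_mul x hT hc (X.W 0 1) m
  have r2 := X.rr_mul x hT hc (X.W 1 0) m
  rw [ha0, a2, a3, X.c1_W, c1 0 1] at r1
  rw [hb0, b2, b3, X.c1_W, c1 1 0] at r2
  simp only [map_zero, mul_zero] at r1 r2
  have h1 := X.chi_W 0 1
  have p1 : (0 : ℤ) ≤ X.h (X.W 0 1) 1 (m • x) := Int.natCast_nonneg _
  have p2 : (0 : ℤ) ≤ X.h (X.W 1 0) 1 (m • x) := Int.natCast_nonneg _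
  have p3 : (0 : ℤ) ≤ X.ext 0 1 := Int.natCast_nonneg _
  have p4 : (X.h (X.W 0 1) 1 (m • x) : ℤ) = 0 := by
    push_cast at r1 r2
    linarith
  exact_mod_cast p4

/-- the rank of `P` is at least two -/
lemma two_le [Module.Finite ℤ P] (x : P) (hT : X.T x x x = 0) (hH : 0 < X.T x x X.H) :
    2 ≤ Module.finrank ℤ P := by
  have hli : LinearIndependent ℤ ![x, X.H] := by
    rw [LinearIndependent.pair_iff]
    intro a b hab
    have hb : b = 0 := by
      have := congrArg (X.T x x) hab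
      rw [map_add, map_smul, map_smul, hT, map_zero, smul_zero, zero_add, smul_eq_mul] at this
      exact (mul_eq_zero.1 this).resolve_right hH.ne'
    rw [hb, zero_smul, add_zero] at hab
    have ha : a = 0 := by
      have := congrArg (X.T x X.H) hab
      rw [map_smul, map_zero, smul_eq_mul, X.symm23 x X.H x] at this
      exact (mul_eq_zero.1 this).resolve_right hH.ne'
    exact ⟨ha, hb⟩
  simpa using hli.fintype_card_le_finrank

/-- rational curves have positive degree -/
lemma curve_pos (x : P) (hx : X.Nef x) (ha : X.Far x) (hs : ¬ X.SA x) (C : Cu)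
    (hC : X.pg C = 0) : 0 < X.deg C x := by
  rcases (X.deg_nef C x hx).eq_or_lt with h | h
  · exfalso
    obtain ⟨m, -, h1, h2⟩ := X.forms x hx ha hs [X.K C]
      (by simpa using X.fam_K x (X.flat x hx ha hs).2 C h.symm hC)
    have h3 : X.deg C (m • x) = 0 := by rw [map_smul, ← h, smul_zero]
    rcases X.curve C _ hC h3 with h4 | h4
    · exact h4 h1
    · exact h4 (h2 (X.K C) (by simp)).1
  · exact h

/-- the restriction of `x` to a curve is not torsion -/
lemma not_tors (x : P) (hx : X.Nef x) (ha : X.Far x) (hs : ¬ X.SA x) (C : Cu) (m : ℤ)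
    (hm : 0 < m) : ¬ X.triv C (m • x) := by
  intro h
  have hdeg : X.deg C x = 0 := by
    have := X.triv_deg C _ h
    rw [map_smul, smul_eq_mul] at this
    exact (mul_eq_zero.1 this).resolve_left hm.ne'
  have hpg : X.pg C ≠ 0 := fun h0 => by
    have := X.curve_pos x hx ha hs C h0
    rw [hdeg] at this
    exact lt_irrefl _ this
  have hpa : 1 ≤ X.pa C := by
    have p3 := X.pg_nonneg C
    have p4 := X.pg_le C
    omega
  obtain ⟨hT, hc⟩ := X.flat x hx ha hs
  obtain ⟨k, -, hk0, ⟨j, hj⟩, hv⟩ := X.gap x ha [X.O, X.I C]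
    (by simpa using ⟨X.fam_O x, X.fam_I x hc C hdeg⟩) m 0 hm
  obtain ⟨a2, a3⟩ := hv X.O (by simp)
  obtain ⟨b2, b3⟩ := hv (X.I C) (by simp)
  have ht : X.triv C (k • x) := by
    rw [hj, mul_comm, mul_smul]
    exact X.triv_mul C _ j h
  have r := X.rr_mul x hT hc X.O k
  rw [X.not_eff x hx hs k hk0, a2, a3, X.c1_O, X.ch_O, X.chi_O] at r
  simp only [map_zero, LinearMap.zero_apply, mul_zero] at r
  have h1 : X.h X.O 1 (k • x) = 0 := by
    push_cast at r
    have : (X.h X.O 1 (k • x) : ℤ) = 0 := by linarith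
    exact_mod_cast this
  rcases X.curve_O C _ hpa ht with h2 | h2
  · exact h2 h1
  · exact h2 b2

/-- an integral curve of degree zero is a smooth elliptic curve -/
lemma elliptic (x : P) (hx : X.Nef x) (ha : X.Far x) (hs : ¬ X.SA x) (C : Cu)
    (hdeg : X.deg C x = 0) : X.pg C = 1 ∧ X.pa C = 1 := by
  obtain ⟨hT, hc⟩ := X.flat x hx ha hs
  have hC := X.curve_pos x hx ha hs
  obtain ⟨m, -, q2, -, hv⟩ := X.gap x ha [X.I C] (by simpa using X.fam_I x hc C hdeg) 1 0 one_pos
  obtain ⟨a2, a3⟩ := hv (X.I C) (by simp)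
  have r := X.rr_mul x hT hc (X.I C) m
  have h0 : X.h (X.I C) 0 (m • x) = 0 := by
    have := X.h_I C (m • x)
    rw [X.not_eff x hx hs m q2] at this
    exact Nat.le_zero.1 this
  rw [h0, a2, a3, X.c1_I, X.ch_I, X.chi_I] at r
  simp only [map_zero, LinearMap.smul_apply, hdeg, smul_zero, mul_zero, zero_add,
    add_zero] at r
  have p1 : (0 : ℤ) ≤ X.h (X.I C) 1 (m • x) := Int.natCast_nonneg _
  have p2 : X.pa C ≤ 1 := by
    push_cast at r
    linarith
  have p3 := X.pg_nonneg C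
  have p4 := X.pg_le C
  have p5 : X.pg C ≠ 0 := fun h => by
    have := hC C h
    rw [hdeg] at this
    exact lt_irrefl _ this
  omega

/-- for every effective `D` some `b x + D` is nef -/
lemma nef_eff (x : P) (hx : X.Nef x) (hC : ∀ C, X.pg C = 0 → 0 < X.deg C x) (D : P)
    (hD : X.Eff D) : ∃ b : ℤ, X.Nef (b • x + D) := by
  obtain ⟨b, hb⟩ := X.cone D hD
  refine ⟨max b 0, hb _ (X.nef_smul x hx _ (le_max_right _ _)) fun C hg => ?_⟩
  rw [map_smul, smul_eq_mul]
  have h1 : 1 ≤ X.deg C x := hC C hg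
  have h2 : (0 : ℤ) ≤ max b 0 := le_max_right _ _
  have h3 : b ≤ max b 0 := le_max_left _ _
  nlinarith

/-- expansion of the cube -/
lemma siu_num (x A B : P) (n : ℤ) (hT : X.T x x x = 0) :
    X.T (n • x + A) (n • x + A) (n • x + A) - 3 * X.T (n • x + A) (n • x + A) B =
      3 * n ^ 2 * X.T x x (A - B) + n * (3 * X.T x A A - 6 * X.T x A B) +
        (X.T A A A - 3 * X.T A A B) := by
  simp only [map_add, map_smul, map_sub, LinearMap.add_apply, LinearMap.smul_apply, smul_eq_mul]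
  have h1 : X.T A x x = X.T x x A := by rw [X.symm12 A x x]; exact X.symm23 x A x
  have h2 : X.T x A x = X.T x x A := X.symm23 x A x
  have h3 : X.T A A x = X.T x A A := by rw [X.symm23 A A x]; exact X.symm12 A x A
  have h4 : X.T A x A = X.T x A A := X.symm12 A x A
  have h5 : X.T A x B = X.T x A B := X.symm12 A x B
  rw [h1, h2, h3, h4, h5, hT]
  ring

/-- the nef cone at `x` is the half space `x^2 z > 0` -/
lemma half_space (x : P) (hx : X.Nef x) (hT : X.T x x x = 0)
    (hC : ∀ C, X.pg C = 0 → 0 < X.deg C x) (z : P)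
    (hz : 0 < X.T x x z) : ∃ n0 : ℤ, ∀ n, n0 ≤ n → X.Nef (n • x + z) := by
  obtain ⟨j, hj⟩ := X.ample z
  obtain ⟨B, hB⟩ : ∃ B, B = (max j 0) • X.H := ⟨_, rfl⟩
  have hBn : X.Nef B := by rw [hB]; exact X.nef_smul _ X.nef_H _ (le_max_right _ _)
  obtain ⟨A, hA⟩ : ∃ A, A = B + z := ⟨_, rfl⟩
  have hAn : X.Nef A := by
    have e1 : A = (max j 0 - j) • X.H + (j • X.H + z) := by
      rw [hA, hB, sub_smul]; abel
    rw [e1]
    exact X.nef_add _ _ (X.nef_smul _ X.nef_H _ (by linarith [le_max_left j 0])) hj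
  obtain ⟨u, hu⟩ : ∃ u, u = 3 * X.T x A A - 6 * X.T x A B := ⟨_, rfl⟩
  obtain ⟨v, hv⟩ : ∃ v, v = X.T A A A - 3 * X.T A A B := ⟨_, rfl⟩
  obtain ⟨n, hn⟩ : ∃ n, n = |u| + |v| + 1 := ⟨_, rfl⟩
  have hn1 : 1 ≤ n := by rw [hn]; linarith [abs_nonneg u, abs_nonneg v]
  have hAB : A - B = z := by rw [hA]; abel
  have hbig := X.siu (n • x + A) B (X.nef_add _ _ (X.nef_smul x hx n (by linarith)) hAn) hBn (by
    have h1 := X.siu_num x A B n hT
    rw [hAB, ← hu, ← hv] at h1
    have h2 : 0 < 3 * n ^ 2 * X.T x x z + n * u + v := by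
      have h3 : 1 ≤ X.T x x z := hz
      have h4 : 3 * n ^ 2 ≤ 3 * n ^ 2 * X.T x x z := by nlinarith [sq_nonneg n]
      have h5 : -(n * |u|) ≤ n * u := by
        have := neg_abs_le u
        nlinarith
      have h6 : -|v| ≤ v := neg_abs_le v
      have h7 : n * |u| + |v| < 3 * n ^ 2 := by
        have a1 : |u| ≤ n := by rw [hn]; linarith [abs_nonneg v]
        have a2 : |v| ≤ n := by rw [hn]; linarith [abs_nonneg u]
        nlinarith [abs_nonneg u, abs_nonneg v]
      linarith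
    linarith)
  obtain ⟨k, hk, hE⟩ := hbig
  have e2 : n • x + A - B = n • x + z := by rw [hA]; abel
  rw [e2] at hE
  obtain ⟨b, hb⟩ := X.nef_eff x hx hC _ hE
  refine ⟨max (b + k * n) 0, fun N hN => ?_⟩
  rw [← X.nef_mul k _ hk]
  have h8 : b + k * n ≤ N := (le_max_left _ _).trans hN
  have h9 : 0 ≤ N := (le_max_right _ _).trans hN
  have e3 : k • (N • x + z) = (k * N - (b + k * n)) • x + (b • x + k • (n • x + z)) := by
    simp only [sub_smul, add_smul, smul_add, mul_smul]
    abel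
  rw [e3]
  refine X.nef_add _ _ (X.nef_smul x hx _ ?_) hb
  have : N ≤ k * N := by nlinarith
  linarith

/-- the ample cone at `x` is the half space `x^2 z > 0` -/
lemma ample_half (x : P) (hx : X.Nef x) (hT : X.T x x x = 0)
    (hC : ∀ C, X.pg C = 0 → 0 < X.deg C x) (z : P)
    (hz : 0 < X.T x x z) : ∃ n0 : ℤ, ∀ n, n0 ≤ n → X.Ample (n • x + z) := by
  obtain ⟨k, hk⟩ : ∃ k, k = X.T x x X.H + 1 := ⟨_, rfl⟩
  have hH := X.nonneg x x X.H hx hx X.nef_H
  have hk1 : 1 ≤ k := by rw [hk]; linarith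
  obtain ⟨n0, hn0⟩ := X.half_space x hx hT hC (k • z - X.H) (by
    rw [map_sub, map_smul, smul_eq_mul, hk]
    have : 1 ≤ X.T x x z := hz
    nlinarith)
  refine ⟨max n0 0, fun n hn => ⟨k, by linarith, ?_⟩⟩
  have h1 : n0 ≤ k * n := by
    have a1 : n0 ≤ n := (le_max_left _ _).trans hn
    have a2 : 0 ≤ n := (le_max_right _ _).trans hn
    nlinarith
  have h2 := hn0 (k * n) h1
  have e1 : k • (n • x + z) - X.H = (k * n) • x + (k • z - X.H) := by
    rw [smul_add, mul_smul]; abel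
  rw [e1]
  exact h2

/-- linear forms which are nonnegative on nef classes and vanish at `x` are multiples of `x^2` -/
lemma form_eq (x : P) (hx : X.Nef x) (hT : X.T x x x = 0)
    (hC : ∀ C, X.pg C = 0 → 0 < X.deg C x) (hH : 0 < X.T x x X.H)
    (φ : P →ₗ[ℤ] ℤ) (hφ : ∀ y, X.Nef y → 0 ≤ φ y) (hφx : φ x = 0) (z : P) :
    X.T x x X.H * φ z = φ X.H * X.T x x z := by
  have key : ∀ w, 0 < X.T x x w → 0 ≤ φ w := by
    intro w hw
    obtain ⟨n0, hn0⟩ := X.half_space x hx hT hC w hw
    have h1 := hφ _ (hn0 n0 le_rfl)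
    rw [map_add, map_smul, hφx, smul_zero, zero_add] at h1
    exact h1
  obtain ⟨u, hu⟩ : ∃ u, u = X.T x x X.H • z - X.T x x z • X.H := ⟨_, rfl⟩
  have h1 : X.T x x u = 0 := by
    rw [hu, map_sub, map_smul, map_smul, smul_eq_mul, smul_eq_mul]
    ring
  have h2 : ∀ N : ℤ, 0 ≤ φ X.H + N * φ u := by
    intro N
    have h3 := key (X.H + N • u) (by rw [map_add, map_smul, h1, smul_zero, add_zero]; exact hH)
    rw [map_add, map_smul, smul_eq_mul] at h3
    exact h3
  have h4 : φ u = 0 := by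
    by_contra hne
    have h5 := h2 (-(φ X.H + 1) * φ u)
    have h6 : 1 ≤ φ u * φ u := by
      rcases lt_or_gt_of_ne hne with h | h <;> nlinarith
    have h7 := h2 0
    nlinarith
  rw [hu, map_sub, map_smul, map_smul, smul_eq_mul, smul_eq_mul] at h4
  linarith

/-- `x D H > 0` for prime divisors `D` with `x D ≠ 0` -/
lemma prime_pos (x : P) (hx : X.Nef x) (D : Dv) (hD : ∃ w, X.T x (X.cl D) w ≠ 0) :
    0 < X.T x X.H (X.cl D) := by
  rcases (X.nonneg_prime x X.H D hx X.nef_H).eq_or_lt with h | h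
  · exfalso
    obtain ⟨w, hw⟩ := hD
    apply hw
    have key : ∀ v, 0 ≤ X.T x v (X.cl D) := by
      intro v
      obtain ⟨k, hk⟩ := X.ample v
      have h1 := X.nonneg_prime x _ D hx hk
      simp only [map_add, map_smul, LinearMap.add_apply, LinearMap.smul_apply, smul_eq_mul,
        ← h, mul_zero, zero_add] at h1
      exact h1
    have h1 := key w
    have h2 := key (-w)
    simp only [map_neg, LinearMap.neg_apply] at h2
    rw [X.symm23 x (X.cl D) w]
    linarith
  · exact h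

/-- Hodge index theorem: if `x^3 = x^2 y = 0` then `x y^2 ≤ 0` -/
lemma index_x (x y : P) (hx : X.Nef x) (hT : X.T x x x = 0) (hH : 0 < X.T x x X.H)
    (hy : X.T x x y = 0) : X.T x y y ≤ 0 := by
  by_contra hcon
  push Not at hcon
  obtain ⟨s, hs⟩ : ∃ s, s = (X.T x X.H y) ^ 2 + 1 := ⟨_, rfl⟩
  have hs0 : 0 < s := by rw [hs]; positivity
  have h1 := X.hodge x (X.H + s • x) y hx (X.nef_add _ _ X.nef_H (X.nef_smul x hx s hs0.le))
  have h2 : X.T x (X.H + s • x) (X.H + s • x) = X.T x X.H X.H + 2 * s * X.T x x X.H := by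
    simp only [map_add, map_smul, LinearMap.add_apply, LinearMap.smul_apply, smul_eq_mul]
    rw [hT, X.symm23 x X.H x]
    ring
  have h3 : X.T x (X.H + s • x) y = X.T x X.H y := by
    simp only [map_add, map_smul, LinearMap.add_apply, LinearMap.smul_apply, smul_eq_mul]
    rw [hy]
    ring
  rw [h2, h3] at h1
  have h4 := X.nonneg x X.H X.H hx X.nef_H X.nef_H
  have h5 : s ≤ X.T x X.H X.H + 2 * s * X.T x x X.H := by nlinarith
  have h6 : s ≤ (X.T x X.H X.H + 2 * s * X.T x x X.H) * X.T x y y := by nlinarith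
  linarith

/-- Hodge index theorem on a prime divisor `D`: if `x^2 D = x y D = 0` then `y^2 D ≤ 0` -/
lemma index_D (x y : P) (D : Dv) (hx : X.Nef x) (hD : 0 < X.T x X.H (X.cl D))
    (h1 : X.T x x (X.cl D) = 0) (h2 : X.T x y (X.cl D) = 0) : X.T y y (X.cl D) ≤ 0 := by
  by_contra hcon
  push Not at hcon
  have r : ∀ a b, X.T (X.cl D) a b = X.T a b (X.cl D) := fun a b => by
    rw [X.symm12 (X.cl D) a b]; exact X.symm23 a (X.cl D) b
  obtain ⟨s, hs⟩ : ∃ s, s = (X.T X.H y (X.cl D)) ^ 2 + 1 := ⟨_, rfl⟩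
  have hs0 : 0 < s := by rw [hs]; positivity
  have h3 := X.hodge_prime D (X.H + s • x) y (X.nef_add _ _ X.nef_H (X.nef_smul x hx s hs0.le))
  rw [r, r, r] at h3
  have h4 : X.T (X.H + s • x) (X.H + s • x) (X.cl D) =
      X.T X.H X.H (X.cl D) + 2 * s * X.T x X.H (X.cl D) := by
    simp only [map_add, map_smul, LinearMap.add_apply, LinearMap.smul_apply, smul_eq_mul]
    rw [h1, X.symm12 X.H x (X.cl D)]
    ring
  have h5 : X.T (X.H + s • x) y (X.cl D) = X.T X.H y (X.cl D) := by
    simp only [map_add, map_smul, LinearMap.add_apply, LinearMap.smul_apply, smul_eq_mul]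
    rw [h2]
    ring
  rw [h4, h5] at h3
  have h6 := X.nonneg_prime X.H X.H D X.nef_H X.nef_H
  have h7 : s ≤ X.T X.H X.H (X.cl D) + 2 * s * X.T x X.H (X.cl D) := by nlinarith
  have h8 : s ≤ (X.T X.H X.H (X.cl D) + 2 * s * X.T x X.H (X.cl D)) * X.T y y (X.cl D) := by
    nlinarith
  linarith

/-- intersection numbers of nef classes with effective divisors -/
lemma eff_nonneg (x y E : P) (hx : X.Nef x) (hy : X.Nef y) (hE : X.Eff E) : 0 ≤ X.T x y E := by
  obtain ⟨N, hN, f, hf⟩ := X.eff_sum E hE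
  have h1 : N * X.T x y E = ∑ D ∈ f.support, (f D : ℤ) * X.T x y (X.cl D) := by
    have := congrArg (X.T x y) hf
    rw [map_smul, map_sum] at this
    simpa only [map_smul, smul_eq_mul] using this
  have h2 : 0 ≤ N * X.T x y E := by
    rw [h1]
    exact Finset.sum_nonneg fun D _ => mul_nonneg (Int.natCast_nonneg _)
      (X.nonneg_prime x y D hx hy)
  nlinarith

/-- if an effective nef class `y` has `x^2 y = x y^2 = 0` then `y^3 = 0` -/
lemma cube_zero (x y : P) (hx : X.Nef x) (hD : ∀ D, ∃ w, X.T x (X.cl D) w ≠ 0) (hy : X.Nef y)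
    (hE : X.Eff y) (h1 : X.T x x y = 0) (h2 : X.T x y y = 0) : X.T y y y = 0 := by
  obtain ⟨N, hN, f, hf⟩ := X.eff_sum y hE
  have hsum : ∀ a b, N * X.T a b y = ∑ D ∈ f.support, (f D : ℤ) * X.T a b (X.cl D) := by
    intro a b
    have := congrArg (X.T a b) hf
    rw [map_smul, map_sum] at this
    simpa only [map_smul, smul_eq_mul] using this
  have hz : ∀ a b, X.Nef a → X.Nef b → X.T a b y = 0 → ∀ D ∈ f.support,
      X.T a b (X.cl D) = 0 := by
    intro a b ha hb h D hDf
    have s1 := hsum a b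
    rw [h, mul_zero] at s1
    have s2 := (Finset.sum_eq_zero_iff_of_nonneg (fun D _ => mul_nonneg (Int.natCast_nonneg _)
      (X.nonneg_prime a b D ha hb))).1 s1.symm D hDf
    have s3 : (f D : ℤ) ≠ 0 := by
      have := Finsupp.mem_support_iff.1 hDf
      exact_mod_cast this
    exact (mul_eq_zero.1 s2).resolve_left s3
  have s4 : N * X.T y y y ≤ 0 := by
    rw [hsum y y]
    refine Finset.sum_nonpos fun D hDf => ?_
    have := X.index_D x y D hx (X.prime_pos x hx D (hD D)) (hz x x hx hx h1 D hDf)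
      (hz x y hx hy h2 D hDf)
    exact mul_nonpos_of_nonneg_of_nonpos (Int.natCast_nonneg _) this
  have s5 := X.nonneg y y y hy hy hy
  have s6 : 0 ≤ N * X.T y y y := mul_nonneg hN.le s5
  have s7 : N * X.T y y y = 0 := le_antisymm s4 s6
  exact (mul_eq_zero.1 s7).resolve_left hN.ne'

/-- if `x^2 z ≤ 0` then `n x + z` is not effective for large `n` -/
lemma not_eff_large (x : P) (hx : X.Nef x) (hT : X.T x x x = 0) (hH : 0 < X.T x x X.H)
    (hC : ∀ C, X.pg C = 0 → 0 < X.deg C x) (hD : ∀ D, ∃ w, X.T x (X.cl D) w ≠ 0)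
    (hs : ¬ X.SA x) (z : P) (hz : X.T x x z ≤ 0) :
    ∃ n0 : ℤ, ∀ n, n0 ≤ n → ¬ X.Eff (n • x + z) := by
  by_contra hcon
  push Not at hcon
  obtain ⟨n1, -, hE1⟩ := hcon 0
  have hz0 : X.T x x z = 0 := by
    have h1 := X.eff_nonneg x x _ hx hx hE1
    rw [map_add, map_smul, hT, smul_zero, zero_add] at h1
    linarith
  obtain ⟨b, hb⟩ := X.nef_eff x hx hC _ hE1
  obtain ⟨u, hu⟩ : ∃ u, u = X.T X.H x z := ⟨_, rfl⟩
  obtain ⟨v, hv⟩ : ∃ v, v = X.T X.H z z := ⟨_, rfl⟩
  obtain ⟨n, hn, hE⟩ := hcon (max (n1 + b) (2 * |u| + |v| + 1))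
  have hn1 : n1 + b ≤ n := (le_max_left _ _).trans hn
  have hn2 : 2 * |u| + |v| + 1 ≤ n := (le_max_right _ _).trans hn
  obtain ⟨y, hy⟩ : ∃ y, y = n • x + z := ⟨_, rfl⟩
  rw [← hy] at hE
  have hyn : X.Nef y := by
    have e1 : y = (n - (n1 + b)) • x + (b • x + (n1 • x + z)) := by
      rw [hy, sub_smul, add_smul]; abel
    rw [e1]
    exact X.nef_add _ _ (X.nef_smul x hx _ (by linarith)) hb
  have hxxy : X.T x x y = 0 := by
    rw [hy, map_add, map_smul, hT, hz0, smul_zero, add_zero]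
  have hxyy : X.T x y y = 0 :=
    le_antisymm (X.index_x x y hx hT hH hxxy) (X.nonneg x y y hx hyn hyn)
  have hyyy := X.cube_zero x y hx hD hyn hE hxxy hxyy
  have hHyy : 0 < X.T X.H y y := by
    have e2 : X.T X.H y y = n ^ 2 * X.T x x X.H + 2 * n * u + v := by
      rw [hy, hu, hv]
      simp only [map_add, map_smul, LinearMap.add_apply, LinearMap.smul_apply, smul_eq_mul]
      rw [X.symm23 X.H z x, X.symm12 X.H x x, X.symm23 x X.H x]
      ring
    rw [e2]
    have a1 : -|u| ≤ u := neg_abs_le u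
    have a2 : -|v| ≤ v := neg_abs_le v
    have a3 := abs_nonneg u
    have a4 := abs_nonneg v
    have a5 : 1 ≤ X.T x x X.H := hH
    have a6 : n ^ 2 ≤ n ^ 2 * X.T x x X.H := by nlinarith [sq_nonneg n]
    have a7 : -(n * |u|) ≤ n * u := by nlinarith
    have a8 : n * (2 * |u| + |v| + 1) ≤ n * n := by nlinarith
    have a9 : |v| ≤ n * |v| := by nlinarith
    nlinarith
  refine hs (X.fibre x y hx ?_ hyn (X.kmm y hyn hE) hyyy hHyy hxyy)
  rw [X.symm12 X.H x x, X.symm23 x X.H x]
  exact hH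

/-- numerical dimension one: if `x z H ≤ 0` then `n x + z` is not effective for large `n` -/
lemma not_eff_one (x : P) (h : X.NefOne x) (hD : ∀ D, ∃ w, X.T x (X.cl D) w ≠ 0) (z : P)
    (hz : X.T x X.H z ≤ 0) : ∃ n0 : ℤ, ∀ n, n0 ≤ n → ¬ X.Eff (n • x + z) := by
  obtain ⟨hx, hsq, hne⟩ := h
  have hsq' : X.T x X.H x = 0 := by
    rw [X.symm12 x X.H x]
    exact hsq
  have key : ∀ n : ℤ, X.Eff (n • x + z) → ∃ N : ℤ, 0 < N ∧ N • (n • x + z) = 0 := by
    intro n hE
    obtain ⟨N, hN, f, hf⟩ := X.eff_sum _ hE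
    refine ⟨N, hN, ?_⟩
    have h1 : N * X.T x X.H (n • x + z) =
        ∑ D ∈ f.support, (f D : ℤ) * X.T x X.H (X.cl D) := by
      have := congrArg (X.T x X.H) hf
      rw [map_smul, map_sum] at this
      simpa only [map_smul, smul_eq_mul] using this
    have h2 : N * X.T x X.H (n • x + z) ≤ 0 := by
      rw [map_add, map_smul, hsq', smul_zero, zero_add]
      exact mul_nonpos_of_nonneg_of_nonpos hN.le hz
    have h3 : ∀ D ∈ f.support, (0 : ℤ) < (f D : ℤ) * X.T x X.H (X.cl D) := by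
      intro D hDf
      have s3 : (0 : ℤ) < (f D : ℤ) := by
        have := Nat.pos_of_ne_zero (Finsupp.mem_support_iff.1 hDf)
        exact_mod_cast this
      exact mul_pos s3 (X.prime_pos x hx D (hD D))
    have h4 : f.support = ∅ := by
      by_contra hcon
      have h5 := Finset.sum_pos h3 (Finset.nonempty_iff_ne_empty.2 hcon)
      linarith
    rw [hf, h4, Finset.sum_empty]
  by_contra hcon
  push Not at hcon
  obtain ⟨n, -, hn⟩ := hcon 0
  obtain ⟨n', hn', hE'⟩ := hcon (n + 1)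
  obtain ⟨N, hN, h1⟩ := key n hn
  obtain ⟨N', hN', h2⟩ := key n' hE'
  have h3 : (N * N' * (n' - n)) • x = 0 := by
    have e1 : (N * N' * (n' - n)) • x = N • (N' • (n' • x + z)) - N' • (N • (n • x + z)) := by
      simp only [smul_add, smul_smul, mul_sub, sub_smul]
      rw [mul_comm N' N, show N * N' * n' = N * (N' * n') by ring,
        show N' * (N * n) = N * N' * n by ring]
      abel
    rw [e1, h1, h2, smul_zero, smul_zero, sub_zero]
  have h4 : N * N' * (n' - n) * X.T X.H X.H x = 0 := by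
    have := congrArg (X.T X.H X.H) h3
    rw [map_smul, map_zero, smul_eq_mul] at this
    exact this
  have h5 : (0 : ℤ) < N * N' * (n' - n) := mul_pos (mul_pos hN hN') (by linarith)
  exact hne ((mul_eq_zero.1 h4).resolve_left h5.ne')

/-- if `x` is not semiample then `chi (W a b) = 0` and `ext a b = 0` -/
lemma tensor (x : P) (hx : X.Nef x) (ha : X.Far x) (hs : ¬ X.SA x)
    (he : ∀ z, X.T x x z ≤ 0 → X.T x X.H z ≤ 0 → ∃ n0 : ℤ, ∀ n, n0 ≤ n → ¬ X.Eff (n • x + z))
    (a b : ℕ) : X.chi (X.W a b) = 0 ∧ X.ext a b = 0 := by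
  obtain ⟨hT, hc⟩ := X.flat x hx ha hs
  obtain ⟨hch, -⟩ := X.ch_W x hx hc
  have key : ∀ a b, X.chi (X.W a b) ≤ 0 := by
    intro a b
    obtain ⟨m1, hm1⟩ : ∃ m1 : ℤ, ∀ m, m1 ≤ m → X.h (X.W a b) 0 (m • x) = 0 := by
      by_contra hcon
      push Not at hcon
      obtain ⟨z, hz, hz'⟩ := X.det a b x hcon
      obtain ⟨n0, hn0⟩ := he z (X.semi a b z hz x x hx hx) (X.semi a b z hz x X.H hx X.nef_H)
      obtain ⟨n, hn, hE⟩ := hz' n0
      exact hn0 n hn hE
    obtain ⟨m, hm, -, -, hv⟩ := X.gap x ha [X.W a b] (by simpa using X.fam_W x hc a b) 1 m1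
      one_pos
    obtain ⟨a2, a3⟩ := hv (X.W a b) (by simp)
    have r := X.rr_mul x hT hc (X.W a b) m
    rw [hm1 _ hm, a2, a3, X.c1_W, hch] at r
    simp only [map_zero, mul_zero] at r
    have p1 : (0 : ℤ) ≤ X.h (X.W a b) 1 (m • x) := Int.natCast_nonneg _
    push_cast at r
    linarith
  have h1 := key a b
  have h2 := key b a
  have h3 := X.chi_W a b
  have h4 : (0 : ℤ) ≤ X.ext a b := Int.natCast_nonneg _
  refine ⟨by linarith, ?_⟩
  have h5 : (X.ext a b : ℤ) = 0 := by linarith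
  exact_mod_cast h5

/-- two integral curves of degree zero do not meet -/
lemma disjoint (x : P) (hx : X.Nef x) (ha : X.Far x) (hs : ¬ X.SA x) (C D : Cu) (hne : C ≠ D)
    (hC : X.deg C x = 0) (hD : X.deg D x = 0) : X.len C D = 0 := by
  obtain ⟨hT, hc⟩ := X.flat x hx ha hs
  obtain ⟨m, -, q2, -, hv⟩ := X.gap x ha [X.J C D]
    (by simpa using X.fam_J x hc C D hne hC hD) 1 0 one_pos
  obtain ⟨a2, a3⟩ := hv (X.J C D) (by simp)
  have r := X.rr_mul x hT hc (X.J C D) m
  have h0 : X.h (X.J C D) 0 (m • x) = 0 := by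
    have := X.h_J C D (m • x)
    rw [X.not_eff x hx hs m q2] at this
    exact Nat.le_zero.1 this
  rw [h0, a2, a3, X.c1_J, X.ch_J C D hne,
    X.chi_J C D hne] at r
  have e1 := X.elliptic x hx ha hs C hC
  have e2 := X.elliptic x hx ha hs D hD
  simp only [map_zero, LinearMap.smul_apply, LinearMap.add_apply, hC, hD, smul_zero, mul_zero,
    zero_add, add_zero, e1.2, e2.2, sub_self] at r
  have p1 : (0 : ℤ) ≤ X.h (X.J C D) 1 (m • x) := Int.natCast_nonneg _
  have p2 : (0 : ℤ) ≤ X.len C D := Int.natCast_nonneg _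
  have p3 : (X.len C D : ℤ) = 0 := by
    push_cast at r
    linarith
  exact_mod_cast p3

/-- the rank of `P` is at least two -/
lemma two_le_one [Module.Finite ℤ P] (x : P) (h : X.NefOne x) : 2 ≤ Module.finrank ℤ P := by
  obtain ⟨hx, hsq, hne⟩ := h
  have hHH : 0 < X.T X.H X.H x :=
    lt_of_le_of_ne (X.nonneg _ _ _ X.nef_H X.nef_H hx) (Ne.symm hne)
  have hsq' : X.T X.H x x = 0 := hsq
  have hli : LinearIndependent ℤ ![x, X.H] := by
    rw [LinearIndependent.pair_iff]
    intro a b hab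
    have hb : b = 0 := by
      have := congrArg (X.T X.H x) hab
      rw [map_add, map_smul, map_smul, hsq', map_zero, smul_zero, zero_add, smul_eq_mul,
        X.symm23 X.H x X.H] at this
      exact (mul_eq_zero.1 this).resolve_right hHH.ne'
    rw [hb, zero_smul, add_zero] at hab
    have ha : a = 0 := by
      have := congrArg (X.T X.H X.H) hab
      rw [map_smul, map_zero, smul_eq_mul] at this
      exact (mul_eq_zero.1 this).resolve_right hHH.ne'
    exact ⟨ha, hb⟩
  simpa using hli.fintype_card_le_finrank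

end Threefold

section Local

open Finset

section Different

variable {k K V V' : Type*} [Field k] [Field K] [Algebra k K] [AddCommGroup V] [Module K V]
  [Module k V] [IsScalarTower k K V] [AddCommGroup V'] [Module K V'] [Module k V']
  [IsScalarTower k K V']

omit [Module k V] [IsScalarTower k K V] in

/-- the expansion with respect to a pair of dual families -/
theorem expand {ι : Type*} [Fintype ι] [DecidableEq ι] (τ : K →ₗ[k] k) (β : V →ₗ[K] V' →ₗ[K] K)
    (v : ι → V) (v' : ι → V') (hd : ∀ i j, τ (β (v i) (v' j)) = if i = j then 1 else 0)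
    (hs : ⊤ ≤ Submodule.span k (Set.range v')) (u : V') :
    u = ∑ i, τ (β (v i) u) • v' i := by
  have hu : u ∈ Submodule.span k (Set.range v') := hs trivial
  obtain ⟨a, ha⟩ := (Submodule.mem_span_range_iff_exists_fun k).1 hu
  rw [← ha]
  refine Finset.sum_congr rfl ?_
  intro i _
  congr 1
  rw [map_sum, map_sum]
  rw [Finset.sum_eq_single i]
  · rw [← algebraMap_smul K, map_smul, algebraMap_smul K, map_smul, hd, if_pos rfl, smul_eq_mul,
      mul_one]
  · intro j _ hj
    rw [← algebraMap_smul K, map_smul, algebraMap_smul K, map_smul, hd, if_neg (Ne.symm hj),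
      smul_zero]
  · intro h
    exact absurd (Finset.mem_univ i) h

omit [Module k V'] [IsScalarTower k K V'] in

/-- the expansion with respect to the second family -/
theorem expand' {ι : Type*} [Fintype ι] [DecidableEq ι] (τ : K →ₗ[k] k) (β : V →ₗ[K] V' →ₗ[K] K)
    (v : ι → V) (v' : ι → V') (hd : ∀ i j, τ (β (v i) (v' j)) = if i = j then 1 else 0)
    (hs : ⊤ ≤ Submodule.span k (Set.range v)) (u : V) :
    u = ∑ i, τ (β u (v' i)) • v i := by
  have h := expand τ β.flip v' v
    (fun i j => by rw [LinearMap.flip_apply, hd]; simp only [eq_comm]) hs u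
  simpa only [LinearMap.flip_apply] using h

/-- The uniform different: if `τ (β (v i) (v' j)) = δ_ij`, `τ (c i * c' j) = δ_ij` for bases over the
small field and `β (e a) (e' b) = δ_ab` for bases over the large field, then
`(∑ c j * c' j) w = ∑ β w (v' i) v i`. -/
theorem different {ι κ α : Type*} [Fintype ι] [DecidableEq ι] [Fintype κ] [DecidableEq κ]
    [Fintype α] (τ : K →ₗ[k] k) (β : V →ₗ[K] V' →ₗ[K] K)
    (c c' : κ → K) (hc : ∀ i j, τ (c i * c' j) = if i = j then 1 else 0)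
    (hcs : ⊤ ≤ Submodule.span k (Set.range c))
    (v : ι → V) (v' : ι → V') (hd : ∀ i j, τ (β (v i) (v' j)) = if i = j then 1 else 0)
    (hs' : ⊤ ≤ Submodule.span k (Set.range v'))
    (e : α → V) (e' : α → V') (hspan : ∀ w : V, w = ∑ a, β w (e' a) • e a)
    (w : V) : (∑ j, c j * c' j) • w = ∑ i, β w (v' i) • v i := by
  have hv : ∀ i, v i = ∑ a, ∑ j, τ (β (v i) (c' j • e' a)) • (c j • e a) := by
    intro i
    conv_lhs => rw [hspan (v i)]
    refine Finset.sum_congr rfl ?_
    intro a _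
    have hx : β (v i) (e' a) = ∑ j, τ (c' j * β (v i) (e' a)) • c j := by
      have h := expand' τ (LinearMap.mul K K) c c'
        (fun i j => by simpa only [LinearMap.mul_apply'] using hc i j) hcs (β (v i) (e' a))
      conv_lhs => rw [h]
      refine Finset.sum_congr rfl ?_
      intro j _
      rw [LinearMap.mul_apply', mul_comm]
    conv_lhs => rw [hx]
    rw [Finset.sum_smul]
    refine Finset.sum_congr rfl ?_
    intro j _
    rw [map_smul, smul_eq_mul, smul_assoc]
  have hu : ∀ u : V', ∑ i, τ (β (v i) u) • v' i = u := fun u => (expand τ β v v' hd hs' u).symm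
  have sm : ∀ (t : k) (u : V') (y : V), β w u • t • y = β w (t • u) • y := by
    intro t u y
    rw [← algebraMap_smul K t u, map_smul, ← algebraMap_smul K t y, smul_eq_mul, mul_smul,
      smul_comm]
  have key : ∑ i, β w (v' i) • v i = ∑ a, ∑ j, β w (c' j • e' a) • (c j • e a) := by
    calc ∑ i, β w (v' i) • v i
        = ∑ i, ∑ a, ∑ j, β w (v' i) • τ (β (v i) (c' j • e' a)) • (c j • e a) := by
          refine Finset.sum_congr rfl ?_
          intro i _
          conv_lhs => rw [hv i]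
          rw [Finset.smul_sum]
          refine Finset.sum_congr rfl ?_
          intro a _
          rw [Finset.smul_sum]
      _ = ∑ a, ∑ j, ∑ i, β w (v' i) • τ (β (v i) (c' j • e' a)) • (c j • e a) := by
          rw [Finset.sum_comm]
          refine Finset.sum_congr rfl ?_
          intro a _
          rw [Finset.sum_comm]
      _ = ∑ a, ∑ j, β w (c' j • e' a) • (c j • e a) := by
          refine Finset.sum_congr rfl ?_
          intro a _
          refine Finset.sum_congr rfl ?_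
          intro j _
          conv_rhs => rw [← hu (c' j • e' a)]
          rw [map_sum, Finset.sum_smul]
          refine Finset.sum_congr rfl ?_
          intro i _
          exact sm _ _ _
  rw [key, Finset.sum_smul]
  conv_lhs => rw [hspan w]
  simp only [Finset.smul_sum]
  rw [Finset.sum_comm]
  refine Finset.sum_congr rfl ?_
  intro a _
  refine Finset.sum_congr rfl ?_
  intro j _
  rw [map_smul, smul_eq_mul, smul_smul, smul_smul]
  congr 1
  ring

/-- dual bases of a nondegenerate form on a finite dimensional space -/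
theorem exists_dual {F X : Type*} [Field F] [AddCommGroup X] [Module F X] [FiniteDimensional F X]
    (β : X →ₗ[F] X →ₗ[F] F) (hβ : ∀ y, (∀ x, β x y = 0) → y = 0) :
    ∃ (m : ℕ) (e e' : Fin m → X), (∀ a b, β (e a) (e' b) = if a = b then 1 else 0) ∧
      (⊤ ≤ Submodule.span F (Set.range e)) ∧ ∀ w, w = ∑ a, β w (e' a) • e a := by
  obtain ⟨e, he⟩ : ∃ e : Module.Basis (Fin (Module.finrank F X)) F X, e = Module.finBasis F X :=
    ⟨_, rfl⟩
  have hinj : Function.Injective β.flip := by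
    rw [← LinearMap.ker_eq_bot, LinearMap.ker_eq_bot']
    intro y hy
    apply hβ
    intro x
    have := LinearMap.congr_fun hy x
    simpa using this
  have hsurj : Function.Surjective β.flip := by
    have hfr : Module.finrank F X = Module.finrank F (X →ₗ[F] F) :=
      (Subspace.dual_finrank_eq (K := F) (V := X)).symm
    exact (LinearMap.injective_iff_surjective_of_finrank_eq_finrank hfr).1 hinj
  choose g hg using hsurj
  have hc : ∀ w b, β w (g (e.coord b)) = e.repr w b := by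
    intro w b
    have := LinearMap.congr_fun (hg (e.coord b)) w
    simpa using this
  refine ⟨_, e, fun b => g (e.coord b), ?_, ?_, ?_⟩
  · intro a b
    rw [hc, e.repr_self, Finsupp.single_apply]
  · rw [e.span_eq]
  · intro w
    conv_lhs => rw [← e.sum_repr w]
    refine Finset.sum_congr rfl ?_
    intro a _
    rw [hc]

/-- For a finite extension of fields of characteristic zero and a nonzero linear form `τ` there is
an element `δ ≠ 0` such that `δ w = ∑ β w (v' i) v i` for all `V`, `β` and all dual families. -/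
theorem uniform {F L : Type*} [Field F] [Field L] [Algebra F L] [CharZero F]
    [FiniteDimensional F L] (τ : L →ₗ[F] F) (hτ : τ ≠ 0) :
    ∃ δ : L, δ ≠ 0 ∧ ∀ (X : Type) [AddCommGroup X] [Module L X] [Module F X]
      [IsScalarTower F L X] (β : X →ₗ[L] X →ₗ[L] L) (n : ℕ) (v v' : Fin n → X),
      (∀ i j, τ (β (v i) (v' j)) = if i = j then 1 else 0) →
      ⊤ ≤ Submodule.span F (Set.range v) → ⊤ ≤ Submodule.span F (Set.range v') →
      ∀ w, δ • w = ∑ i, β w (v' i) • v i := by
  obtain ⟨m, c, c', hc, hcs, hcw⟩ := exists_dual (F := F) (X := L)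
    ((LinearMap.mul F L).compr₂ τ) (by
      intro y hy
      by_contra hy0
      apply hτ
      ext x
      have := hy (x * y⁻¹)
      simpa [mul_assoc, inv_mul_cancel₀ hy0] using this)
  have hc' : ∀ i j, τ (c i * c' j) = if i = j then 1 else 0 := by
    intro i j
    simpa using hc i j
  refine ⟨∑ j, c j * c' j, ?_, ?_⟩
  · intro h0
    have h1 : τ (∑ j, c j * c' j) = (m : F) := by
      rw [map_sum, Finset.sum_congr rfl (fun j _ => (hc' j j).trans (if_pos rfl))]
      simp
    rw [h0, map_zero] at h1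
    have hm : m = 0 := by exact_mod_cast h1.symm
    subst hm
    have h2 := hcw 1
    simp at h2
  · intro X _ _ _ _ β n v v' hd hs hs' w
    have : Module.Finite F X := by
      refine ⟨⟨(Set.finite_range v).toFinset, ?_⟩⟩
      rw [Set.Finite.coe_toFinset]
      exact top_le_iff.1 hs
    have : FiniteDimensional L X := Module.Finite.of_restrictScalars_finite F L X
    obtain ⟨r, e, e', -, -, hew⟩ := exists_dual β (by
      intro y hy
      have h := expand τ β v v' hd hs' y
      rw [h]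
      refine Finset.sum_eq_zero ?_
      intro i _
      rw [hy, map_zero, zero_smul])
    exact different τ β c c' hc' hcs v v' hd hs' e e' hew w

end Different

/-- Krull's intersection theorem and the Reynolds operator. -/
theorem krull {A R : Type*} [CommRing A] [IsLocalRing A] [CommRing R] [Algebra A R]
    [IsNoetherianRing R] (ρ : R →ₗ[A] A) (h1 : ρ 1 = 1) (n : Ideal R)
    (hn : ∀ r ∈ n, ρ r ∈ IsLocalRing.maximalIdeal A) (J : Ideal A) [IsArtinianRing (A ⧸ J)] :
    ∃ l, ∀ a, algebraMap A R a ∈ n ^ l → a ∈ J := by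
  have hρa : ∀ r a, ρ (r * algebraMap A R a) = a * ρ r := by
    intro r a
    rw [mul_comm, ← Algebra.smul_def, map_smul, smul_eq_mul]
  have hρ1 : ∀ a, ρ (algebraMap A R a) = a := by
    intro a
    have := hρa 1 a
    rwa [one_mul, h1, mul_one] at this
  have hρJ : ∀ r ∈ J.map (algebraMap A R), ρ r ∈ J := by
    have key : ∀ r ∈ J.map (algebraMap A R), ∀ s, ρ (s * r) ∈ J := by
      intro r hr
      refine Submodule.span_induction ?_ ?_ ?_ ?_ hr
      · rintro _ ⟨a, ha, rfl⟩ s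
        rw [hρa]
        exact J.mul_mem_right _ ha
      · intro s
        rw [mul_zero, map_zero]
        exact J.zero_mem
      · intro x y _ _ hx hy s
        rw [mul_add, map_add]
        exact J.add_mem (hx s) (hy s)
      · intro t x _ hx s
        rw [smul_eq_mul, ← mul_assoc]
        exact hx _
    intro r hr
    have := key r hr 1
    rwa [one_mul] at this
  -- the chain of ideals of `A / J`
  obtain ⟨b, hb⟩ : ∃ b : ℕ → Ideal (A ⧸ J),
      ∀ l, b l = ((n ^ l).comap (algebraMap A R)).map (Ideal.Quotient.mk J) := ⟨_, fun _ => rfl⟩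
  have hanti : Antitone b := by
    intro i j hij
    rw [hb, hb]
    exact Ideal.map_mono (Ideal.comap_mono (Ideal.pow_le_pow_right hij))
  obtain ⟨N, hN⟩ := IsArtinian.monotone_stabilizes
    (⟨fun l => OrderDual.toDual (b l), fun i j hij => hanti hij⟩ : ℕ →o (Submodule (A ⧸ J) (A ⧸ J))ᵒᵈ)
  have hN' : ∀ m, N ≤ m → b N = b m := fun m hm => hN m hm
  have hmem : ∀ l x, x ∈ b l → ∃ a, algebraMap A R a ∈ n ^ l ∧ Ideal.Quotient.mk J a = x := by
    intro l x hx
    rw [hb] at hx
    obtain ⟨a, ha, rfl⟩ := (Ideal.mem_map_iff_of_surjective _ Ideal.Quotient.mk_surjective).1 hx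
    exact ⟨a, ha, rfl⟩
  have hbot : ∀ x ∈ b N, x = 0 := by
    intro x hx
    obtain ⟨h, hh, rfl⟩ := hmem N x hx
    obtain ⟨I, hI⟩ : ∃ I, I = J.map (algebraMap A R) := ⟨_, rfl⟩
    rw [← hI] at hρJ
    have hall : ∀ m, Ideal.Quotient.mk I (algebraMap A R h) ∈ (n.map (Ideal.Quotient.mk I)) ^ m := by
      intro m
      have hxm : Ideal.Quotient.mk J h ∈ b (max N m) := by
        rw [← hN' _ (le_max_left N m)]
        exact hx
      obtain ⟨a, ha, hax⟩ := hmem _ _ hxm
      have h2 : h - a ∈ J := by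
        rw [← Ideal.Quotient.eq]
        exact hax.symm
      have h3 : Ideal.Quotient.mk I (algebraMap A R h) = Ideal.Quotient.mk I (algebraMap A R a) := by
        rw [Ideal.Quotient.eq, ← map_sub, hI]
        exact Ideal.mem_map_of_mem _ h2
      rw [h3, ← Ideal.map_pow]
      exact Ideal.mem_map_of_mem _ (Ideal.pow_le_pow_right (le_max_right N m) ha)
    have hinf : Ideal.Quotient.mk I (algebraMap A R h) ∈
        (⨅ i : ℕ, (n.map (Ideal.Quotient.mk I)) ^ i • (⊤ : Submodule (R ⧸ I) (R ⧸ I))) := by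
      rw [Submodule.mem_iInf]
      intro i
      rw [smul_eq_mul, Ideal.mul_top]
      exact hall i
    rw [Ideal.mem_iInf_smul_pow_eq_bot_iff] at hinf
    obtain ⟨⟨r, hr⟩, hr2⟩ := hinf
    obtain ⟨r0, hr0, rfl⟩ := (Ideal.mem_map_iff_of_surjective _ Ideal.Quotient.mk_surjective).1 hr
    have h4 : r0 * algebraMap A R h - algebraMap A R h ∈ I := by
      rw [← Ideal.Quotient.eq, map_mul]
      exact hr2
    have h5 := hρJ _ h4
    rw [map_sub, hρa, hρ1] at h5
    have h6 : h * (1 - ρ r0) ∈ J := by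
      have : h * (1 - ρ r0) = -(h * ρ r0 - h) := by ring
      rw [this]
      exact J.neg_mem h5
    have hu : IsUnit (1 - ρ r0) := by
      by_contra hcon
      have h7 : 1 - ρ r0 ∈ IsLocalRing.maximalIdeal A := (IsLocalRing.mem_maximalIdeal _).2 hcon
      have h8 : (1 : A) ∈ IsLocalRing.maximalIdeal A := by
        have := (IsLocalRing.maximalIdeal A).add_mem h7 (hn r0 hr0)
        rwa [sub_add_cancel] at this
      exact (Ideal.ne_top_iff_one _).1 (IsLocalRing.maximalIdeal.isMaximal A).ne_top h8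
    rw [Ideal.Quotient.eq_zero_iff_mem]
    exact (Ideal.mul_unit_mem_iff_mem _ hu).1 h6
  refine ⟨N, ?_⟩
  intro a ha
  have h2 : Ideal.Quotient.mk J a ∈ b N := by
    rw [hb]
    exact Ideal.mem_map_of_mem _ ha
  exact Ideal.Quotient.eq_zero_iff_mem.1 (hbot _ h2)

/-- In the Cohen-Macaulay case the stabiliser is finite. -/
theorem Slice.false {cm : Prop} {P A R Irr : Type} [CommRing P] [IsLocalRing P] [CommRing A]
    [IsLocalRing A] [Algebra P A] [CommRing R] [Algebra A R] (S : Slice cm P A R Irr) (h : cm) :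
    False := by
  have := S.artinian
  have := S.noetherian
  have := S.infinite
  obtain ⟨l, hl⟩ := krull S.ρ S.ρ_one S.n S.ρ_n
    ((IsLocalRing.maximalIdeal P).map (algebraMap P A))
  have hτ : ∀ a ∈ (IsLocalRing.maximalIdeal P).map (algebraMap P A),
      S.τ a ∈ IsLocalRing.maximalIdeal P := by
    have key : ∀ a ∈ (IsLocalRing.maximalIdeal P).map (algebraMap P A),
        ∀ b, S.τ (b * a) ∈ IsLocalRing.maximalIdeal P := by
      intro a ha
      refine Submodule.span_induction ?_ ?_ ?_ ?_ ha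
      · rintro _ ⟨y, hy, rfl⟩ b
        rw [mul_comm, ← Algebra.smul_def, map_smul, smul_eq_mul]
        exact Ideal.mul_mem_right _ _ hy
      · intro b
        rw [mul_zero, map_zero]
        exact Ideal.zero_mem _
      · intro x y _ _ hx hy b
        rw [mul_add, map_add]
        exact Ideal.add_mem _ (hx b) (hy b)
      · intro t x _ hx b
        rw [smul_eq_mul, ← mul_assoc]
        exact hx _
    intro a ha
    have := key a ha 1
    rwa [one_mul] at this
  obtain ⟨V, hV⟩ : ∃ V, V ∉ {V | S.deg V < l} := (S.finite l).exists_notMem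
  have hV' : l ≤ S.deg V := not_lt.1 hV
  have h1 : algebraMap A R (S.pair V) ∈ S.n ^ l := by
    rw [S.pair_eq]
    refine Ideal.sum_mem _ ?_
    intro j _
    exact Ideal.mul_mem_right _ _ (Ideal.pow_le_pow_right hV' (S.mem V j).1)
  have h2 := hτ _ (hl _ h1)
  rw [S.dual h V] at h2
  exact (Ideal.ne_top_iff_one _).1 (IsLocalRing.maximalIdeal.isMaximal P).ne_top h2

/-- Log discrepancies are positive for large `k`. -/
theorem Place.pos {K K' V W : Type} [Field K] [Field K'] [AddCommGroup V] [Module K V]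
    [AddCommGroup W] [Module K' W] {β : V →ₗ[K] V →ₗ[K] K} {M : Set V}
    {γ : W →ₗ[K'] W →ₗ[K'] K'} {ι : K →+* K'} {v : AddValuation K' (WithTop ℚ)} {k : ℕ} {a : ℚ}
    (p : Place K K' V W β M γ ι v k a) (δ : K) (hδ : v (ι δ) < ((k * a : ℚ) : WithTop ℚ))
    (n : ℕ) (x x' : Fin n → V) (hx : ∀ i, x i ∈ M) (hx' : ∀ i, x' i ∈ M)
    (hid : ∀ w, δ • w = ∑ i, β w (x' i) • x i) : 0 < p.disc := by
  have hid' : ∀ w, ι δ • w = ∑ i, γ w (p.val (x' i)) • p.val (x i) := by
    intro w
    have hw : w ∈ Submodule.span K' (Set.range p.val) := p.span trivial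
    refine Submodule.span_induction ?_ ?_ ?_ ?_ hw
    · rintro _ ⟨y, rfl⟩
      rw [← map_smulₛₗ, hid, map_sum]
      refine Finset.sum_congr rfl ?_
      intro i _
      rw [map_smulₛₗ, p.form]
    · simp
    · intro y z _ _ hy hz
      rw [smul_add, hy, hz, ← Finset.sum_add_distrib]
      refine Finset.sum_congr rfl ?_
      intro i _
      rw [map_add, LinearMap.add_apply, add_smul]
    · intro r y _ hy
      rw [smul_comm, hy, Finset.smul_sum]
      refine Finset.sum_congr rfl ?_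
      intro i _
      rw [map_smul, LinearMap.smul_apply, smul_eq_mul, mul_smul]
  obtain ⟨s, hs, hs0⟩ := p.free
  have hsum : ∀ (c : WithTop ℚ) (t : Finset (Fin n)) (f : Fin n → W), c < ⊤ →
      (∀ i ∈ t, c < p.ord (f i)) → c < p.ord (∑ i ∈ t, f i) := by
    intro c t f hc
    induction t using Finset.induction_on with
    | empty =>
      intro _
      rw [Finset.sum_empty]
      have h0 := p.ord_smul 0 s
      rw [zero_smul, v.map_zero, top_add] at h0
      rw [h0]
      exact hc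
    | insert i t hi ih =>
      intro h
      rw [Finset.sum_insert hi]
      refine lt_of_lt_of_le ?_ (p.ord_add _ _)
      exact lt_min (h i (Finset.mem_insert_self i t))
        (ih fun j hj => h j (Finset.mem_insert_of_mem hj))
  have hex : ∃ i, p.ord (p.val (x i)) ≤ v (ι δ) := by
    by_contra hcon
    push Not at hcon
    have h1 := hsum (v (ι δ)) Finset.univ
      (fun i => γ s (p.val (x' i)) • p.val (x i)) (lt_of_lt_of_le hδ le_top) (by
        intro i _
        rw [p.ord_smul]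
        refine lt_of_lt_of_le (hcon i) ?_
        have := p.integral s hs _ (p.git _ (hx' i))
        calc p.ord (p.val (x i)) = 0 + p.ord (p.val (x i)) := (zero_add _).symm
          _ ≤ _ := add_le_add_left this _)
    rw [← hid' s, p.ord_smul, hs0, add_zero] at h1
    exact lt_irrefl _ h1
  obtain ⟨i, hi⟩ := hex
  have h2 := p.adjunction (x i) (hx i)
  have h3 : ((k * a : ℚ) : WithTop ℚ) ≤ ((k * p.disc : ℚ) : WithTop ℚ) + v (ι δ) :=
    h2.trans (add_le_add_right hi _)
  obtain ⟨q, hq⟩ : ∃ q : ℚ, v (ι δ) = (q : WithTop ℚ) := by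
    have : v (ι δ) ≠ ⊤ := (lt_of_lt_of_le hδ le_top).ne
    obtain ⟨q, hq⟩ := WithTop.ne_top_iff_exists.1 this
    exact ⟨q, hq.symm⟩
  rw [hq] at h3 hδ
  have h4 : q < k * a := by exact_mod_cast hδ
  have h5 : (k * a : ℚ) ≤ k * p.disc + q := by exact_mod_cast h3
  have h6 : 0 < (k : ℚ) * p.disc := by linarith
  by_contra hcon
  push Not at hcon
  have : (k : ℚ) * p.disc ≤ 0 := mul_nonpos_of_nonneg_of_nonpos (Nat.cast_nonneg k) hcon
  linarith

/-- Not all `W_(a,b)` are Cohen-Macaulay at a point which is not a quotient singularity. -/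
theorem Germ.false {ext : ℕ → ℕ → ℕ} {K₀ K K' Div P A R Irr : Type} {V W : ℕ → Type} [Field K₀]
    [Field K] [Algebra K₀ K] [Field K'] [∀ k, AddCommGroup (V k)] [∀ k, Module K (V k)]
    [∀ k, Module K₀ (V k)] [∀ k, AddCommGroup (W k)]
    [∀ k, Module K' (W k)] [CommRing P] [IsLocalRing P] [CommRing A]
    [IsLocalRing A] [Algebra P A] [CommRing R] [Algebra A R]
    (g : Germ ext K₀ K K' Div P A R Irr V W) (h : ∀ a b, ext a b = 0) : False := by
  have := g.char
  have := g.fin
  have := g.tower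
  obtain ⟨δ, hδ, huni⟩ := uniform g.τ g.τ_ne
  obtain ⟨k₀, hk₀⟩ := g.klt δ hδ
  obtain ⟨n, v, v', hv, hv', hd, hs, hs'⟩ := (g.level (k₀ + 1)).dual h
  have hid := huni (V (k₀ + 1)) (g.level (k₀ + 1)).β n v v' hd hs hs'
  obtain ⟨S⟩ := g.slice (k₀ + 1) (Nat.succ_pos _) (fun B =>
    ((g.level (k₀ + 1)).place B).pos δ (hk₀ _ (Nat.le_succ _) B) n v v' hv hv' hid)
  exact S.false h

end Local

lemma NotQuotient.false {ext : ℕ → ℕ → ℕ} (h : NotQuotient ext) (h0 : ∀ a b, ext a b = 0) :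
    False := by
  obtain ⟨K₀, K, K', Div, P, A, R, Irr, V, W, _, _, _, _, _, _, _, _, _, _, _, _, _, _, _, _, ⟨g⟩⟩ := h
  exact g.false h0

/-- there are no dissident points -/
lemma Points.none {P Sh Dv Cu : Type*} [AddCommGroup P] {X : Threefold P Sh Dv Cu}
    (S : Points X) (h1 : ∀ a b, X.chi (X.W a b) = 0) (h2 : ∀ a b, X.ext a b = 0)
    (h3 : X.Elliptic) : S.s = 0 := by
  have hq : ∀ p, S.quot p := by
    intro p
    by_contra hcon
    exact (S.germ p hcon).false h2
  have hr : ∀ p, ∀ g ∈ S.G p, (tr g).im = 0 := by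
    have := S.fin
    have e1 : ∑ p, (∑ᶠ g : S.G p, (tr g - star (tr g)) ^ 2) / (Nat.card (S.G p) : ℂ) = 0 := by
      have : ∀ p, Fintype (S.G p) := fun p => Fintype.ofFinite _
      have k30 := S.kawasaki hq 3 0
      have k21 := S.kawasaki hq 2 1
      have k12 := S.kawasaki hq 1 2
      have k03 := S.kawasaki hq 0 3
      rw [h1] at k30 k21 k12 k03
      simp only [defect, finsum_eq_sum_of_fintype] at k30 k21 k12 k03 ⊢
      have e2 : ∑ p, (∑ g : S.G p, (tr g - star (tr g)) ^ 2) / (Nat.card (S.G p) : ℂ) =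
          ∑ p, (∑ g : S.G p, tr g ^ 3 * star (tr g) ^ 0 / (tr g - star (tr g))) /
              (Nat.card (S.G p) : ℂ) -
            3 * ∑ p, (∑ g : S.G p, tr g ^ 2 * star (tr g) ^ 1 / (tr g - star (tr g))) /
              (Nat.card (S.G p) : ℂ) +
            3 * ∑ p, (∑ g : S.G p, tr g ^ 1 * star (tr g) ^ 2 / (tr g - star (tr g))) /
              (Nat.card (S.G p) : ℂ) -
            ∑ p, (∑ g : S.G p, tr g ^ 0 * star (tr g) ^ 3 / (tr g - star (tr g))) /
              (Nat.card (S.G p) : ℂ) := by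
        rw [Finset.mul_sum, Finset.mul_sum, ← Finset.sum_sub_distrib, ← Finset.sum_add_distrib,
          ← Finset.sum_sub_distrib]
        refine Finset.sum_congr rfl fun p _ => ?_
        rw [← mul_div_assoc, ← mul_div_assoc, ← sub_div, ← add_div, ← sub_div]
        congr 1
        rw [Finset.mul_sum, Finset.mul_sum, ← Finset.sum_sub_distrib, ← Finset.sum_add_distrib,
          ← Finset.sum_sub_distrib]
        refine Finset.sum_congr rfl fun g _ => ?_
        by_cases h0 : tr g - star (tr g) = 0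
        · rw [h0, div_zero, div_zero, div_zero, div_zero]
          ring
        · field_simp
          ring
      rw [e2]
      have e3 : ∑ j, (S.B j : ℂ) * ((((3 : ℕ) : ℂ) - ((0 : ℕ) : ℂ)) * (S.t j : ℂ) ^ (3 + 0 - 1)) -
          3 * ∑ j, (S.B j : ℂ) * ((((2 : ℕ) : ℂ) - ((1 : ℕ) : ℂ)) * (S.t j : ℂ) ^ (2 + 1 - 1)) +
          3 * ∑ j, (S.B j : ℂ) * ((((1 : ℕ) : ℂ) - ((2 : ℕ) : ℂ)) * (S.t j : ℂ) ^ (1 + 2 - 1)) -
          ∑ j, (S.B j : ℂ) * ((((0 : ℕ) : ℂ) - ((3 : ℕ) : ℂ)) * (S.t j : ℂ) ^ (0 + 3 - 1)) = 0 := by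
        rw [Finset.mul_sum, Finset.mul_sum, ← Finset.sum_sub_distrib, ← Finset.sum_add_distrib,
          ← Finset.sum_sub_distrib]
        refine Finset.sum_eq_zero fun j _ => ?_
        push_cast
        ring
      push_cast at k30 k21 k12 k03 e3 ⊢
      linear_combination (-1 : ℂ) * k30 + 3 * k21 - 3 * k12 + k03 - e3
    have e4 : ∑ p, (∑ᶠ g : S.G p, (tr g).im ^ 2) / (Nat.card (S.G p) : ℝ) = 0 := by
      have : ∀ p, Fintype (S.G p) := fun p => Fintype.ofFinite _
      simp only [finsum_eq_sum_of_fintype] at e1 ⊢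
      have e5 : ∀ z : ℂ, (z - star z) ^ 2 = ((-4 * z.im ^ 2 : ℝ) : ℂ) := by
        intro z
        have : z - star z = ((2 * z.im : ℝ) : ℂ) * Complex.I := by
          apply Complex.ext <;> simp
          ring
        rw [this, mul_pow, Complex.I_sq]
        push_cast
        ring
      simp only [e5] at e1
      have e6 : ((∑ p, (∑ g : S.G p, -4 * (tr g).im ^ 2) / (Nat.card (S.G p) : ℝ) : ℝ) : ℂ) = 0 := by
        push_cast
        push_cast at e1
        exact e1
      have e7 := Complex.ofReal_eq_zero.1 e6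
      have e8 : ∑ p, (∑ g : S.G p, -4 * (tr g).im ^ 2) / (Nat.card (S.G p) : ℝ) =
          -4 * ∑ p, (∑ g : S.G p, (tr g).im ^ 2) / (Nat.card (S.G p) : ℝ) := by
        rw [Finset.mul_sum]
        refine Finset.sum_congr rfl fun p _ => ?_
        rw [← Finset.mul_sum]
        ring
      rw [e8] at e7
      linarith
    intro p g hg
    have : ∀ p, Fintype (S.G p) := fun p => Fintype.ofFinite _
    simp only [finsum_eq_sum_of_fintype] at e4
    have f0 : ∀ p, 0 ≤ ∑ g : S.G p, (tr g).im ^ 2 := fun p =>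
      Finset.sum_nonneg fun g _ => sq_nonneg _
    have f1 := (Finset.sum_eq_zero_iff_of_nonneg (fun p _ => by
      have := f0 p
      positivity)).1 e4 p (Finset.mem_univ p)
    have f2 : (Nat.card (S.G p) : ℝ) ≠ 0 := by
      have : 0 < Nat.card (S.G p) := Nat.card_pos
      positivity
    have f3 : ∑ g : S.G p, (tr g).im ^ 2 = 0 := by
      rcases div_eq_zero_iff.1 f1 with h | h
      · exact h
      · exact absurd h f2
    have f4 := (Finset.sum_eq_zero_iff_of_nonneg (fun g _ => sq_nonneg _)).1 f3 ⟨g, hg⟩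
      (Finset.mem_univ _)
    exact pow_eq_zero_iff (two_ne_zero) |>.1 f4
  by_contra hs
  have := S.fin
  obtain ⟨p⟩ : Nonempty (Fin S.s) := Fin.pos_iff_nonempty.1 (Nat.pos_of_ne_zero hs)
  refine S.axis p (hq p) (exists_fixed (S.G p) (hr p)
    fun g hg g' hg' h4 h5 v v' h6 h7 h8 h9 => ?_)
  rcases S.branch p (hq p) g hg g' hg' v v' ⟨h4, h6, h8⟩ ⟨h5, h7, h9⟩ with h | ⟨i, h⟩ | ⟨i, j, h, h'⟩
  · exact h
  · exact absurd ((h3.1 i).1.trans (h3.1 i).2.symm) h
  · exact absurd (h3.2 i j h) h'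

/-- the common part of the main theorem for numerical dimension one and two -/
theorem Threefold.core {P Sh Dv Cu : Type*} [AddCommGroup P] (X : Threefold P Sh Dv Cu)
    (S : Points X) (x : P) (hx : X.Nef x) (ha : X.Far x) (hs : ¬ X.SA x)
    (he : ∀ z, X.T x x z ≤ 0 → X.T x X.H z ≤ 0 → ∃ n0 : ℤ, ∀ n, n0 ≤ n → ¬ X.Eff (n • x + z))
    (h2 : 2 ≤ Module.finrank ℤ P) :
    (S.s = 0 ∧ X.Elliptic) ∧ X.Numbers x ∧ X.Curves x := by
  obtain ⟨hT, hc⟩ := X.flat x hx ha hs
  have hW := X.tensor x hx ha hs he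
  have hcen : ∀ i, X.deg (X.cen i) x = 0 := (X.ch_W x hx hc).2
  have hell : X.Elliptic := ⟨fun i => X.elliptic x hx ha hs _ (hcen i), fun i j hij =>
    X.disjoint x hx ha hs _ _ hij (hcen i) (hcen j)⟩
  have hs0 : S.s = 0 := S.none (fun a b => (hW a b).1) (fun a b => (hW a b).2) hell
  have e6 := S.euler hs0 hell
  rw [(hW 0 1).1] at e6
  refine ⟨⟨hs0, hell⟩, ⟨⟨hT, hc⟩, ⟨?_, by linarith⟩, hW⟩,
    ⟨X.not_tors x hx ha hs, X.elliptic x hx ha hs⟩⟩
  show (2 : ℤ) ≤ (Module.finrank ℤ P : ℤ)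
  exact_mod_cast h2

/-- numerical dimension two -/
theorem Threefold.main {P Sh Dv Cu : Type*} [AddCommGroup P] [Module.Finite ℤ P]
    (X : Threefold P Sh Dv Cu) (S : Points X) (x : P) (h2 : X.NefTwo x) (hD : X.NoSurface x)
    (hs : ¬ X.SA x) :
    ((S.s = 0 ∧ X.Elliptic) ∧ X.Numbers x ∧ X.Curves x) ∧ X.Forms x ∧ X.Cone x := by
  obtain ⟨hx, hsq⟩ := h2
  have hpos : 0 < X.T X.H x x :=
    lt_of_le_of_ne (X.nonneg _ _ _ X.nef_H hx hx) (Ne.symm hsq)
  have hamp : X.AmpS x := by
    rcases X.nakai x hx hpos with h | h | ⟨D, h⟩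
    · exact h
    · exact absurd h hs
    · obtain ⟨w, hw⟩ := hD D
      exact absurd (h w) hw
  have ha := X.far x hamp
  obtain ⟨hT, hc⟩ := X.flat x hx ha hs
  have hC := X.curve_pos x hx ha hs
  have hH : 0 < X.T x x X.H := by
    have : X.T x x X.H = X.T X.H x x := by rw [X.symm23 x x X.H]; exact X.symm12 x X.H x
    rw [this]
    exact hpos
  exact ⟨X.core S x hx ha hs (fun z hz _ => X.not_eff_large x hx hT hH hC hD hs z hz)
    (X.two_le x hT hH),
    fun φ h1 h2 => ⟨_, _, hH, h1 _ X.nef_H, X.form_eq x hx hT hC hH φ h1 h2⟩,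
    X.ample_half x hx hT hC, X.not_eff_large x hx hT hH hC hD hs⟩

/-- a quotient `Z` of `f^* G` for which `f_* Z` is supported on a curve -/
theorem Images.dim_le {C Sh : Type} [Category.{0} C] [Abelian C] {pull : Sh → C}
    (I : Images C Sh pull) (G : Sh) (Z : C) (p : pull G ⟶ Z) [Epi p] (h0 : I.dim Z 0 ≤ 1)
    (j : ℕ) (hj : j ≤ 2) : I.dim Z j ≤ 1 - j := by
  obtain ⟨V, r, hr, hV⟩ := I.bundle G
  have he : Epi (r ≫ p) := epi_comp r p
  have hS : (ShortComplex.mk (kernel.ι (r ≫ p)) (r ≫ p) (kernel.condition _)).ShortExact :=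
    { exact := ShortComplex.exact_kernel _ }
  have h1 := I.long _ hS
  obtain ⟨h3, h4⟩ := I.fibres (kernel (r ≫ p))
  interval_cases j
  · simpa using h0
  · have h2 := h1 1
    simp only at h2
    rw [hV 1 le_rfl] at h2
    push_cast
    refine h2.trans (max_le (by norm_num) ?_)
    linarith
  · have h2 := h1 2
    simp only at h2
    rw [hV 2 (by norm_num)] at h2
    push_cast
    refine h2.trans (max_le (by norm_num) ?_)
    rw [h4]

namespace Resolution

variable {P Sh Dv Cu C P' ι : Type} [AddCommGroup P] [Category.{0} C] [Abelian C]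
    [HasExt.{0} C] [AddCommGroup P'] [Fintype ι] [DecidableEq ι] {X : Threefold P Sh Dv Cu} {x : P}
    {Y : Sheaves C P' ι} (f : Resolution X x Y)

/-- (B): the class given by `H^2(X, G(b x)) ≠ 0` is not killed by sections of `O(E)` -/
lemma not_killed (G : Sh) (b : ℤ) (e : Ext (f.pull G) (Y.L 0 b) 1) (E : ι → ℕ) (hE : 0 ≤ E)
    (he : Y.up hE e = 0) : e = 0 := by
  have := Y.s_mono hE b
  obtain ⟨S, hSdef⟩ : ∃ S : ShortComplex C, S = ShortComplex.mk (Y.s hE b)
      (cokernel.π (Y.s hE b)) (cokernel.condition _) := ⟨_, rfl⟩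
  have hS : S.ShortExact := by
    rw [hSdef]
    exact { exact := ShortComplex.exact_cokernel _ }
  subst hSdef
  obtain ⟨y, hy⟩ := Ext.covariant_sequence_exact₁ (f.pull G) hS e he (n₀ := 0) (by norm_num)
  obtain ⟨φ, rfl⟩ := (Ext.mk₀_bijective _ _).2 y
  have hfac : factorThruImage φ ≫ Limits.image.ι φ = φ := Limits.image.fac φ
  have h1 : (Ext.mk₀ (Limits.image.ι φ)).comp hS.extClass (zero_add 1) = 0 := by
    refine f.serre _ b ?_ _
    have hd := f.I.dim_le G (Limits.image φ) (factorThruImage φ)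
      (f.support E hE b (Limits.image φ) (Limits.image.ι φ) inferInstance)
    have h2 := f.leray (Limits.image φ) b
    rw [f.vanish _ 2 0 b (by have := hd 0 (by norm_num); push_cast at *; linarith),
      f.vanish _ 1 1 b (by have := hd 1 (by norm_num); push_cast at *; linarith),
      f.vanish _ 0 2 b (by have := hd 2 (by norm_num); push_cast at *; linarith)] at h2
    omega
  rw [← hy, ← hfac, ← Ext.mk₀_comp_mk₀, Ext.comp_assoc_of_second_deg_zero, h1, Ext.comp_zero]

include f in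

/-- the second cohomology is zero except for a sparse set -/
theorem sparse (R : Surfaces Y) (hx : X.Nef x) (G : Sh) (hG : X.Fam x G) :
    Sparse fun b => X.h G 2 (b • x) ≠ 0 := by
  obtain ⟨A, B, i, p, w, hS, h3, hc, ⟨E₀, hE₀, htors⟩, u, hu0, hu⟩ := f.torsion G hG
  have hch : Y.ch B = 0 := by
    have h6 : (6 : ℤ) * Y.ch B = 0 := by
      rw [hu]
      rcases hG with h | ⟨hcx, h⟩
      · rw [hu0 h, h, X.ch_O]
        simp
      · obtain ⟨hW, hcen⟩ := X.ch_W x hx hcx
        have : ∑ i, u i * X.deg (X.cen i) x = 0 :=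
          Finset.sum_eq_zero fun i _ => by rw [hcen i, mul_zero]
        rw [this, add_zero]
        suffices hG0 : X.ch G x = 0 by rw [hG0, mul_zero]
        rcases h with ⟨a, b, rfl⟩ | ⟨C, hC, rfl | ⟨hpg, rfl⟩⟩ | ⟨C, D, hne, hC, hD, rfl⟩
        · exact hW a b
        · rw [X.ch_I, LinearMap.smul_apply, hC, smul_zero]
        · rw [f.ch_K C hpg, hW, hC]
          ring
        · rw [X.ch_J C D hne, LinearMap.smul_apply, LinearMap.add_apply, hC, hD, add_zero,
            smul_zero]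
    linarith
  obtain ⟨E₂, hE₂, hfew⟩ := Y.few R (Y.rk B).toNat B (Int.self_le_toNat _) ⟨h3, hc, hch⟩ E₀
  refine Sparse.mono hfew 0 fun b _ hb => ?_
  obtain ⟨e, he⟩ := f.dual G b hb
  by_contra hcon
  push Not at hcon
  apply he
  refine f.not_killed G b e E₂ (hE₀.trans hE₂) ?_
  have k1 : (Ext.mk₀ i).comp (Y.up hE₀ e) (zero_add 1) = 0 := by
    have := htors b ((Ext.mk₀ i).comp e (zero_add 1))
    unfold Sheaves.up at this ⊢
    rw [Ext.comp_assoc_of_third_deg_zero] at this
    exact this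
  obtain ⟨y, hy⟩ := Ext.contravariant_sequence_exact₂ hS _ (Y.up hE₀ e) k1
  have k2 := hcon y
  rw [← Y.up_up hE₀ hE₂, ← hy]
  unfold Sheaves.up at k2 ⊢
  rw [Ext.comp_assoc_of_third_deg_zero, k2, Ext.comp_zero]

include f in

/-- (A) and (B) -/
theorem far (R : Surfaces Y) (hx : X.Nef x) : X.Far x := by
  intro G hG
  obtain ⟨b₀, hb⟩ := f.top G
  exact ⟨_, f.sparse R hx G hG, b₀, fun b hb' => ⟨hb b hb', fun h => not_not.1 h⟩⟩

end Resolution

lemma Threefold.Resolved.far {P Sh Dv Cu : Type} [AddCommGroup P] {X : Threefold P Sh Dv Cu}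
    {x : P} (h : X.Resolved x) (hx : X.Nef x) : X.Far x := by
  obtain ⟨C, P', ι, _, _, _, _, _, _, Y, ⟨R⟩, ⟨f⟩⟩ := h
  exact f.far R hx

/-- numerical dimension one -/
theorem Threefold.main_one {P Sh Dv Cu : Type} [AddCommGroup P] [Module.Finite ℤ P]
    (X : Threefold P Sh Dv Cu) (S : Points X) (x : P) (h1 : X.NefOne x) (hD : X.NoSurface x)
    (ha : X.Resolved x) (hs : ¬ X.SA x) :
    (S.s = 0 ∧ X.Elliptic) ∧ X.Numbers x ∧ X.Curves x :=
  X.core S x h1.1 (ha.far h1.1) hs (fun z _ hz => X.not_eff_one x h1 hD z hz) (X.two_le_one x h1)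

end Pool.Agent.H76.CY
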