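import Pool.Agent.H76.V.Centres

/-!
# Surfaces: bundles of large rank, extensions by multiples of a nef class (MP_5ee2d0, Theorem V)
-/

namespace Pool.Agent.H76.V

/-- A smooth projective simply connected surface `S` with an ample class `h` and a nef class `N₀ ≠ 0`
with `N₀^2 = 0` no positive multiple of which is effective. `G` is the Picard group, `Sf` the set of
torsion free sheaves. -/
structure Surface (G Sf : Type) [AddCommGroup G] where
  /-- the intersection form -/
  I : G →ₗ[ℤ] G →ₗ[ℤ] ℤ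
  symm : ∀ x y, I x y = I y x
  N₀ : G
  h : G
  sq : I N₀ N₀ = 0
  pos : 0 < I N₀ h
  pos_h : 0 < I h h
  /-- Hodge index theorem: the form is negative semidefinite on the complement of `N₀` and `h` -/
  hodge : ∀ v, I N₀ h ^ 2 * I v v ≤ 2 * I N₀ h * (I v N₀ * I v h) - I v N₀ ^ 2 * I h h
  /-- Hodge index theorem; `N₀` is primitive -/
  prim : ∀ v, I v N₀ = 0 → I v v = 0 → ∃ k : ℤ, v = k • N₀
  /-- the rank -/
  rk : Sf → ℕ
  /-- the first Chern class -/
  c1 : Sf → G
  /-- twice the second Chern character -/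
  ch : Sf → ℤ
  /-- slope stability for `h` -/
  Stable : Sf → Prop
  /-- the dimension of `H^i(S, F(k N₀))` -/
  h0 : Sf → ℤ → ℕ
  h1 : Sf → ℤ → ℕ
  /-- the dimension of `H^i(S, O(k N₀))` -/
  l0 : ℤ → ℕ
  l1 : ℤ → ℕ
  rk_pos : ∀ F, 0 < rk F
  /-- a sheaf of rank one with discriminant zero is invertible -/
  line : ∀ F (j : ℤ), rk F = 1 → I (c1 F) (c1 F) = ch F → c1 F = j • N₀ →
    ∀ k, h0 F k = l0 (j + k) ∧ h1 F k = l1 (j + k)
  l0_zero : l0 0 = 1
  l1_zero : l1 0 = 0
  l0_ne : ∀ k, k ≠ 0 → l0 k = 0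
  /-- classes of effective divisors -/
  Eff : G → Prop
  eff_nef : ∀ Z, Eff Z → 0 ≤ I Z N₀
  eff_l0 : ∀ k : ℤ, Eff (k • N₀) → l0 k ≠ 0
  /-- the curves `C` with `C.N₀ = 0` have a negative definite intersection matrix, so `N₀` is not a
  combination of them -/
  eff_neg : ∀ x y (k : ℤ), Eff x → Eff y → I x N₀ = 0 → I y N₀ = 0 → x - y = k • N₀ → k = 0
  /-- A nonzero class in `H^1(S, O(-j N₀))` is a nonsplit extension `E` of `O(j N₀)` by `O`. If `E` is
  not stable then it is an extension of `I_W(Z)` by `O(j N₀ - Z)`, and the map from `O(j N₀ - Z)` to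
  `O(j N₀)` is neither zero nor an isomorphism. -/
  ext : ∀ j, 0 < j → l1 (-j) ≠ 0 →
    (∃ F, Stable F ∧ rk F = 2 ∧ c1 F = j • N₀ ∧ ch F = 0) ∨
      ∃ Z, Eff Z ∧ Z ≠ 0 ∧ 2 * I Z h ≤ I (j • N₀) h ∧ I (j • N₀ - Z) Z ≤ 0
  /-- Maruyama: semistable sheaves with bounded rank, bounded discriminant and bounded first Chern
  class are a bounded family -/
  bounded : ∀ D : ℤ, ∃ M : ℕ, ∀ F (k : ℤ), Stable F → (rk F : ℤ) ≤ D →
    I (c1 F) (c1 F) - rk F * ch F ≤ D → |I (c1 F + (rk F * k) • N₀) N₀| ≤ D →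
    |I (c1 F + (rk F * k) • N₀) h| ≤ D →
    -D ≤ I (c1 F + (rk F * k) • N₀) (c1 F + (rk F * k) • N₀) → h1 F k ≤ M
  /-- a Kähler metric with Kähler class `h` and a covering of `S` by small balls -/
  A : Atlas
  /-- the random centres of the balls -/
  Z : Centres A
  /-- Donaldson, Uhlenbeck and Yau: the double dual `F'` of a stable sheaf `F` has a Hermite-Einstein
  metric. It gives a connection on `End F'` of energy `8 π^2 Δ(F')`, `Δ(F') ≤ Δ(F)`. Riemann-Roch
  theorem and Serre duality for `End F'`: `h^0 = 1` and `h^2` is the dimension of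
  `H^0(S, End F' ⊗ K_S)`. -/
  hermite : ∀ F, Stable F → ∃ k : ℕ,
    (rk F : ℤ) ^ 2 * (1 + A.pg) - (I (c1 F) (c1 F) - rk F * ch F) - 1 ≤ k ∧
      Nonempty (Connection A Z (rk F ^ 2) k (I (c1 F) (c1 F) - rk F * ch F : ℤ))

/-- The extension `0 → ⊕ O(-b N) → E → Q → 0` of the stable sheaf `Q` by the sum over `b` in `B` which is
given by classes `e_b`, `N = d N₀`. The saturated subsheaves of the sheaf `E` are the subspaces of
its generic fibre, a vector space over the function field `K` of `S`. -/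
structure Extension {G Sf : Type} [AddCommGroup G] (S : Surface G Sf) (d : ℤ) (g : ℕ) (c : G)
    (ch : ℤ) (B : Finset ℤ) where
  K : Type
  [fieldK : Field K]
  /-- the generic fibre -/
  E : Type
  [grpE : AddCommGroup E]
  [modE : Module K E]
  [finE : Module.Finite K E]
  finrank_E : Module.finrank K E = g + B.card
  /-- a generator of the generic fibre of `O(-b N)` -/
  v : ℤ → E
  indep : LinearIndependent K fun b : B => v b
  /-- the first Chern class of the saturated subsheaf with the given generic fibre -/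
  cl : Submodule K E → G
  cl_top : cl ⊤ = c - ((∑ b ∈ B, b) * d) • S.N₀
  cl_sum : ∀ B' ⊆ B, cl (Submodule.span K (v '' B')) = -((∑ b ∈ B', b) * d) • S.N₀
  /-- the sum of two subsheaves has the same rank as its saturation -/
  super : ∀ W W', S.I (cl W) S.N₀ + S.I (cl W') S.N₀ ≤
    S.I (cl (W ⊓ W')) S.N₀ + S.I (cl (W ⊔ W')) S.N₀
  /-- `Q` is stable for `N`, of degree zero -/
  stable : ∀ W, Submodule.span K (v '' B) < W → W < ⊤ → S.I (cl W) S.N₀ < 0
  /-- a nonzero map from an invertible subsheaf of `⊕ O(-b N)` to `O(-b N)` is a section -/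
  proj : ∀ R : Submodule K E, Module.finrank K R = 1 → R ≤ Submodule.span K (v '' B) → ∀ b ∈ B,
    ¬ R ≤ Submodule.span K (v '' (B.erase b)) → S.Eff (-(b * d) • S.N₀ - cl R)
  /-- If a subsheaf of degree zero is mapped onto a subsheaf `Q'` of full rank of `Q`, and its
  intersection with `⊕ O(-b N)` is contained in the sum of the `O(-b' N)`, `b' ≠ b`, then the extension
  given by `e_b` splits over `Q'`. The quotient `Q/Q'` is supported on points and on curves `C` with
  `C.N = 0`, so the image of `e_b` in `Ext^1(Q, O(-b N + D'))` is zero for some combination `D'` of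
  these curves. -/
  split : ∀ W, S.I (cl W) S.N₀ = 0 → W ⊔ Submodule.span K (v '' B) = ⊤ → ∀ b ∈ B,
    ¬ W ⊓ Submodule.span K (v '' B) ≤ Submodule.span K (v '' (B.erase b))
  /-- the number of factors of a filtration for `h`-stability of `E` (Harder-Narasimhan,
  Jordan-Hölder) -/
  m : ℕ
  /-- the factors -/
  F : Fin m → Sf
  /-- the subsheaves of the filtration -/
  fil : Fin m → Submodule K E
  fil_stable : ∀ i, S.Stable (F i)
  fil_rk : ∀ i, Module.finrank K (fil i) = ∑ j ∈ Finset.Iic i, S.rk (F j)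
  fil_cl : ∀ i, cl (fil i) = ∑ j ∈ Finset.Iic i, S.c1 (F j)
  sum_rk : ∑ i, S.rk (F i) = g + B.card
  sum_cl : ∑ i, S.c1 (F i) = c - ((∑ b ∈ B, b) * d) • S.N₀
  sum_ch : ∑ i, S.ch (F i) = ch
  slope : ∀ i j, i ≤ j → S.I (S.c1 (F j)) S.h * S.rk (F i) ≤ S.I (S.c1 (F i)) S.h * S.rk (F j)
  /-- the dimension of `H^0(S, E(k N₀))` -/
  hE : ℤ → ℕ
  /-- long exact sequences -/
  hE_sum : ∀ k, ∑ i, ((S.h0 (F i) k : ℤ) - S.h1 (F i) k) ≤ hE k
  /-- a section of `E(k N₀)` is a nonzero map from `O(-k N₀)` to an invertible subsheaf -/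
  hE_sec : ∀ k, hE k ≠ 0 → ∃ R : Submodule K E, Module.finrank K R = 1 ∧ S.Eff (cl R + k • S.N₀)

attribute [instance] Extension.fieldK Extension.grpE Extension.modE Extension.finE

/-- A torsion free sheaf `Q` on `S` of rank `g`, stable for the class `N = d N₀`, with first Chern
class `c`, `c.N = 0`, and twice second Chern character `ch`. `Bad b` says that there is a class `e_b`
in `Ext^1(Q, O(-b N))` whose image in `Ext^1(Q, O(-b N + D'))` is not zero for all effective `D'` with
`D'.N = 0`. -/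
structure Test (G Sf : Type) [AddCommGroup G] (S : Surface G Sf) (Bad : ℤ → Prop) where
  d : ℤ
  d_pos : 0 < d
  g : ℕ
  g_pos : 0 < g
  c : G
  c_N : S.I c S.N₀ = 0
  ch : ℤ
  /-- the extension given by the sum of the classes `e_b` -/
  exten : ∀ B : Finset ℤ, B.Nonempty → (∀ b ∈ B, Bad b) →
    Nonempty (Extension S d g c ch B)

end Pool.Agent.H76.V
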