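import Pool.Agent.H76.V.P3

/-!
# Loops have small holonomy if triangles have (MP_5ee2d0, Theorem V, step 1)
-/

namespace Pool.Agent.H76.V

theorem hs_nonneg' {R : ℕ} (A : Matrix (Fin R) (Fin R) ℂ) : 0 ≤ hs A :=
  Finset.sum_nonneg fun _ _ => Finset.sum_nonneg fun _ _ => sq_nonneg _

theorem dist2_nonneg {R : ℕ} (U V : Matrix.unitaryGroup (Fin R) ℂ) : 0 ≤ dist2 U V :=
  hs_nonneg' _

theorem dist2_self {R : ℕ} (U : Matrix.unitaryGroup (Fin R) ℂ) : dist2 U U = 0 := by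
  simp [dist2, hs]

theorem dist2_comm {R : ℕ} (U V : Matrix.unitaryGroup (Fin R) ℂ) : dist2 U V = dist2 V U := by
  simp only [dist2, hs, Matrix.sub_apply, norm_sub_rev]

/-- left invariance -/
theorem dist2_mul_left {R : ℕ} (W U V : Matrix.unitaryGroup (Fin R) ℂ) :
    dist2 (W * U) (W * V) = dist2 U V := by
  unfold dist2
  rw [← hs_unitary_mul ((U : Matrix (Fin R) (Fin R) ℂ) - (V : Matrix (Fin R) (Fin R) ℂ)) W,
    Matrix.mul_sub]
  rfl

/-- right invariance -/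
theorem dist2_mul_right {R : ℕ} (U V W : Matrix.unitaryGroup (Fin R) ℂ) :
    dist2 (U * W) (V * W) = dist2 U V := by
  unfold dist2
  rw [← hs_mul_unitary ((U : Matrix (Fin R) (Fin R) ℂ) - (V : Matrix (Fin R) (Fin R) ℂ)) W,
    Matrix.sub_mul]
  rfl

theorem dist2_tri {R : ℕ} (U V W : Matrix.unitaryGroup (Fin R) ℂ) :
    dist2 U W ≤ 2 * dist2 U V + 2 * dist2 V W := by
  have h := hs_add_le ((U : Matrix (Fin R) (Fin R) ℂ) - (V : Matrix (Fin R) (Fin R) ℂ))
    ((V : Matrix (Fin R) (Fin R) ℂ) - (W : Matrix (Fin R) (Fin R) ℂ))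
  rwa [sub_add_sub_cancel] at h

/-- the word of a triangle -/
def triWord {v : ℕ} (t : Fin v × Fin v × Fin v) : FreeGroup (Fin v × Fin v) :=
  (FreeGroup.of (t.1, t.2.2))⁻¹ * FreeGroup.of (t.2.1, t.2.2) * FreeGroup.of (t.1, t.2.1)

/-- the sum of the defects of the triangles -/
noncomputable def defect {v R : ℕ} (tri : Finset (Fin v × Fin v × Fin v))
    (P : Fin v × Fin v → Matrix.unitaryGroup (Fin R) ℂ) : ℝ :=
  ∑ t ∈ tri, dist2 ((P (t.1, t.2.2))⁻¹ * P (t.2.1, t.2.2) * P (t.1, t.2.1)) 1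

theorem defect_nonneg {v R : ℕ} (tri : Finset (Fin v × Fin v × Fin v))
    (P : Fin v × Fin v → Matrix.unitaryGroup (Fin R) ℂ) : 0 ≤ defect tri P :=
  Finset.sum_nonneg fun _ _ => dist2_nonneg _ _

/-- the words whose holonomy is bounded by that of the triangles -/
def tame {v : ℕ} (tri : Finset (Fin v × Fin v × Fin v)) : Subgroup (FreeGroup (Fin v × Fin v)) where
  carrier := {g | ∃ M : ℝ, 0 ≤ M ∧ ∀ (R : ℕ) (P : Fin v × Fin v → Matrix.unitaryGroup (Fin R) ℂ),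
    dist2 (FreeGroup.lift P g) 1 ≤ M * defect tri P}
  mul_mem' := by
    rintro g h ⟨M, hM, hg⟩ ⟨M', hM', hh⟩
    refine ⟨2 * M + 2 * M', by positivity, fun R P => ?_⟩
    rw [map_mul]
    have h1 := dist2_tri (FreeGroup.lift P g * FreeGroup.lift P h) (FreeGroup.lift P h) 1
    have h2 := dist2_mul_right (FreeGroup.lift P g) 1 (FreeGroup.lift P h)
    rw [one_mul] at h2
    rw [h2] at h1
    nlinarith [hg R P, hh R P]
  one_mem' := ⟨0, le_rfl, fun R P => by rw [map_one, dist2_self, zero_mul]⟩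
  inv_mem' := by
    rintro g ⟨M, hM, hg⟩
    refine ⟨M, hM, fun R P => ?_⟩
    rw [map_inv]
    have h := dist2_mul_left (FreeGroup.lift P g) (FreeGroup.lift P g)⁻¹ 1
    rw [mul_inv_cancel, mul_one, dist2_comm] at h
    rw [← h]
    exact hg R P

theorem tame_normal {v : ℕ} (tri : Finset (Fin v × Fin v × Fin v)) : (tame tri).Normal := by
  constructor
  rintro g ⟨M, hM, hg⟩ h
  refine ⟨M, hM, fun R P => ?_⟩
  rw [map_mul, map_mul, map_inv]
  have h1 := dist2_mul_right (FreeGroup.lift P h * FreeGroup.lift P g) (FreeGroup.lift P h * 1)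
    (FreeGroup.lift P h)⁻¹
  rw [dist2_mul_left, mul_one, mul_inv_cancel] at h1
  rw [h1]
  exact hg R P

theorem triWord_mem {v : ℕ} {tri : Finset (Fin v × Fin v × Fin v)} {t : Fin v × Fin v × Fin v}
    (ht : t ∈ tri) : triWord t ∈ tame tri := by
  refine ⟨1, zero_le_one, fun R P => ?_⟩
  rw [one_mul, triWord, map_mul, map_mul, map_inv, FreeGroup.lift_apply_of,
    FreeGroup.lift_apply_of, FreeGroup.lift_apply_of]
  exact Finset.single_le_sum (f := fun t : Fin v × Fin v × Fin v =>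
    dist2 ((P (t.1, t.2.2))⁻¹ * P (t.2.1, t.2.2) * P (t.1, t.2.1)) 1)
    (fun _ _ => dist2_nonneg _ _) ht

/-- loops have small holonomy if triangles have -/
theorem Atlas.loops (A : Atlas) : ∃ M : ℝ, 0 ≤ M ∧ ∀ (R : ℕ)
    (P : Fin A.v × Fin A.v → Matrix.unitaryGroup (Fin R) ℂ),
    ∃ U : Fin A.v → Matrix.unitaryGroup (Fin R) ℂ,
      ∑ p ∈ A.adj, dist2 (P p * U p.1) (U p.2) ≤
        M * ∑ t ∈ A.tri, dist2 ((P (t.1, t.2.2))⁻¹ * P (t.2.1, t.2.2) * P (t.1, t.2.1)) 1 := by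
  have := tame_normal A.tri
  have hsub : Subgroup.normalClosure {w | ∃ t ∈ A.tri, w = (FreeGroup.of (t.1, t.2.2))⁻¹ *
      FreeGroup.of (t.2.1, t.2.2) * FreeGroup.of (t.1, t.2.1)} ≤ tame A.tri := by
    refine Subgroup.normalClosure_le_normal ?_
    rintro w ⟨t, ht, rfl⟩
    exact triWord_mem ht
  have key : ∀ p ∈ A.adj, ∃ M : ℝ, 0 ≤ M ∧ ∀ (R : ℕ)
      (P : Fin A.v × Fin A.v → Matrix.unitaryGroup (Fin R) ℂ),
      dist2 (FreeGroup.lift P ((A.path p.2)⁻¹ * FreeGroup.of p * A.path p.1)) 1 ≤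
        M * defect A.tri P := fun p hp => hsub (A.simply p hp)
  choose! M hM hP using key
  refine ⟨∑ p ∈ A.adj, M p, Finset.sum_nonneg hM, fun R P => ?_⟩
  refine ⟨fun a => FreeGroup.lift P (A.path a), ?_⟩
  rw [Finset.sum_mul]
  refine Finset.sum_le_sum fun p hp => ?_
  have h := hP p hp R P
  rw [map_mul, map_mul, map_inv, FreeGroup.lift_apply_of] at h
  have h1 := dist2_mul_left (FreeGroup.lift P (A.path p.2))
    ((FreeGroup.lift P (A.path p.2))⁻¹ * P p * FreeGroup.lift P (A.path p.1)) 1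
  rw [mul_one, ← mul_assoc, ← mul_assoc, mul_inv_cancel, one_mul] at h1
  rw [h1]
  exact h

end Pool.Agent.H76.V
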