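import Pool.Agent.H76.V.Bundle

/-!
# Convex combinations of unitary matrices (MP_5ee2d0, Theorem V, step 1, P1 and P2)
-/

namespace Pool.Agent.H76.V

private theorem P1_real {v : ℕ} (χ x : Fin v → ℝ) (h1 : ∑ a, χ a = 1) :
    2 * (∑ a, χ a * x a) ^ 2 + ∑ a, ∑ a', χ a * χ a' * (x a - x a') ^ 2 =
      2 * ∑ a, χ a * x a ^ 2 := by
  have h : ∀ a, ∑ a', χ a * χ a' * (x a - x a') ^ 2 =
      χ a * x a ^ 2 * (∑ a', χ a') - 2 * (χ a * x a) * (∑ a', χ a' * x a') +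
        χ a * ∑ a', χ a' * x a' ^ 2 := by
    intro a
    rw [Finset.mul_sum, Finset.mul_sum, Finset.mul_sum, ← Finset.sum_sub_distrib,
      ← Finset.sum_add_distrib]
    refine Finset.sum_congr rfl fun a' _ => ?_
    ring
  simp only [h]
  rw [Finset.sum_add_distrib, Finset.sum_sub_distrib, ← Finset.sum_mul, ← Finset.sum_mul,
    ← Finset.sum_mul, ← Finset.mul_sum, h1]
  ring

private theorem P1_complex {v : ℕ} (χ : Fin v → ℝ) (z : Fin v → ℂ) (h1 : ∑ a, χ a = 1) :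
    2 * ‖∑ a, (χ a : ℂ) * z a‖ ^ 2 + ∑ a, ∑ a', χ a * χ a' * ‖z a - z a'‖ ^ 2 =
      2 * ∑ a, χ a * ‖z a‖ ^ 2 := by
  have hn : ∀ w : ℂ, ‖w‖ ^ 2 = w.re ^ 2 + w.im ^ 2 := by
    intro w
    rw [← Complex.normSq_eq_norm_sq, Complex.normSq_apply]
    ring
  have hr := P1_real χ (fun a => (z a).re) h1
  have hi := P1_real χ (fun a => (z a).im) h1
  simp only [hn, Complex.sub_re, Complex.sub_im, Complex.re_sum, Complex.im_sum,
    Complex.re_ofReal_mul, Complex.im_ofReal_mul, mul_add, Finset.sum_add_distrib]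
  linarith

private theorem P1_pair {R v : ℕ} (χ : Fin v → ℝ) (V : Fin v → Matrix (Fin R) (Fin R) ℂ)
    (y : Fin R → ℂ) (s : Fin R) :
    pair (fun r => (∑ a, (χ a : ℂ) • V a) r s) y =
      ∑ a, (χ a : ℂ) * pair (fun r => V a r s) y := by
  simp only [pair, Matrix.sum_apply, Matrix.smul_apply, smul_eq_mul, star_sum, star_mul',
    Finset.mul_sum, Finset.sum_mul]
  rw [Finset.sum_comm]
  refine Finset.sum_congr rfl fun a _ => Finset.sum_congr rfl fun r _ => ?_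
  have : star (χ a : ℂ) = (χ a : ℂ) := Complex.conj_ofReal _
  rw [this]
  ring

private theorem P1_norm {R : ℕ} (V : Matrix.unitaryGroup (Fin R) ℂ) (y : Fin R → ℂ) :
    ∑ s, ‖pair (fun r => (V : Matrix (Fin R) (Fin R) ℂ) r s) y‖ ^ 2 = ∑ r, ‖y r‖ ^ 2 := by
  have hV : (V : Matrix (Fin R) (Fin R) ℂ) * star (V : Matrix (Fin R) (Fin R) ℂ) = 1 :=
    Matrix.mem_unitaryGroup_iff.1 V.2
  have hn : ∀ w : ℂ, ((‖w‖ ^ 2 : ℝ) : ℂ) = star w * w := by
    intro w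
    have := Complex.conj_mul' w
    push_cast
    exact this.symm
  have hpair : ∀ s, pair (fun r => (V : Matrix (Fin R) (Fin R) ℂ) r s) y =
      (Matrix.conjTranspose (V : Matrix (Fin R) (Fin R) ℂ)).mulVec y s := by
    intro s
    simp only [pair, Matrix.mulVec, dotProduct, Matrix.conjTranspose_apply]
  have hC : ((∑ s, ‖pair (fun r => (V : Matrix (Fin R) (Fin R) ℂ) r s) y‖ ^ 2 : ℝ) : ℂ) =
      ((∑ r, ‖y r‖ ^ 2 : ℝ) : ℂ) := by
    rw [Complex.ofReal_sum, Complex.ofReal_sum]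
    simp only [hn, hpair]
    have h1 : ∀ w : Fin R → ℂ, ∑ s, star (w s) * w s = dotProduct (star w) w := fun w => rfl
    rw [h1, h1, Matrix.star_mulVec, Matrix.conjTranspose_conjTranspose, ← Matrix.dotProduct_mulVec,
      Matrix.mulVec_mulVec]
    rw [Matrix.star_eq_conjTranspose] at hV
    rw [hV, Matrix.one_mulVec]
  exact_mod_cast hC

/-- (P1) -/
theorem pair_sum {R v : ℕ} (χ : Fin v → ℝ) (h1 : ∑ a, χ a = 1)
    (V : Fin v → Matrix.unitaryGroup (Fin R) ℂ) (y : Fin R → ℂ) :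
    2 * ∑ s, ‖pair (fun r => (∑ a, (χ a : ℂ) • (V a : Matrix (Fin R) (Fin R) ℂ)) r s) y‖ ^ 2 +
      ∑ a, ∑ a', χ a * χ a' * ∑ s, ‖pair (fun r => ((V a : Matrix (Fin R) (Fin R) ℂ) -
        (V a' : Matrix (Fin R) (Fin R) ℂ)) r s) y‖ ^ 2 = 2 * ∑ r, ‖y r‖ ^ 2 := by
  have h2 : ∀ a a' s, pair (fun r => ((V a : Matrix (Fin R) (Fin R) ℂ) -
      (V a' : Matrix (Fin R) (Fin R) ℂ)) r s) y =
        pair (fun r => (V a : Matrix (Fin R) (Fin R) ℂ) r s) y -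
          pair (fun r => (V a' : Matrix (Fin R) (Fin R) ℂ) r s) y := by
    intro a a' s
    simp only [pair, Matrix.sub_apply, star_sub, sub_mul, Finset.sum_sub_distrib]
  have h3 : ∑ a, ∑ a', χ a * χ a' * ∑ s, ‖pair (fun r => ((V a : Matrix (Fin R) (Fin R) ℂ) -
        (V a' : Matrix (Fin R) (Fin R) ℂ)) r s) y‖ ^ 2 =
      ∑ s, ∑ a, ∑ a', χ a * χ a' * ‖pair (fun r => (V a : Matrix (Fin R) (Fin R) ℂ) r s) y -
          pair (fun r => (V a' : Matrix (Fin R) (Fin R) ℂ) r s) y‖ ^ 2 := by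
    rw [Finset.sum_comm]
    simp only [h2]
    rw [Finset.sum_comm]
    have : ∀ a, ∑ a', χ a * χ a' * ∑ s, ‖pair (fun r => (V a : Matrix (Fin R) (Fin R) ℂ) r s) y -
          pair (fun r => (V a' : Matrix (Fin R) (Fin R) ℂ) r s) y‖ ^ 2 =
        ∑ s, ∑ a', χ a * χ a' * ‖pair (fun r => (V a : Matrix (Fin R) (Fin R) ℂ) r s) y -
          pair (fun r => (V a' : Matrix (Fin R) (Fin R) ℂ) r s) y‖ ^ 2 := by
      intro a
      rw [Finset.sum_comm]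
      refine Finset.sum_congr rfl fun a' _ => ?_
      rw [Finset.mul_sum]
    simp only [this]
    rw [Finset.sum_comm]
  rw [h3, Finset.mul_sum, ← Finset.sum_add_distrib]
  have h4 : ∀ s, 2 * ‖pair (fun r => (∑ a, (χ a : ℂ) • (V a : Matrix (Fin R) (Fin R) ℂ)) r s) y‖ ^ 2 +
      ∑ a, ∑ a', χ a * χ a' * ‖pair (fun r => (V a : Matrix (Fin R) (Fin R) ℂ) r s) y -
          pair (fun r => (V a' : Matrix (Fin R) (Fin R) ℂ) r s) y‖ ^ 2 =
      2 * ∑ a, χ a * ‖pair (fun r => (V a : Matrix (Fin R) (Fin R) ℂ) r s) y‖ ^ 2 := by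
    intro s
    rw [P1_pair χ (fun a => (V a : Matrix (Fin R) (Fin R) ℂ)) y s]
    exact P1_complex χ (fun a => pair (fun r => (V a : Matrix (Fin R) (Fin R) ℂ) r s) y) h1
  simp only [h4]
  rw [← Finset.mul_sum, Finset.sum_comm]
  simp only [← Finset.mul_sum, P1_norm]
  rw [← Finset.sum_mul, h1, one_mul]

/-- (P2) -/
theorem col_le {R v : ℕ} (χ : Fin v → ℝ) (h0 : ∀ a, 0 ≤ χ a) (h1 : ∑ a, χ a = 1)
    (V : Fin v → Matrix.unitaryGroup (Fin R) ℂ) (s : Fin R) :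
    ∑ r, ‖(∑ a, (χ a : ℂ) • (V a : Matrix (Fin R) (Fin R) ℂ)) r s‖ ^ 2 ≤ 1 := by
  have h2 : ∀ a, ∑ r, ‖(V a : Matrix (Fin R) (Fin R) ℂ) r s‖ ^ 2 = 1 := by
    intro a
    have hV : star (V a : Matrix (Fin R) (Fin R) ℂ) * (V a : Matrix (Fin R) (Fin R) ℂ) = 1 :=
      Matrix.mem_unitaryGroup_iff'.1 (V a).2
    have h3 := congrFun (congrFun hV s) s
    rw [Matrix.mul_apply, Matrix.one_apply_eq] at h3
    have hC : ((∑ r, ‖(V a : Matrix (Fin R) (Fin R) ℂ) r s‖ ^ 2 : ℝ) : ℂ) = ((1 : ℝ) : ℂ) := by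
      rw [Complex.ofReal_sum, Complex.ofReal_one, ← h3]
      refine Finset.sum_congr rfl fun r _ => ?_
      rw [Matrix.star_apply]
      have := Complex.conj_mul' ((V a : Matrix (Fin R) (Fin R) ℂ) r s)
      push_cast
      exact this.symm
    exact_mod_cast hC
  have h4 : ∀ r, ‖(∑ a, (χ a : ℂ) • (V a : Matrix (Fin R) (Fin R) ℂ)) r s‖ ^ 2 ≤
      ∑ a, χ a * ‖(V a : Matrix (Fin R) (Fin R) ℂ) r s‖ ^ 2 := by
    intro r
    have h5 := P1_complex χ (fun a => (V a : Matrix (Fin R) (Fin R) ℂ) r s) h1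
    have h6 : 0 ≤ ∑ a, ∑ a', χ a * χ a' * ‖(V a : Matrix (Fin R) (Fin R) ℂ) r s -
        (V a' : Matrix (Fin R) (Fin R) ℂ) r s‖ ^ 2 :=
      Finset.sum_nonneg fun a _ => Finset.sum_nonneg fun a' _ =>
        mul_nonneg (mul_nonneg (h0 a) (h0 a')) (sq_nonneg _)
    have h7 : (∑ a, (χ a : ℂ) • (V a : Matrix (Fin R) (Fin R) ℂ)) r s =
        ∑ a, (χ a : ℂ) * (V a : Matrix (Fin R) (Fin R) ℂ) r s := by
      simp only [Matrix.sum_apply, Matrix.smul_apply, smul_eq_mul]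
    rw [h7]
    linarith
  refine (Finset.sum_le_sum fun r _ => h4 r).trans ?_
  rw [Finset.sum_comm]
  simp only [← Finset.mul_sum, h2, mul_one]
  exact h1.le

end Pool.Agent.H76.V
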