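import Pool.Agent.H76.V.P3

/-!
# The derivative of the transport map (MP_5ee2d0, Theorem V, step 1)
-/

namespace Pool.Agent.H76.V

open MeasureTheory

theorem hs_nonneg {R : ℕ} (A : Matrix (Fin R) (Fin R) ℂ) : 0 ≤ hs A :=
  Finset.sum_nonneg fun _ _ => Finset.sum_nonneg fun _ _ => by positivity

theorem hs_zero {R : ℕ} : hs (0 : Matrix (Fin R) (Fin R) ℂ) = 0 := by
  simp [hs]

theorem hs_smul {R : ℕ} (c : ℂ) (A : Matrix (Fin R) (Fin R) ℂ) : hs (c • A) = ‖c‖ ^ 2 * hs A := by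
  simp only [hs, Matrix.smul_apply, smul_eq_mul, norm_mul, mul_pow, Finset.mul_sum]

theorem hs_neg {R : ℕ} (A : Matrix (Fin R) (Fin R) ℂ) : hs (-A) = hs A := by
  simp [hs]

theorem hs_sum_le {R : ℕ} {ι : Type} (s : Finset ι) (f : ι → Matrix (Fin R) (Fin R) ℂ) :
    hs (∑ i ∈ s, f i) ≤ s.card * ∑ i ∈ s, hs (f i) := by
  have h : s.card * ∑ i ∈ s, hs (f i) =
      ∑ r, ∑ t, (s.card : ℝ) * ∑ i ∈ s, ‖f i r t‖ ^ 2 := by
    simp only [hs]
    rw [Finset.sum_comm, Finset.mul_sum]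
    refine Finset.sum_congr rfl fun r _ => ?_
    rw [Finset.sum_comm, Finset.mul_sum]
  rw [h]
  simp only [hs]
  refine Finset.sum_le_sum fun r _ => Finset.sum_le_sum fun t _ => ?_
  rw [Matrix.sum_apply]
  calc ‖∑ i ∈ s, f i r t‖ ^ 2 ≤ (∑ i ∈ s, ‖f i r t‖) ^ 2 := by
        have := norm_sum_le s fun i => f i r t
        exact pow_le_pow_left₀ (norm_nonneg _) this 2
    _ ≤ s.card * ∑ i ∈ s, ‖f i r t‖ ^ 2 := sq_sum_le_card_mul_sum_sq

theorem Atlas.χ_le_one (A : Atlas) (a : Fin A.v) (q : A.Ω) : A.χ a q ≤ 1 := by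
  rw [← A.χ_sum q]
  exact Finset.single_le_sum (fun a' _ => A.χ_nonneg a' q) (Finset.mem_univ a)

/-- (P4) -/
theorem Atlas.dT_le (A : Atlas) : ∃ K : ℝ, 0 ≤ K ∧ ∀ (R : ℕ)
    (Q : Fin A.v → A.Ω → Matrix.unitaryGroup (Fin R) ℂ)
    (dQ : Fin A.v → Fin 2 → A.Ω → Matrix (Fin R) (Fin R) ℂ)
    (U : Fin A.v → Matrix.unitaryGroup (Fin R) ℂ) (q : A.Ω),
    ∑ l, hs (A.dT Q dQ U l q) ≤
      K * (∑ p ∈ A.adj, (A.B p.1 ∩ A.B p.2).indicator
          (fun q => dist2 (Q p.1 q * U p.1) (Q p.2 q * U p.2)) q +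
        ∑ a, (A.B a).indicator (fun q => ∑ l, hs (dQ a l q)) q) := by
  refine ⟨4 * (A.v : ℝ) ^ 2 * A.C ^ 2 + 2 * A.v, by positivity, fun R Q dQ U q => ?_⟩
  set W : Fin A.v → Matrix (Fin R) (Fin R) ℂ := fun a =>
    ((Q a q * U a : Matrix.unitaryGroup (Fin R) ℂ) : Matrix (Fin R) (Fin R) ℂ) with hW
  obtain ⟨S1, hS1⟩ : ∃ S1, S1 = ∑ p ∈ A.adj, (A.B p.1 ∩ A.B p.2).indicator
      (fun q => dist2 (Q p.1 q * U p.1) (Q p.2 q * U p.2)) q := ⟨_, rfl⟩
  obtain ⟨S2, hS2⟩ : ∃ S2, S2 = ∑ a, (A.B a).indicator (fun q => ∑ l, hs (dQ a l q)) q := ⟨_, rfl⟩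
  rw [← hS1, ← hS2]
  have hS10 : 0 ≤ S1 := by
    rw [hS1]
    exact Finset.sum_nonneg fun p _ => Set.indicator_nonneg (fun q _ => hs_nonneg _) q
  have hS20 : 0 ≤ S2 := by
    rw [hS2]
    exact Finset.sum_nonneg fun p _ => Set.indicator_nonneg
      (fun q _ => Finset.sum_nonneg fun l _ => hs_nonneg _) q
  -- the first part
  have hX : ∀ l, hs (∑ a, A.dχ a l q • W a) ≤ (A.v : ℝ) ^ 2 * A.C ^ 2 * S1 := by
    intro l
    have e1 : ∑ a, A.dχ a l q • W a = ∑ p : Fin A.v × Fin A.v,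
        ((A.χ p.2 q : ℂ) * A.dχ p.1 l q) • (W p.1 - W p.2) := by
      rw [Fintype.sum_prod_type]
      have h2 : ∀ a, ∑ a', ((A.χ a' q : ℂ) * A.dχ a l q) • (W a - W a') =
          A.dχ a l q • W a - A.dχ a l q • ∑ a', (A.χ a' q : ℂ) • W a' := by
        intro a
        simp only [smul_sub, Finset.sum_sub_distrib]
        rw [← Finset.sum_smul, ← Finset.sum_mul]
        have h3 : ∑ a', (A.χ a' q : ℂ) = 1 := by exact_mod_cast A.χ_sum q
        rw [h3, one_mul, Finset.smul_sum]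
        congr 1
        refine Finset.sum_congr rfl fun a' _ => ?_
        rw [smul_smul, mul_comm]
      simp only [h2]
      rw [Finset.sum_sub_distrib, ← Finset.sum_smul, A.dχ_sum l q, zero_smul, sub_zero]
    rw [e1]
    refine (hs_sum_le _ _).trans ?_
    have hc : ((Finset.univ : Finset (Fin A.v × Fin A.v)).card : ℝ) = (A.v : ℝ) ^ 2 := by
      rw [Finset.card_univ, Fintype.card_prod, Fintype.card_fin]
      push_cast
      ring
    rw [hc, mul_assoc]
    refine mul_le_mul_of_nonneg_left ?_ (by positivity)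
    have h4 : ∀ p : Fin A.v × Fin A.v,
        hs (((A.χ p.2 q : ℂ) * A.dχ p.1 l q) • (W p.1 - W p.2)) ≤
          A.C ^ 2 * (if p ∈ A.adj then (A.B p.1 ∩ A.B p.2).indicator
            (fun q => dist2 (Q p.1 q * U p.1) (Q p.2 q * U p.2)) q else 0) := by
      intro p
      rw [hs_smul]
      by_cases hq : q ∈ A.B p.1 ∩ A.B p.2
      · have hp : p ∈ A.adj := by
          by_contra hp
          have := A.disj p.1 p.2 hp
          rw [this] at hq
          exact hq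
        rw [if_pos hp, Set.indicator_of_mem hq]
        refine mul_le_mul_of_nonneg_right ?_ (hs_nonneg _)
        rw [norm_mul, Complex.norm_real, Real.norm_of_nonneg (A.χ_nonneg _ _)]
        have h5 := A.χ_le_one p.2 q
        have h6 := A.dχ_le p.1 l q
        have h7 : A.χ p.2 q * ‖A.dχ p.1 l q‖ ≤ 1 * A.C :=
          mul_le_mul h5 h6 (norm_nonneg _) zero_le_one
        rw [one_mul] at h7
        exact pow_le_pow_left₀ (mul_nonneg (A.χ_nonneg _ _) (norm_nonneg _)) h7 2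
      · have h8 : (A.χ p.2 q : ℂ) * A.dχ p.1 l q = 0 := by
          rcases not_and_or.1 hq with h | h
          · rw [A.dχ_supp p.1 l q h, mul_zero]
          · rw [A.χ_supp p.2 q h, Complex.ofReal_zero, zero_mul]
        rw [h8, norm_zero, Set.indicator_of_notMem hq]
        simp
    calc ∑ p : Fin A.v × Fin A.v, hs (((A.χ p.2 q : ℂ) * A.dχ p.1 l q) • (W p.1 - W p.2))
        ≤ ∑ p : Fin A.v × Fin A.v, A.C ^ 2 * (if p ∈ A.adj then (A.B p.1 ∩ A.B p.2).indicator
            (fun q => dist2 (Q p.1 q * U p.1) (Q p.2 q * U p.2)) q else 0) :=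
          Finset.sum_le_sum fun p _ => h4 p
      _ = A.C ^ 2 * S1 := by
          rw [← Finset.mul_sum, Finset.sum_ite_mem, Finset.univ_inter, hS1]
  -- the second part
  have hY : ∑ l, hs (∑ a, (A.χ a q : ℂ) • (dQ a l q * (U a : Matrix (Fin R) (Fin R) ℂ))) ≤
      A.v * S2 := by
    calc ∑ l, hs (∑ a, (A.χ a q : ℂ) • (dQ a l q * (U a : Matrix (Fin R) (Fin R) ℂ)))
        ≤ ∑ l : Fin 2, (A.v : ℝ) * ∑ a, (A.B a).indicator (fun q => hs (dQ a l q)) q := by
          refine Finset.sum_le_sum fun l _ => ?_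
          refine (hs_sum_le _ _).trans ?_
          rw [Finset.card_univ, Fintype.card_fin]
          refine mul_le_mul_of_nonneg_left (Finset.sum_le_sum fun a _ => ?_) (by positivity)
          rw [hs_smul, hs_mul_unitary]
          by_cases hq : q ∈ A.B a
          · rw [Set.indicator_of_mem hq, Complex.norm_real, Real.norm_of_nonneg (A.χ_nonneg _ _)]
            have h5 := A.χ_le_one a q
            have h6 := A.χ_nonneg a q
            have h7 : A.χ a q ^ 2 ≤ 1 := by nlinarith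
            nlinarith [hs_nonneg (dQ a l q)]
          · rw [Set.indicator_of_notMem hq, A.χ_supp a q hq]
            simp
      _ = A.v * S2 := by
          rw [← Finset.mul_sum, Finset.sum_comm, hS2]
          congr 1
          refine Finset.sum_congr rfl fun a _ => ?_
          by_cases hq : q ∈ A.B a
          · simp only [Set.indicator_of_mem hq]
          · simp only [Set.indicator_of_notMem hq, Finset.sum_const_zero]
  have hdT : ∀ l, hs (A.dT Q dQ U l q) ≤ 2 * hs (∑ a, A.dχ a l q • W a) +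
      2 * hs (∑ a, (A.χ a q : ℂ) • (dQ a l q * (U a : Matrix (Fin R) (Fin R) ℂ))) := by
    intro l
    have e : A.dT Q dQ U l q = ∑ a, A.dχ a l q • W a +
        ∑ a, (A.χ a q : ℂ) • (dQ a l q * (U a : Matrix (Fin R) (Fin R) ℂ)) := by
      rw [Atlas.dT, Finset.sum_add_distrib]
    rw [e]
    exact hs_add_le _ _
  calc ∑ l, hs (A.dT Q dQ U l q)
      ≤ ∑ l, (2 * hs (∑ a, A.dχ a l q • W a) +
          2 * hs (∑ a, (A.χ a q : ℂ) • (dQ a l q * (U a : Matrix (Fin R) (Fin R) ℂ)))) :=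
        Finset.sum_le_sum fun l _ => hdT l
    _ = 2 * ∑ l, hs (∑ a, A.dχ a l q • W a) +
          2 * ∑ l, hs (∑ a, (A.χ a q : ℂ) • (dQ a l q * (U a : Matrix (Fin R) (Fin R) ℂ))) := by
        rw [Finset.sum_add_distrib, Finset.mul_sum, Finset.mul_sum]
    _ ≤ 2 * ∑ _l : Fin 2, ((A.v : ℝ) ^ 2 * A.C ^ 2 * S1) + 2 * (A.v * S2) := by
        have := Finset.sum_le_sum fun l (_ : l ∈ (Finset.univ : Finset (Fin 2))) => hX l
        linarith
    _ ≤ (4 * (A.v : ℝ) ^ 2 * A.C ^ 2 + 2 * A.v) * (S1 + S2) := by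
        simp only [Finset.sum_const, Finset.card_univ, Fintype.card_fin, nsmul_eq_mul]
        have h9 : 0 ≤ 4 * (A.v : ℝ) ^ 2 * A.C ^ 2 * S2 := by positivity
        have h10 : 0 ≤ 2 * (A.v : ℝ) * S1 := by positivity
        push_cast
        nlinarith

end Pool.Agent.H76.V
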