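import Pool.Agent.H76.V.Bundle

/-!
# Bessel's inequality (MP_5ee2d0, Theorem V, step 1, P6)
-/

namespace Pool.Agent.H76.V

open MeasureTheory

theorem integrable_pair {Ω : Type} [MeasurableSpace Ω] {μ : Measure Ω} [IsFiniteMeasure μ] {R : ℕ}
    (f g : Ω → Fin R → ℂ) (hf : ∀ r, Measurable fun q => f q r) (hg : ∀ r, Measurable fun q => g q r)
    (bf : ∃ M, ∀ q r, ‖f q r‖ ≤ M) (bg : ∃ M, ∀ q r, ‖g q r‖ ≤ M) :
    Integrable (fun q => pair (f q) (g q)) μ := by
  obtain ⟨Mf, hMf⟩ := bf
  obtain ⟨Mg, hMg⟩ := bg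
  unfold pair
  refine integrable_finsetSum _ fun r _ => ?_
  refine Integrable.of_bound (C := Mf * Mg) ?_ ?_
  · exact ((continuous_star.measurable.comp (hf r)).mul (hg r)).aestronglyMeasurable
  · refine Filter.Eventually.of_forall fun q => ?_
    rw [norm_mul, norm_star]
    exact mul_le_mul (hMf q r) (hMg q r) (norm_nonneg _) ((norm_nonneg _).trans (hMf q r))

theorem pair_self {R : ℕ} (w : Fin R → ℂ) : pair w w = ((∑ r, ‖w r‖ ^ 2 : ℝ) : ℂ) := by
  unfold pair
  push_cast
  refine Finset.sum_congr rfl fun r _ => ?_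
  exact Complex.conj_mul' (w r)

theorem star_pair {R : ℕ} (w u : Fin R → ℂ) : star (pair w u) = pair u w := by
  unfold pair
  rw [star_sum]
  refine Finset.sum_congr rfl fun r _ => ?_
  rw [star_mul, star_star]

/-- (P6) Bessel -/
theorem Bundle.bessel {A : Atlas} {R k : ℕ} {e : ℝ} (β : Bundle A R k e) (w : A.Ω → Fin R → ℂ)
    (hm : ∀ r, Measurable fun q => w q r) (hb : ∃ M, ∀ q r, ‖w q r‖ ≤ M) :
    ∑ i, ‖∫ q, pair (w q) (β.u i q) ∂A.μ‖ ^ 2 ≤ ∫ q, ∑ r, ‖w q r‖ ^ 2 ∂A.μ := by
  obtain ⟨Mu, hMu⟩ := β.bdd_u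
  set c : Fin k → ℂ := fun i => ∫ q, pair (w q) (β.u i q) ∂A.μ with hc
  have hwu : ∀ i, Integrable (fun q => pair (w q) (β.u i q)) A.μ := fun i =>
    integrable_pair _ _ hm (β.meas_u i) hb ⟨Mu, fun q r => hMu i q r⟩
  have huw : ∀ i, Integrable (fun q => pair (β.u i q) (w q)) A.μ := fun i =>
    integrable_pair _ _ (β.meas_u i) hm ⟨Mu, fun q r => hMu i q r⟩ hb
  have huu : ∀ i i', Integrable (fun q => pair (β.u i q) (β.u i' q)) A.μ := fun i i' =>
    integrable_pair _ _ (β.meas_u i) (β.meas_u i') ⟨Mu, fun q r => hMu i q r⟩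
      ⟨Mu, fun q r => hMu i' q r⟩
  have hww : Integrable (fun q => pair (w q) (w q)) A.μ := integrable_pair _ _ hm hm hb hb
  have hcw : ∀ i, ∫ q, pair (β.u i q) (w q) ∂A.μ = star (c i) := fun i => by
    rw [hc]
    simp only
    rw [← starRingEnd_apply, ← integral_conj]
    refine integral_congr_ae (Filter.Eventually.of_forall fun q => ?_)
    simp only
    rw [starRingEnd_apply, star_pair]
  set g : A.Ω → Fin R → ℂ := fun q r => w q r - ∑ i, star (c i) * β.u i q r with hg
  have hexp : ∀ q, pair (g q) (g q) = pair (w q) (w q) - ∑ i, star (c i) * pair (w q) (β.u i q) -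
      ∑ i, c i * pair (β.u i q) (w q) +
      ∑ i, ∑ i', c i * (star (c i') * pair (β.u i q) (β.u i' q)) := by
    intro q
    have h1 : ∀ x : Fin R → ℂ, pair x (g q) = pair x (w q) - ∑ i, star (c i) * pair x (β.u i q) := by
      intro x
      simp only [pair, hg, mul_sub, Finset.sum_sub_distrib, Finset.mul_sum]
      congr 1
      rw [Finset.sum_comm]
      refine Finset.sum_congr rfl fun i _ => Finset.sum_congr rfl fun r _ => by ring
    have h2 : ∀ x : Fin R → ℂ, pair (g q) x = pair (w q) x - ∑ i, c i * pair (β.u i q) x := by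
      intro x
      rw [← star_pair x (g q), h1, star_sub, star_sum, star_pair]
      congr 1
      refine Finset.sum_congr rfl fun i _ => ?_
      rw [star_mul, star_star, star_pair, mul_comm]
    rw [h2, h1 (w q)]
    simp only [h1, mul_sub, Finset.sum_sub_distrib, Finset.mul_sum]
    ring
  have hint : ∫ q, pair (g q) (g q) ∂A.μ =
      ∫ q, pair (w q) (w q) ∂A.μ - ∑ i, c i * star (c i) := by
    have e1 : ∫ q, pair (g q) (g q) ∂A.μ = ∫ q, (pair (w q) (w q) -
        ∑ i, star (c i) * pair (w q) (β.u i q) - ∑ i, c i * pair (β.u i q) (w q) +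
        ∑ i, ∑ i', c i * (star (c i') * pair (β.u i q) (β.u i' q))) ∂A.μ :=
      integral_congr_ae (Filter.Eventually.of_forall hexp)
    have i1 : Integrable (fun q => ∑ i, star (c i) * pair (w q) (β.u i q)) A.μ :=
      integrable_finsetSum _ fun i _ => (hwu i).const_mul _
    have i2 : Integrable (fun q => ∑ i, c i * pair (β.u i q) (w q)) A.μ :=
      integrable_finsetSum _ fun i _ => (huw i).const_mul _
    have i3 : Integrable (fun q => ∑ i, ∑ i', c i * (star (c i') *
        pair (β.u i q) (β.u i' q))) A.μ :=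
      integrable_finsetSum _ fun i _ => integrable_finsetSum _ fun i' _ =>
        ((huu i i').const_mul _).const_mul _
    have j1 : Integrable (fun q => pair (w q) (w q) -
        ∑ i, star (c i) * pair (w q) (β.u i q)) A.μ := hww.sub i1
    have j2 : Integrable (fun q => pair (w q) (w q) - ∑ i, star (c i) * pair (w q) (β.u i q) -
        ∑ i, c i * pair (β.u i q) (w q)) A.μ := j1.sub i2
    rw [e1, integral_add j2 i3, integral_sub j1 i2, integral_sub hww i1]
    have s1 : ∫ q, ∑ i, star (c i) * pair (w q) (β.u i q) ∂A.μ = ∑ i, c i * star (c i) := by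
      rw [integral_finsetSum _ fun i _ => (hwu i).const_mul _]
      refine Finset.sum_congr rfl fun i _ => ?_
      rw [integral_const_mul, mul_comm]
    have s2 : ∫ q, ∑ i, c i * pair (β.u i q) (w q) ∂A.μ = ∑ i, c i * star (c i) := by
      rw [integral_finsetSum _ fun i _ => (huw i).const_mul _]
      refine Finset.sum_congr rfl fun i _ => ?_
      rw [integral_const_mul, hcw]
    have s3 : ∫ q, ∑ i, ∑ i', c i * (star (c i') * pair (β.u i q) (β.u i' q)) ∂A.μ =
        ∑ i, c i * star (c i) := by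
      rw [integral_finsetSum _ fun i _ => integrable_finsetSum _ fun i' _ =>
        ((huu i i').const_mul _).const_mul _]
      refine Finset.sum_congr rfl fun i _ => ?_
      rw [integral_finsetSum _ fun i' _ => ((huu i i').const_mul _).const_mul _]
      have : ∀ i', ∫ q, c i * (star (c i') * pair (β.u i q) (β.u i' q)) ∂A.μ =
          if i = i' then c i * star (c i') else 0 := by
        intro i'
        rw [integral_const_mul, integral_const_mul, β.orth]
        split_ifs <;> simp
      simp only [this, Finset.sum_ite_eq, Finset.mem_univ, if_true]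
    rw [s1, s2, s3]
    ring
  have hreal : ((∫ q, ∑ r, ‖g q r‖ ^ 2 ∂A.μ : ℝ) : ℂ) =
      ((∫ q, ∑ r, ‖w q r‖ ^ 2 ∂A.μ - ∑ i, ‖c i‖ ^ 2 : ℝ) : ℂ) := by
    push_cast
    rw [← integral_complex_ofReal, ← integral_complex_ofReal]
    simp only [← pair_self]
    rw [hint]
    congr 1
    refine Finset.sum_congr rfl fun i _ => ?_
    exact Complex.mul_conj' (c i)
  have hr := Complex.ofReal_injective hreal
  have hpos : 0 ≤ ∫ q, ∑ r, ‖g q r‖ ^ 2 ∂A.μ :=
    integral_nonneg fun q => Finset.sum_nonneg fun r _ => by positivity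
  linarith

end Pool.Agent.H76.V
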