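import Pool.Agent.H76.V.P1
import Pool.Agent.H76.V.P3
import Pool.Agent.H76.V.P4
import Pool.Agent.H76.V.P6
import Pool.Agent.H76.V.Loops
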