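import Pool.Agent.H76.V.Defs

/-!
# Sheaves on the threefold (MP_5ee2d0, Theorem V, step 3)
-/

open CategoryTheory CategoryTheory.Limits CategoryTheory.Abelian

namespace Pool.Agent.H76.V

/-- `X'` is a smooth projective simply connected threefold with `K ~ 0`, `C` a small category which is
equivalent to the category of coherent sheaves on `X'`, and `P` the Picard group. `x` is a nef class
which is not semiample, `x^2 = 0`. The `E_i`, `i` in `ι`, are the prime divisors of `X'` on which `x`
is numerically trivial; they are exceptional divisors of a birational morphism, and `x` is a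
pull-back. `S` is a very general surface in `|m h|`, which is chosen for each sheaf `F` and each
`m > 0`; so `LS`, `sS`, `r`, `R`, `q` depend on `F` and `m`. (For `m = 0` let `LS` and `R` be zero.) -/
structure Sheaves (C P ι : Type) [Category.{0} C] [Abelian C] [HasExt.{0} C] [AddCommGroup P]
    [Fintype ι] [DecidableEq ι] where
  /-- the intersection form -/
  T : P →ₗ[ℤ] P →ₗ[ℤ] P →ₗ[ℤ] ℤ
  symm : ∀ x y z, T x y z = T x z y
  /-- the nef class -/
  x : P
  /-- a very ample class -/
  h : P
  sq : ∀ z, T x x z = 0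
  pos : 0 < T x h h
  /-- Hodge index theorem (for the nef class `x` and the ample class `h`) -/
  hodge : ∀ z, T x h h * T x z z ≤ T x h z ^ 2
  /-- the classes of the prime divisors `E_i` -/
  cl : ι → P
  triv : ∀ i z, T x (cl i) z = 0
  off : ∀ i j, i ≠ j → 0 ≤ T h (cl i) (cl j)
  /-- Hodge index theorem for the form `h y z`: `h x^2 = h x E_i = 0`, and no combination of the `E_i`
  except zero is proportional to `x`, since they are exceptional (negativity lemma) -/
  neg : ∀ n : ι → ℤ, n ≠ 0 → ∑ i, ∑ j, n i * n j * T h (cl i) (cl j) < 0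
  /-- the rank -/
  rk : C → ℤ
  /-- the first Chern class -/
  c1 : C → P
  /-- twice the degree of the second Chern character on `x` -/
  ch : C → ℤ
  /-- the Chern classes are additive -/
  add : ∀ S : ShortComplex C, S.ShortExact → rk S.X₂ = rk S.X₁ + rk S.X₃ ∧
    c1 S.X₂ = c1 S.X₁ + c1 S.X₃ ∧ ch S.X₂ = ch S.X₁ + ch S.X₃
  /-- torsion free, of positive rank and slope semistable for the movable class `x h` -/
  Semi : C → Prop
  /-- torsion free, of positive rank and slope stable for the movable class `x h` -/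
  Stable : C → Prop
  rk_pos : ∀ F, Semi F → 0 < rk F
  /-- Bogomolov's inequality (Langer, for the nef class `x` and the ample class `h`) -/
  bogomolov : ∀ F, Semi F → rk F * ch F ≤ T x (c1 F) (c1 F)
  /-- Jordan-Hölder filtration (slope zero) -/
  jordan : ∀ F, Semi F → T x h (c1 F) = 0 → Stable F ∨ ∃ S : ShortComplex C, S.ShortExact ∧
    S.X₂ = F ∧ Semi S.X₁ ∧ Semi S.X₃ ∧ T x h (c1 S.X₁) = 0
  /-- the line bundle `O(E - b x)`, `E` a combination of the `E_i` -/
  L : (ι → ℕ) → ℤ → C
  /-- multiplication with the section of `O(E' - E)` -/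
  s : ∀ {E E' : ι → ℕ}, E ≤ E' → ∀ b, L E b ⟶ L E' b
  s_mono : ∀ {E E' : ι → ℕ} (hE : E ≤ E') b, Mono (s hE b)
  s_comp : ∀ {E E' E'' : ι → ℕ} (h1 : E ≤ E') (h2 : E' ≤ E'') b,
    s h1 b ≫ s h2 b = s (h1.trans h2) b
  /-- the line bundle `O(E - b x - m h)` -/
  K : ℕ → (ι → ℕ) → ℤ → C
  /-- the restriction `O_S(E - b x)` to the surface `S` -/
  LS : C → ℕ → (ι → ℕ) → ℤ → C
  sS : ∀ F m {E E' : ι → ℕ}, E ≤ E' → ∀ b, LS F m E b ⟶ LS F m E' b
  sS_id : ∀ F m E b, sS F m (le_refl E) b = 𝟙 _
  sS_comp : ∀ F m {E E' E'' : ι → ℕ} (h1 : E ≤ E') (h2 : E' ≤ E'') b,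
    sS F m h1 b ≫ sS F m h2 b = sS F m (h1.trans h2) b
  /-- restriction to `S` -/
  r : ∀ F m E b, L E b ⟶ LS F m E b
  r_comp : ∀ F m {E E' : ι → ℕ} (hE : E ≤ E') b, r F m E b ≫ sS F m hE b = s hE b ≫ r F m E' b
  /-- the kernel of the restriction -/
  ker : ∀ F m E b, 0 < m → ∃ (i : K m E b ⟶ L E b) (w : i ≫ r F m E b = 0),
    (ShortComplex.mk i (r F m E b) w).ShortExact
  /-- Serre duality and Fujita's vanishing theorem: `Ext^1(F, O(E - b x - m h))` is dual to
  `H^2(X', F(b x + m h - E))` -/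
  fujita : ∀ F, Semi F → ∀ E, ∃ m₀ : ℕ, ∀ m, m₀ ≤ m → ∀ b : ℤ, 0 ≤ b →
    ∀ e : Ext F (K m E b) 1, e = 0
  /-- the sheaf `O_D(E - b x)` on the curve `D = E_j ∩ S`, which is integral by Bertini's theorem -/
  R : C → ℕ → (ι → ℕ) → ι → ℤ → C
  /-- restriction to `D` -/
  q : ∀ F m E j b, LS F m E b ⟶ R F m E j b
  /-- the exact sequence `0 → O_S(E - b x) → O_S(E + E_j - b x) → O_D(E + E_j - b x) → 0` -/
  exact : ∀ F m (E₀ E' : ι → ℕ) (j : ι) (hE : E₀ ≤ E') (b : ℤ), 0 < m → E' = E₀ + Pi.single j 1 →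
    ∃ w : sS F m hE b ≫ q F m E' j b = 0,
      (ShortComplex.mk (sS F m hE b) (q F m E' j b) w).ShortExact
  /-- the degree of a torsion free sheaf of rank one on an integral curve -/
  deg : C → ℤ
  /-- the degree of a subsheaf of `O_D(E - b x)` is at most `(E - b x).D = E.D` -/
  deg_le : ∀ F m E j b (Z : C) (i : Z ⟶ R F m E j b), Mono i → ¬ IsZero Z →
    deg Z ≤ m * ∑ i, (E i : ℤ) * T h (cl i) (cl j)
  /-- if `F(a h)` is generated by global sections then a quotient of `F` which is a torsion free sheaf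
  of rank one on `D` has degree at least `- a h.D` -/
  deg_ge : ∀ F, Semi F → ∃ a : ℤ, ∀ m E j b (Z : C) (p : F ⟶ Z) (i : Z ⟶ R F m E j b), Epi p →
    Mono i → ¬ IsZero Z → -(a * (m * T h h (cl j))) ≤ deg Z

namespace Sheaves

variable {C P ι : Type} [Category.{0} C] [Abelian C] [HasExt.{0} C] [AddCommGroup P]
    [Fintype ι] [DecidableEq ι] (X : Sheaves C P ι)

/-- the image of `e` in `Ext^1(F, O(E - b x))` in `Ext^1(F, O(E' - b x))` -/
noncomputable def up {F : C} {E E' : ι → ℕ} (hE : E ≤ E') {b : ℤ} (e : Ext F (X.L E b) 1) :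
    Ext F (X.L E' b) 1 := e.comp (Ext.mk₀ (X.s hE b)) (add_zero 1)

/-- the same on the surface -/
noncomputable def upS {F : C} {m : ℕ} {E E' : ι → ℕ} (hE : E ≤ E') {b : ℤ}
    (e : Ext F (X.LS F m E b) 1) : Ext F (X.LS F m E' b) 1 :=
  e.comp (Ext.mk₀ (X.sS F m hE b)) (add_zero 1)

/-- the restriction to the surface -/
noncomputable def res {F : C} (m : ℕ) {E : ι → ℕ} {b : ℤ} (e : Ext F (X.L E b) 1) :
    Ext F (X.LS F m E b) 1 := e.comp (Ext.mk₀ (X.r F m E b)) (add_zero 1)

/-- there is a class in `Ext^1(F, O_S(E₁ - b x))` which is not killed by multiplication with the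
sections of the sheaves `O(E' - E₁)` -/
def Bad (F : C) (m : ℕ) (E₁ : ι → ℕ) (b : ℤ) : Prop :=
  ∃ e : Ext F (X.LS F m E₁ b) 1, ∀ (E' : ι → ℕ) (hE : E₁ ≤ E'), X.upS hE e ≠ 0

end Sheaves

/-- Restriction to the very general surfaces `S` in `|m h|`. They are simply connected (Lefschetz), and
their Picard group is that of `X'` (Noether, Lefschetz, since `p_g(S) > 0 = h^(2,0)(X')`). The curves
of degree zero for `x` belong to countably many families. None of them covers `X'`, since otherwise
`x` is semiample (nef reduction), and `S` contains none of those which do not move. If a curve `C` of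
a family which covers a prime divisor `W` lies on `S` then `C = W ∩ S` (Bertini), `x` is numerically
trivial on `W` (Hodge index theorem) and `W` is one of the `E_i`. So the curves of degree zero on `S`
are the `E_i ∩ S`; since their intersection matrix is negative definite, no positive multiple of
`x|S` is effective. -/
structure Surfaces {C P ι : Type} [Category.{0} C] [Abelian C] [HasExt.{0} C] [AddCommGroup P]
    [Fintype ι] [DecidableEq ι] (X : Sheaves C P ι) where
  /-- Let `F` be stable, `c_1(F) x = 0`. The restriction `F|S` is torsion free. If it is stable for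
  `x|S` then one has the data `Test` for `Q = (F|S)(-E₁)` and `N = x|S`, since
  `Ext^1(F, O_S(E' - b x))` on `X'` is the group `Ext^1(Q, O_S(E' - E₁ - b x))` on `S`, and the
  effective divisors of degree zero on `S` are the restrictions of the combinations of the `E_i`.
  Otherwise `F|S` has a torsion free quotient `Q` of rank `s < rk F` and degree `x.c_1(Q) ≤ 0`. Then
  the `A i` are the factors of the Harder-Narasimhan filtration (for `x h`) of the kernel of
  `F → F|S → Q`; it is contained in `F` and contains `F(-S)`, so the slopes are smaller than that of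
  `F` and greater than that of `F(-S)`; the Chern character of `Q` on `X'` is
  `(0, s m h, c_1(Q) - s m^2 h^2 / 2, ..)`. -/
  restr : ∀ F, X.Semi F → X.Stable F → (∀ z, X.T X.x z (X.c1 F) = 0) → ∀ (m : ℕ), 0 < m →
    ∀ E₁ : ι → ℕ, (∃ (G Sf : Type) (_ : AddCommGroup G) (S : Surface G Sf),
      Nonempty (Test G Sf S (X.Bad F m E₁))) ∨
    ∃ (s : ℤ) (n : ℕ) (A : Fin n → C), 0 < s ∧ s < X.rk F ∧ (∀ i, X.Semi (A i)) ∧
      ∑ i, X.rk (A i) = X.rk F ∧ ∑ i, X.c1 (A i) = X.c1 F - (s * m) • X.h ∧
      X.ch F + s * m ^ 2 * X.T X.x X.h X.h ≤ ∑ i, X.ch (A i) ∧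
      (∀ i, -(m * X.T X.x X.h X.h * X.rk (A i)) < X.T X.x X.h (X.c1 (A i))) ∧
      ∀ i, X.T X.x X.h (X.c1 (A i)) < 0

end Pool.Agent.H76.V
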