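import Pool.Agent.H76.V.Sheaves

/-!
# Nef classes on Calabi-Yau threefolds (MP_5ee2d0): definitions

`X` is a projective `Q`-factorial threefold with canonical singularities, `K_X ~ 0` and
`H^1(X, O_X) = 0` which has a crepant resolution `X' -> X` (for example a smooth `X`). `P` is its
Picard group, `T` the intersection form and `c` the linear form given by the second Chern class of
`X'`. `Sh` is a set of torsion free coherent sheaves `F` on `X` with first Chern class in `P`: it
contains `O`, the reflexive hulls `W a b` of the tensor products of `a` copies of the tangent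
sheaf `T_X` and `b` copies of the sheaf of 1-forms (so `W 0 1 = Om1`, and `W 1 0 = T_X` is isomorphic
to the sheaf `Om2` of reflexive 2-forms), for every integral curve `C` the ideal sheaf `I C`, for two
integral curves the ideal sheaf `J C D` of their union and, if `C` is rational with normalisation
`nu : P^1 -> X`, the kernel `K C` of the restriction `Om1 -> nu_* omega`. `h F i x` is the dimension
of `H^i(X, F(x))`. `H` is a very ample class, `S` a very general surface in `|H|` and `hS F i x` the
dimension of `H^i(S, F(x)|S)`.

The fields of the structures are theorems of the literature for these data.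
-/

open CategoryTheory CategoryTheory.Limits CategoryTheory.Abelian

namespace Pool.Agent.H76.CY

open Pool.Agent.H76.V

section

open Matrix

/-- the group `SU_3` -/
abbrev SU3 := Matrix.specialUnitaryGroup (Fin 3) ℂ

/-- the trace -/
noncomputable def tr (g : SU3) : ℂ := Matrix.trace (g : Matrix (Fin 3) (Fin 3) ℂ)

/-- the action on vectors -/
def act (g : SU3) (v : Fin 3 → ℂ) : Fin 3 → ℂ := (g : Matrix (Fin 3) (Fin 3) ℂ) *ᵥ v

end

/-- The data of the threefold: `P` the Picard group, `Sh` a set of torsion free sheaves,
`Dv` the prime divisors, `Cu` the integral curves. -/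
structure Threefold (P Sh Dv Cu : Type*) [AddCommGroup P] where
  /-- the intersection form -/
  T : P →ₗ[ℤ] P →ₗ[ℤ] P →ₗ[ℤ] ℤ
  /-- the degree of the second Chern class -/
  c : P →ₗ[ℤ] ℤ
  /-- the rank -/
  rk : Sh → ℤ
  /-- the first Chern class -/
  c1 : Sh → P
  /-- twelve times the degree of the second Chern character -/
  ch : Sh → P →ₗ[ℤ] ℤ
  /-- the Euler characteristic -/
  chi : Sh → ℤ
  /-- `sub a b z`: `z` is a positive multiple of the first Chern class of a subsheaf of `W a b` -/
  sub : ℕ → ℕ → P → Prop
  /-- the structure sheaf -/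
  O : Sh
  /-- the reflexive hull of the tensor product of `a` copies of the tangent sheaf and `b` copies of
  the sheaf of 1-forms -/
  W : ℕ → ℕ → Sh
  /-- the total length of the sheaf `Ext^1(W a b, O)` -/
  ext : ℕ → ℕ → ℕ
  /-- the ideal sheaf of a curve -/
  I : Cu → Sh
  /-- the ideal sheaf of the union of two curves -/
  J : Cu → Cu → Sh
  /-- the length of the intersection of two curves -/
  len : Cu → Cu → ℕ
  /-- the kernel of `W 0 1 -> nu_* omega` for a rational curve -/
  K : Cu → Sh
  /-- the dimension of `H^i(X, F(x))` -/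
  h : Sh → ℕ → P → ℕ
  /-- nef classes -/
  Nef : P → Prop
  /-- semiample classes -/
  SA : P → Prop
  /-- classes of effective divisors -/
  Eff : P → Prop
  /-- a very ample class -/
  H : P
  /-- the class of a positive multiple of a prime divisor -/
  cl : Dv → P
  /-- the degree on a curve -/
  deg : Cu → P →ₗ[ℤ] ℤ
  /-- the arithmetic genus of a curve -/
  pa : Cu → ℤ
  /-- the genus of the normalisation of a curve -/
  pg : Cu → ℤ
  /-- `triv C x`: the restriction of `O(x)` to the curve `C` is trivial -/
  triv : Cu → P → Prop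
  /-- the Hodge number `h^(2,1)` of the crepant resolution `X'` -/
  h21 : ℤ
  /-- the number of exceptional prime divisors of `X' -> X` whose image is a curve -/
  r : ℕ
  /-- their images in `X` -/
  cen : Fin r → Cu
  /-- the dimension of `H^i(S, F(x)|S)` -/
  hS : Sh → ℕ → P → ℕ
  /-- classes whose restriction to `S` is ample -/
  AmpS : P → Prop
  symm12 : ∀ x y z, T x y z = T y x z
  symm23 : ∀ x y z, T x y z = T x z y
  nef_zero : Nef 0
  nef_H : Nef H
  nef_add : ∀ x y, Nef x → Nef y → Nef (x + y)
  nef_mul : ∀ (k : ℤ) (x : P), 0 < k → (Nef (k • x) ↔ Nef x)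
  sa_mul : ∀ (k : ℤ) (x : P), 0 < k → SA (k • x) → SA x
  /-- `H` is ample -/
  ample : ∀ z, ∃ k : ℤ, Nef (k • H + z)
  /-- intersection numbers of nef classes are not negative -/
  nonneg : ∀ x y z, Nef x → Nef y → Nef z → 0 ≤ T x y z
  nonneg_prime : ∀ x y D, Nef x → Nef y → 0 ≤ T x y (cl D)
  /-- Hodge index theorem for nef classes -/
  hodge : ∀ x y z, Nef x → Nef y → T x y y * T x z z ≤ T x y z ^ 2
  /-- Hodge index theorem on the prime divisor `D` -/
  hodge_prime : ∀ D y z, Nef y → T (cl D) y y * T (cl D) z z ≤ T (cl D) y z ^ 2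
  /-- Miyaoka -/
  miyaoka : ∀ x, Nef x → 0 ≤ c x
  eff_iff : ∀ x, Eff x ↔ h O 0 x ≠ 0
  /-- effective divisors are sums of prime divisors -/
  eff_sum : ∀ x, Eff x → ∃ N : ℤ, 0 < N ∧ ∃ f : Dv →₀ ℕ,
    N • x = ∑ D ∈ f.support, (f D : ℤ) • cl D
  /-- Riemann-Roch theorem -/
  rr : ∀ F x, 12 * ((h F 0 x : ℤ) - h F 1 x + h F 2 x - h F 3 x) =
    rk F * (2 * T x x x + c x) + 6 * T (c1 F) x x + ch F x + 12 * chi F
  rk_O : rk O = 1
  c1_O : c1 O = 0
  ch_O : ch O = 0
  chi_O : chi O = 0
  c1_W : ∀ a b, c1 (W a b) = 0
  /-- Miyaoka: `c x` is the sum of the degree of the second Chern class of the orbifold structure in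
  codimension two and of a positive combination of the degrees of `x` on the curves of singular
  points, and none of these terms is negative; `ch (W a b) x` is a combination of them -/
  ch_W : ∀ x, Nef x → c x = 0 → (∀ a b, ch (W a b) x = 0) ∧ ∀ i, deg (cen i) x = 0
  /-- Serre duality -/
  chi_W : ∀ a b, chi (W a b) + chi (W b a) = ext a b
  /-- if infinitely many `W a b (m x)` have sections then for some subsheaf with first Chern class
  `z / k` infinitely many of the classes `m x + z` are effective (determinants) -/
  det : ∀ a b x, (∀ n : ℤ, ∃ m, n ≤ m ∧ h (W a b) 0 (m • x) ≠ 0) →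
    ∃ z, sub a b z ∧ ∀ n : ℤ, ∃ m, n ≤ m ∧ Eff (m • x + z)
  /-- Campana and Păun: the determinants of the quotients of tensor powers of the sheaf of 1-forms
  are pseudoeffective -/
  semi : ∀ a b z, sub a b z → ∀ x y, Nef x → Nef y → T x y z ≤ 0
  rk_I : ∀ C, rk (I C) = 1
  c1_I : ∀ C, c1 (I C) = 0
  ch_I : ∀ C, ch (I C) = -12 • deg C
  chi_I : ∀ C, chi (I C) = pa C - 1
  h_I : ∀ C x, h (I C) 0 x ≤ h O 0 x
  rk_J : ∀ C D, rk (J C D) = 1
  c1_J : ∀ C D, c1 (J C D) = 0
  ch_J : ∀ C D, C ≠ D → ch (J C D) = -12 • (deg C + deg D)
  chi_J : ∀ C D, C ≠ D → chi (J C D) = pa C - 1 + (pa D - 1) + len C D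
  h_J : ∀ C D x, h (J C D) 0 x ≤ h O 0 x
  pg_nonneg : ∀ C, 0 ≤ pg C
  pg_le : ∀ C, pg C ≤ pa C
  /-- Serre vanishing theorem -/
  serre : ∀ F x, ∃ j0 : ℤ, ∀ j, j0 ≤ j → ∀ i, 1 ≤ i → h F i (x + j • H) = 0
  /-- the exact sequence `0 → F(x) → F(x + H) → F(x + H)|S → 0` -/
  restr : ∀ F i x, h F (i + 1) x ≤ h F (i + 1) (x + H) + hS F i (x + H)
  /-- Fujita vanishing theorem on `S` -/
  fujita : ∀ a, AmpS a → ∀ F x, ∃ k0 : ℤ, ∀ k, k0 ≤ k → ∀ y, Nef y → ∀ i, 1 ≤ i →
    hS F i (x + k • a + y) = 0
  /-- Nakai-Moishezon on the very general surface `S`, nef reduction: if the restriction of `x` to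
  `S` is not ample then the curves `C` with `x.C = 0` cover `X` (and `x` is semiample), or cover a
  surface on which `x` is numerically trivial -/
  nakai : ∀ x, Nef x → 0 < T H x x → AmpS x ∨ SA x ∨ ∃ D, ∀ w, T x (cl D) w = 0
  /-- Keel, Matsuki and McKernan: effective nef classes are semiample -/
  kmm : ∀ x, Nef x → Eff x → SA x
  /-- Lazić and Peternell: a nef class is semiample if infinitely many sheaves of twisted forms have
  sections -/
  lp : ∀ x, Nef x → (∀ n : ℤ, ∃ m, n ≤ m ∧ (h (W 0 1) 0 (m • x) ≠ 0 ∨ h (W 1 0) 0 (m • x) ≠ 0)) →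
    SA x
  /-- `H^1(W 0 1(x)) → H^1(P^1, omega) → H^2((K C)(x))` if `x` has degree zero on the rational
  curve `C` -/
  curve : ∀ C x, pg C = 0 → deg C x = 0 → h (W 0 1) 1 x ≠ 0 ∨ h (K C) 2 x ≠ 0
  /-- `H^1(O(x)) → H^1(O_C) → H^2((I C)(x))` if the restriction of `x` to `C` is trivial -/
  curve_O : ∀ C x, 1 ≤ pa C → triv C x → h O 1 x ≠ 0 ∨ h (I C) 2 x ≠ 0
  triv_mul : ∀ C x (k : ℤ), triv C x → triv C (k • x)
  triv_deg : ∀ C x, triv C x → deg C x = 0
  deg_nef : ∀ C x, Nef x → 0 ≤ deg C x
  /-- cone theorem for the pair `(X, εD)`: the extremal rays on which `D` is negative are generated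
  by rational curves `C` with `-D.C ≤ b` -/
  cone : ∀ D, Eff D → ∃ b : ℤ, ∀ y, Nef y → (∀ C, pg C = 0 → b ≤ deg C y) → Nef (y + D)
  /-- Siu: a difference of nef classes is big if `A^3 > 3 A^2 B` -/
  siu : ∀ A B, Nef A → Nef B → 3 * T A A B < T A A A → ∃ k : ℤ, 0 < k ∧ Eff (k • (A - B))
  /-- a nef class `x` with `x^2 ≠ 0` which has degree zero on the fibres of the elliptic fibration
  given by a semiample class `y` is semiample (Kawamata) -/
  fibre : ∀ x y, Nef x → 0 < T H x x → Nef y → SA y → T y y y = 0 → 0 < T H y y → T x y y = 0 → SA x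

/-- the rank of an abelian group -/
noncomputable def rank (P : Type*) [AddCommGroup P] : ℤ := Module.finrank ℤ P

namespace Threefold

variable {P Sh Dv Cu : Type*} [AddCommGroup P] (X : Threefold P Sh Dv Cu)

/-- ample classes -/
def Ample (y : P) : Prop := ∃ k : ℤ, 0 < k ∧ X.Nef (k • y - X.H)

/-- intersection numbers -/
def t (x y z : P) : ℤ := X.T x y z

/-- `x` is nef, `x^2 ≠ 0` -/
def NefTwo (x : P) : Prop := X.Nef x ∧ X.t X.H x x ≠ 0

/-- `x` is nef, `x^2 = 0`, and `x` is not numerically trivial -/
def NefOne (x : P) : Prop := X.Nef x ∧ X.t X.H x x = 0 ∧ X.t X.H X.H x ≠ 0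

/-- the sheaf `O` and, if `c x = 0`, the sheaves `W a b` and, for curves `C`, `D` of degree zero,
`I C`, `J C D` and (if `C` is rational) `K C` -/
def Fam (x : P) (F : Sh) : Prop :=
  F = X.O ∨ X.c x = 0 ∧ ((∃ a b, F = X.W a b) ∨
    (∃ C, X.deg C x = 0 ∧ (F = X.I C ∨ X.pg C = 0 ∧ F = X.K C)) ∨
    ∃ C D, C ≠ D ∧ X.deg C x = 0 ∧ X.deg D x = 0 ∧ F = X.J C D)

/-- `x D ≠ 0` for all prime divisors `D` -/
def NoSurface (x : P) : Prop := ∀ D, ∃ w, X.t x (X.cl D) w ≠ 0

/-- all curves of singular points are smooth elliptic curves and pairwise disjoint -/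
def Elliptic : Prop :=
  (∀ i, X.pg (X.cen i) = 1 ∧ X.pa (X.cen i) = 1) ∧
    ∀ i j, X.cen i ≠ X.cen j → X.len (X.cen i) (X.cen j) = 0

/-- `x^3 = c x = 0`, `2 ≤ rank P = h^(2,1) - r`, `chi (W a b) = 0` and `ext a b = 0` -/
def Numbers (x : P) : Prop :=
  (X.t x x x = 0 ∧ X.c x = 0) ∧ (2 ≤ rank P ∧ rank P + X.r = X.h21) ∧
    ∀ a b, X.chi (X.W a b) = 0 ∧ X.ext a b = 0

/-- the restriction of `x` to an integral curve `C` is not torsion, and if `x.C = 0` then `C` is a
smooth elliptic curve -/
def Curves (x : P) : Prop :=
  (∀ C (m : ℤ), 0 < m → ¬ X.triv C (m • x)) ∧ ∀ C, X.deg C x = 0 → X.pg C = 1 ∧ X.pa C = 1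

/-- linear forms which are nonnegative on nef classes and vanish at `x` are nonnegative multiples of
`x^2` -/
def Forms (x : P) : Prop :=
  ∀ φ : P →ₗ[ℤ] ℤ, (∀ y, X.Nef y → 0 ≤ φ y) → φ x = 0 →
    ∃ a b : ℤ, 0 < a ∧ 0 ≤ b ∧ ∀ z, a * φ z = b * X.t x x z

/-- if `x^2 z > 0` then `n x + z` is ample for large `n`, otherwise not effective -/
def Cone (x : P) : Prop :=
  (∀ z, 0 < X.t x x z → ∃ n0 : ℤ, ∀ n, n0 ≤ n → X.Ample (n • x + z)) ∧
    ∀ z, X.t x x z ≤ 0 → ∃ n0 : ℤ, ∀ n, n0 ≤ n → ¬ X.Eff (n • x + z)

end Threefold

/-- Luna's étale slice `N` at a point `p'` of the closed orbit over the given point, in the spectrum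
of the algebra of all `W_V ⊗ V^*`. `Q` is the stabiliser of `p'`, a reductive group. `A` is the
completed local ring of `N // Q`, which is étale over the threefold, `P` a ring of power series over
which `A` is finite, `R` the ring of functions of `N` with coefficients in `A`, `Irr` the set of the
irreducible representations of `Q`. `R` is generated over `A` by a finite dimensional representation
`E` of `Q` consisting of functions which vanish at `p'`. The hypothesis `cm` says that all sheaves
`W_(a,b)` are Cohen-Macaulay. -/
structure Slice (cm : Prop) (P A R Irr : Type) [CommRing P] [IsLocalRing P] [CommRing A]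
    [IsLocalRing A] [Algebra P A] [CommRing R] [Algebra A R] where
  /-- `A` is Gorenstein: `τ` generates the dual of `A` over `P` -/
  τ : A →ₗ[P] P
  artinian : IsArtinianRing (A ⧸ (IsLocalRing.maximalIdeal P).map (algebraMap P A))
  noetherian : IsNoetherianRing R
  /-- the Reynolds operator: `A` is the ring of invariants of `R` -/
  ρ : R →ₗ[A] A
  ρ_one : ρ 1 = 1
  /-- the ideal of the point `p'`, which is fixed by `Q` -/
  n : Ideal R
  ρ_n : ∀ r ∈ n, ρ r ∈ IsLocalRing.maximalIdeal A
  /-- `Q` is infinite. Otherwise `N` is a finite cover of the threefold which is étale in codimension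
  one, with free tangent sheaf; by the theorem of Lipman and Zariski for canonical singularities
  (Greb, Kebekus, Kovács, Peternell) `N` is smooth, and the point is a quotient singularity -/
  infinite : Infinite Irr
  /-- the smallest degree of a symmetric power of `E` which contains `V` or `V^*`; each symmetric
  power has finitely many constituents -/
  deg : Irr → ℕ
  finite : ∀ l, {V | deg V < l}.Finite
  dim : Irr → ℕ
  /-- coordinates of the first element of a basis over `P` of the module `(R ⊗ V)^Q` -/
  s : ∀ V, Fin (dim V) → R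
  /-- coordinates of the first element of the dual basis of `(R ⊗ V^*)^Q` -/
  s' : ∀ V, Fin (dim V) → R
  /-- complete reducibility: the elements of these modules come from the symmetric algebra of `E` -/
  mem : ∀ V j, s V j ∈ n ^ deg V ∧ s' V j ∈ n ^ deg V
  /-- the product of the two elements -/
  pair : Irr → A
  pair_eq : ∀ V, algebraMap A R (pair V) = ∑ j, s V j * s' V j
  /-- The module `(R ⊗ V)^Q` is a direct summand of a module of the representation of the large
  group. If it is Cohen-Macaulay then it is free over `P`, and by duality for the finite map the dual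
  basis exists in its reflexive dual `(R ⊗ V^*)^Q`. -/
  dual : cm → ∀ V, τ (pair V) = 1

/-- A prime divisor `B` over the flag bundle `F`, with centre over the singular set of `U`. The order
along `B` is extended to an algebraic closure of the function field of `F`; `v` is its restriction to
the algebraic closure `K'` of the function field `K` of `U`, and `a` is the log discrepancy over `U`
of the restriction of `v` to `K` (with the same normalisation). `V` is the generic fibre of the sheaf
`W_(2kρ)` with its form `β`, `M` the set of its sections over `U`; `W` is the irreducible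
representation `V_(2kρ)` of the group with coefficients in `K'`, and `γ` its invariant form. -/
structure Place (K K' V W : Type) [Field K] [Field K'] [AddCommGroup V] [Module K V]
    [AddCommGroup W] [Module K' W] (β : V →ₗ[K] V →ₗ[K] K) (M : Set V)
    (γ : W →ₗ[K'] W →ₗ[K'] K') (ι : K →+* K') (v : AddValuation K' (WithTop ℚ)) (k : ℕ)
    (a : ℚ) where
  /-- the value at a point of the principal bundle with coordinates in `K'` -/
  val : V →ₛₗ[ι] W
  span : ⊤ ≤ Submodule.span K' (Set.range val)
  form : ∀ x y, γ (val x) (val y) = ι (β x y)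
  /-- `V_(2kρ)` with coefficients in the valuation ring -/
  Λ : Set W
  integral : ∀ x ∈ Λ, ∀ y ∈ Λ, 0 ≤ v (γ x y)
  /-- semistable reduction for geometric invariant theory (Mumford, Seshadri): the invariants of the
  generators of `M` are functions on `U`, and their values span `W`, so that the orbit of the tuple
  of values is closed; so the point can be chosen such that all sections are integral -/
  git : ∀ x ∈ M, val x ∈ Λ
  /-- the order along `B` of sections of the line bundle on the flag variety over the valuation
  ring -/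
  ord : W → WithTop ℚ
  ord_add : ∀ x y, min (ord x) (ord y) ≤ ord (x + y)
  ord_smul : ∀ r x, ord (r • x) = v r + ord x
  /-- the line bundle has no base points -/
  free : ∃ s ∈ Λ, ord s = 0
  /-- the log discrepancy of `B` with respect to `F` and `1/k` times the divisor of a general element
  of a finite dimensional space of sections of `-k K_(F/U)` which generates `M`; the order of the
  general element along `B` is the minimum over `M` -/
  disc : ℚ
  /-- the flag variety over the valuation ring is smooth, so it has no log discrepancies less than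
  that of the special fibre: `a - (order of the general section) / k ≤ disc` -/
  adjunction : ∀ x ∈ M, ((k * a : ℚ) : WithTop ℚ) ≤ ((k * disc : ℚ) : WithTop ℚ) + ord (val x)

/-- The sheaf `W_(2kρ)` on `U`, for one `k`: it is the reflexive hull of the direct image of
`-k K_(F/U)`. `V` is its generic fibre, `W` the representation `V_(2kρ)` with coefficients in `K'`. -/
structure Level (cm : Prop) (K₀ K K' Div V W : Type) [Field K₀] [Field K] [Algebra K₀ K] [Field K']
    [AddCommGroup V] [Module K V] [Module K₀ V] [AddCommGroup W] [Module K' W]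
    (τ : K →ₗ[K₀] K₀) (ι : Div → K →+* K') (v : Div → AddValuation K' (WithTop ℚ)) (a : Div → ℚ)
    (k : ℕ) where
  /-- the sheaf is selfdual -/
  β : V →ₗ[K] V →ₗ[K] K
  /-- the sections over `U` -/
  M : Set V
  γ : W →ₗ[K'] W →ₗ[K'] K'
  /-- If the sheaf is Cohen-Macaulay then its module of sections is free over the ring of the affine
  space (Quillen, Suslin), and it has dual bases (duality for finite maps). -/
  dual : cm → ∃ (n : ℕ) (x x' : Fin n → V), (∀ i, x i ∈ M) ∧ (∀ i, x' i ∈ M) ∧
    (∀ i j, τ (β (x i) (x' j)) = if i = j then 1 else 0) ∧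
    ⊤ ≤ Submodule.span K₀ (Set.range x) ∧ ⊤ ≤ Submodule.span K₀ (Set.range x')
  place : ∀ B : Div, Place K K' V W β M γ (ι B) (v B) k (a B)

/-- All log discrepancies are positive. -/
def Level.Klt {cm : Prop} {K₀ K K' Div V W : Type} [Field K₀] [Field K] [Algebra K₀ K] [Field K']
    [AddCommGroup V] [Module K V] [Module K₀ V] [AddCommGroup W] [Module K' W]
    {τ : K →ₗ[K₀] K₀} {ι : Div → K →+* K'} {v : Div → AddValuation K' (WithTop ℚ)} {a : Div → ℚ}
    {k : ℕ} (l : Level cm K₀ K K' Div V W τ ι v a k) : Prop :=
  ∀ B, 0 < (l.place B).disc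

/-- A point of the threefold with canonical Gorenstein singularities which is not a quotient
singularity; `ext a b` is the total length (over all points of the threefold) of the sheaf
`Ext^1(W_(a,b), O)` for the reflexive hull `W_(a,b)` of the tensor product of `a` copies of the
tangent sheaf and `b` copies of its dual; if it is zero then `W_(a,b)` is Cohen-Macaulay. `U` is
an affine neighbourhood of the point, `K` its function field; `U` is finite over the affine space with
function field `K₀`. `F` is the flag bundle of the tangent sheaf over the smooth part of `U`, an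
associated bundle of a principal bundle with group `SL_3`. `Div` is the set of all prime divisors
over `F` with centre over the singular set of `U`. -/
structure Germ (ext : ℕ → ℕ → ℕ) (K₀ K K' Div P A R Irr : Type) (V W : ℕ → Type) [Field K₀]
    [Field K] [Algebra K₀ K] [Field K'] [∀ k, AddCommGroup (V k)] [∀ k, Module K (V k)]
    [∀ k, Module K₀ (V k)] [∀ k, AddCommGroup (W k)]
    [∀ k, Module K' (W k)] [CommRing P] [IsLocalRing P] [CommRing A]
    [IsLocalRing A] [Algebra P A] [CommRing R] [Algebra A R] where
  char : CharZero K₀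
  fin : FiniteDimensional K₀ K
  tower : ∀ k, IsScalarTower K₀ K (V k)
  /-- generator of the dual of the ring of `U` over the ring of the affine space (`U` is
  Gorenstein) -/
  τ : K →ₗ[K₀] K₀
  τ_ne : τ ≠ 0
  ι : Div → K →+* K'
  v : Div → AddValuation K' (WithTop ℚ)
  a : Div → ℚ
  /-- `U` has canonical singularities, so it is log terminal with a small multiple of a divisor -/
  klt : ∀ x : K, x ≠ 0 → ∃ k₀ : ℕ, ∀ k ≥ k₀, ∀ B, v B (ι B x) < ((k * a B : ℚ) : WithTop ℚ)
  /-- the sheaf `W_(2kρ)` is a direct summand of some `W_(a,b)` -/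
  level : ∀ k, Level (∀ a b, ext a b = 0) K₀ K K' Div (V k) (W k) τ ι v a k
  /-- Birkar, Birkar-Cascini-Hacon-McKernan: if the log discrepancies are positive for some `k` (one
  may replace `k` by a multiple) then `F` has a projective compactification over `U` of Fano type with
  boundary of codimension two, and the Cox ring is finitely generated. Hadžiev, Grosshans: so the algebra of all `W_V ⊗ V^*` is finitely
  generated. Matsushima, Luna: the closed orbit over the point has a reductive stabiliser and an étale
  slice. -/
  slice : ∀ k, 0 < k → (level k).Klt → Nonempty (Slice (∀ a b, ext a b = 0) P A R Irr)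

/-- there is a point which is not a quotient singularity -/
def NotQuotient (ext : ℕ → ℕ → ℕ) : Prop :=
  ∃ (K₀ K K' Div P A R Irr : Type) (V W : ℕ → Type) (_ : Field K₀) (_ : Field K)
    (_ : Algebra K₀ K) (_ : Field K') (_ : ∀ k, AddCommGroup (V k)) (_ : ∀ k, Module K (V k))
    (_ : ∀ k, Module K₀ (V k)) (_ : ∀ k, AddCommGroup (W k)) (_ : ∀ k, Module K' (W k))
    (_ : CommRing P) (_ : IsLocalRing P) (_ : CommRing A) (_ : IsLocalRing A) (_ : Algebra P A)
    (_ : CommRing R) (_ : Algebra A R), Nonempty (Germ ext K₀ K K' Div P A R Irr V W)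

/-- the vector `v` spans the axis of `g` -/
def Axis (g : SU3) (v : Fin 3 → ℂ) : Prop := g ≠ 1 ∧ v ≠ 0 ∧ act g v = v

/-- the lines of `v` and `w` are conjugate under the group `G` -/
def Conj (G : Subgroup SU3) (v w : Fin 3 → ℂ) : Prop := ∃ γ ∈ G, ∃ c : ℂ, act γ v = c • w

/-- some nonzero vector is fixed by the group `G` -/
def CommonAxis (G : Subgroup SU3) : Prop := ∃ v, v ≠ 0 ∧ ∀ g ∈ G, act g v = v

/-- The contribution of a point to Riemann-Roch: the mean of
`tr(g)^a tr(g⁻¹)^b / det(1 - g⁻¹)`, `det(1 - g⁻¹) = tr(g) - tr(g⁻¹)`, over the local group. A quotient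
by zero is zero by convention, so only the elements without axis contribute. -/
noncomputable def defect (G : Subgroup SU3) (a b : ℕ) : ℂ :=
  (∑ᶠ g : G, tr g ^ a * star (tr g) ^ b / (tr g - star (tr g))) / Nat.card G

/-- two branches of the singular locus meet: a curve of singular points is not smooth, or two of
them meet -/
def Threefold.Meet {P Sh Dv Cu : Type*} [AddCommGroup P] (X : Threefold P Sh Dv Cu) : Prop :=
  (∃ i, X.pg (X.cen i) ≠ X.pa (X.cen i)) ∨
    ∃ i j, X.cen i ≠ X.cen j ∧ X.len (X.cen i) (X.cen j) ≠ 0

/-- The dissident points of `X`: the points near which `X` is not the product of a disc and of a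
surface (smooth or with a rational double point). -/
structure Points {P Sh Dv Cu : Type*} [AddCommGroup P] (X : Threefold P Sh Dv Cu) where
  /-- the number of dissident points -/
  s : ℕ
  /-- the point is a quotient singularity -/
  quot : Fin s → Prop
  /-- the local group at a quotient singularity, a finite subgroup of `SU_3` -/
  G : Fin s → Subgroup SU3
  fin : ∀ p, Finite (G p)
  /-- the number of sectors of dimension one or three of the inertia orbifold, up to inversion -/
  q : ℕ
  /-- the traces of their elements -/
  t : Fin q → ℝ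
  /-- half the Euler number of the orbifold, and for a sector of dimension one the degree of its
  tangent bundle divided by its multiplicity (half of it if the sector is its own inverse) -/
  B : Fin q → ℝ
  /-- a dissident point which is not a quotient singularity gives the data of the flag bundle over an
  affine neighbourhood which are listed in the structure `Germ` -/
  germ : ∀ p, ¬ quot p → NotQuotient X.ext
  /-- Kawasaki's Riemann-Roch theorem, if all singularities are quotient singularities -/
  kawasaki : (∀ p, quot p) → ∀ a b : ℕ, (X.chi (X.W a b) : ℂ) =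
    ∑ j, B j * (((a : ℂ) - b) * t j ^ (a + b - 1)) + ∑ p, defect (G p) a b
  /-- the local group of a dissident point has no common axis -/
  axis : ∀ p, quot p → ¬ CommonAxis (G p)
  /-- the axes of elements of the local group are mapped to branches of the singular locus, and axes
  which are not conjugate to different branches -/
  branch : ∀ p, quot p → ∀ g ∈ G p, ∀ g' ∈ G p, ∀ v v', Axis g v → Axis g' v' →
    Conj (G p) v v' ∨ X.Meet
  /-- Gauss-Bonnet: without dissident points and with smooth elliptic disjoint curves of singular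
  points `-2 chi (W 0 1)` is the Euler number of the crepant resolution -/
  euler : s = 0 → X.Elliptic → X.chi (X.W 0 1) = X.h21 - (rank P + X.r)

/-- The higher direct images `R^j f_* Z` of coherent sheaves on a threefold under the composition `f` of a
birational morphism with `R f_* O = O` and of a finite étale covering; `pull G` is `f^* G`. -/
structure Images (C Sh : Type) [Category.{0} C] [Abelian C] (pull : Sh → C) where
  /-- the dimension of the support of `R^j f_* Z` (`-1` if the sheaf is zero) -/
  dim : C → ℕ → ℤ
  /-- the fibres of `f` have dimension at most two, and finitely many of them have dimension two -/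
  fibres : ∀ Z, dim Z 2 ≤ 0 ∧ dim Z 3 = -1
  /-- long exact sequence -/
  long : ∀ S : ShortComplex C, S.ShortExact → ∀ j,
    dim S.X₃ j ≤ max (dim S.X₂ j) (dim S.X₁ (j + 1))
  /-- `G` is a quotient of a vector bundle `V`, and `R^j f_* (f^* V) = V ⊗ R^j f_* O = 0` -/
  bundle : ∀ G, ∃ (V : C) (p : V ⟶ pull G), Epi p ∧ ∀ j, 1 ≤ j → dim V j = -1

/-- `X' → X` is a crepant resolution of the threefold `X`, `X''` the universal covering of `X'` (the
fundamental group is finite) and `f : X'' → X` the composition. The fundamental groups of `X'` and `X`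
agree (Takayama), so `f` is also the composition of a crepant resolution and of a finite étale
covering of `X`. `x` is a nef class of `X`, not semiample, `x^2 = 0`, and `x D ≠ 0` for all prime
divisors `D` of `X`. `Y` contains the data of `X''` for the pull-back of `x`. So the `E_i` are the
prime divisors of `X''` whose image in `X` is a point or a curve of degree zero; if `c x = 0` then
these are all exceptional prime divisors (Miyaoka). -/
structure Resolution {P Sh Dv Cu C P' ι : Type} [AddCommGroup P] [Category.{0} C] [Abelian C]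
    [HasExt.{0} C] [AddCommGroup P'] [Fintype ι] [DecidableEq ι] (X : Threefold P Sh Dv Cu) (x : P)
    (Y : Sheaves C P' ι) where
  /-- the degree of `f` -/
  n : ℤ
  /-- the sheaf `f^* G` -/
  pull : Sh → C
  /-- `H^3(X, G(b x))` is dual to `Hom(G, O(-b x))`, which is zero for large `b` since the degree of
  `O(-b x)` (for an ample class) is smaller than the slopes of the quotients of `G` -/
  top : ∀ G, ∃ b₀ : ℤ, ∀ b, b₀ ≤ b → X.h G 3 (b • x) = 0
  /-- the cokernel of `Om1 → nu_* omega` has finite length -/
  ch_K : ∀ C, X.pg C = 0 → X.ch (X.K C) x = X.ch (X.W 0 1) x - 12 * X.deg C x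
  /-- Serre duality on `X`: `H^2(X, G(b x))` is dual to `Ext^1(G, O(-b x))`, and this group is a direct
  summand of `Ext^1(L f^* G, O(-b x)) = Ext^1(f^* G, O(-b x))`, since `O` is a direct summand of
  `R f_* O` and the other cohomology sheaves of `L f^* G` are torsion sheaves -/
  dual : ∀ G (b : ℤ), X.h G 2 (b • x) ≠ 0 → ∃ e : Ext (pull G) (Y.L 0 b) 1, e ≠ 0
  /-- the dimension of `H^2(X'', Z(b x))` -/
  h2 : C → ℤ → ℕ
  /-- Serre duality on `X''` -/
  serre : ∀ Z (b : ℤ), h2 Z b = 0 → ∀ e : Ext Z (Y.L 0 b) 1, e = 0
  /-- the dimension of `H^i(X, R^j f_* Z(b x))` -/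
  hR : C → ℕ → ℕ → ℤ → ℕ
  /-- Leray spectral sequence -/
  leray : ∀ Z b, h2 Z b ≤ hR Z 2 0 b + hR Z 1 1 b + hR Z 0 2 b
  /-- the sheaves `R^j f_* Z` -/
  I : Images C Sh pull
  /-- Grothendieck's vanishing theorem -/
  vanish : ∀ Z (i j : ℕ) b, I.dim Z j < i → hR Z i j b = 0
  /-- the support of `f_* Z` is contained in `f(E)` if `Z` is a subsheaf of `O_E(E - b x)` -/
  support : ∀ (E : ι → ℕ) (hE : 0 ≤ E) (b : ℤ) (Z : C) (i : Z ⟶ cokernel (Y.s hE b)), Mono i →
    I.dim Z 0 ≤ 1
  /-- The torsion subsheaf `A` and the quotient `B` of `f^* G`. (For `G = O` one has `A = 0`.) The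
  support of `A` is contained in the union of the `E_i` and of curves, so `Ext^1(A, O(-b x))` is killed
  by a section of some `O(E₀)` (parts of `A` supported on curves have no `Ext^1` with line bundles).
  `B` is semistable for `x h`: outside the `E_i`, which have degree zero, and curves it is a tensor
  product of sheaves of vector fields and of 1-forms (Campana and Păun), or it has rank one, or it is
  a subsheaf of the sheaf of 1-forms with cokernel on a curve. `c_1(B)` is a combination of the `E_i`.
  By Riemann-Roch for `B(b x)` and `G(b x)` the numbers `12 ch_2(B) x` and `n ch G x` differ by a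
  combination of the degrees of `x` on the curves of singular points. -/
  torsion : ∀ G, X.Fam x G → ∃ (A B : C) (i : A ⟶ pull G) (p : pull G ⟶ B) (w : i ≫ p = 0),
    (ShortComplex.mk i p w).ShortExact ∧ Y.Semi B ∧ (∀ z, Y.T Y.x z (Y.c1 B) = 0) ∧
    (∃ (E₀ : ι → ℕ) (hE : 0 ≤ E₀), ∀ (b : ℤ) (e : Ext A (Y.L 0 b) 1), Y.up hE e = 0) ∧
    ∃ u : Fin X.r → ℤ, (G = X.O → u = 0) ∧
      6 * Y.ch B = n * X.ch G x + ∑ i, u i * X.deg (X.cen i) x

/-- the data of the crepant resolution of `X` and of the surfaces on it -/
def Threefold.Resolved {P Sh Dv Cu : Type} [AddCommGroup P] (X : Threefold P Sh Dv Cu) (x : P) :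
    Prop :=
  ∃ (C P' ι : Type) (_ : Category.{0} C) (_ : Abelian C) (_ : HasExt.{0} C) (_ : AddCommGroup P')
    (_ : Fintype ι) (_ : DecidableEq ι) (Y : Sheaves C P' ι),
    Nonempty (Surfaces Y) ∧ Nonempty (Resolution X x Y)

/-- Let `X` be smooth, with `K_X ~ 0` and `H^1(X, O_X) = 0`. For every nef class `x` which is not
numerically trivial and not semiample the minimal model program which contracts the prime divisors
`D` with `x.D = 0` (it is the program for `m x` plus a small multiple of their sum, `m` large) ends
with a threefold `Y`; after flops of `X` there is a crepant resolution `X → Y`, and `x` is the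
pull-back of a class `y` of `Y`. (If `x^2 = 0` then at the end of the program the product of `x` with
this nef class is zero, so the class is a multiple of `x` by the Hodge index theorem, and all these
prime divisors are contracted, since no multiple of `x` is effective.) `Y.r` of these prime divisors
have a curve as their image in `Y`, and `n x` of them a point, which is then a dissident point of `Y`.
(If `x^3 ≠ 0`, or if the fundamental group of `X` is infinite, then `x` is semiample; in the second
case a finite étale covering of `X` is an abelian threefold or the product of a K3 surface and an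
elliptic curve. So `X` has a finite universal covering.) -/
structure LastModels {P Sh Dv Cu : Type} [AddCommGroup P] (X : Threefold P Sh Dv Cu) where
  n : P → ℤ
  model : ∀ x, X.Nef x → X.t X.H X.H x ≠ 0 → ¬ X.SA x →
    ∃ (P' Sh' Dv' Cu' : Type) (_ : AddCommGroup P') (_ : Module.Finite ℤ P')
      (Y : Threefold P' Sh' Dv' Cu') (S : Points Y) (y : P'),
      (Y.NefTwo y ∨ Y.NefOne y ∧ Y.Resolved y) ∧ Y.NoSurface y ∧ (Y.SA y → X.SA x) ∧ Y.h21 = X.h21 ∧
        rank P = rank P' + Y.r + n x ∧ (S.s = 0 → n x = 0)

end Pool.Agent.H76.CY
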